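import Mathlib.Algebra.Group.Subgroup.Finite
import Mathlib.GroupTheory.Index
import Mathlib.Logic.Equiv.Fintype
import Mathlib.SetTheory.Cardinal.Free
import Mathlib.Algebra.Group.Action.Pointwise.Finset
import Mathlib.Data.List.Lookmap
import Mathlib.Data.Finset.Functor
import Mathlib.Tactic.IntervalCases
import Mathlib.Tactic.Group
import Mathlib.Data.Int.ConditionallyCompleteOrder
import Mathlib.Data.Int.Star
import Mathlib.Tactic.Algebra.Basic
import Pool.Agent.MP_2a6d4e_co.h30.Twin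
import Mathlib.Algebra.Torsor.Defs
import Mathlib.SetTheory.Cardinal.Continuum
import Mathlib.Combinatorics.SimpleGraph.Maps

-- ======== part 0: formerly Pool.Agent.MP_2a6d4e_co.h30.Grp
section MrgPart0

/-! A residually finite group with a subset whose translates differ from it by sets of even size. -/

namespace Pool.Agent.MP_2a6d4e_co.h30

open Set Function

/-- The left translate of a set. -/
def tr {Γ : Type} [Group Γ] (g : Γ) (B : Set Γ) : Set Γ := {x | g⁻¹ * x ∈ B}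

structure Data (Γ : Type) [Group Γ] where
  N : ℕ → Subgroup Γ
  normal : ∀ n, (N n).Normal
  fin : ∀ n, (N n).FiniteIndex
  anti : ∀ n m, n ≤ m → N m ≤ N n
  top : N 0 = ⊤
  sep : ∀ g, (∀ n, g ∈ N n) → g = 1
  A : Set Γ
  fin_diff : ∀ g, (A \ tr g A).Finite
  two : ∀ F : Set Γ, F.Finite → F ⊆ A → ∃ t, tr t A = A \ F ∨ tr t (A \ {1}) = A \ F
  ne : ∀ g, tr g A ≠ A \ {1}
  sub : ∃ t, tr t A ⊆ A \ {1}

abbrev FG : Type := FreeGroup ℕ

theorem resid (w : FG) (hw : w ≠ 1) :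
    ∃ H : Subgroup FG, H.Normal ∧ H.FiniteIndex ∧ w ∉ H := by
  classical
  obtain ⟨l, rfl⟩ : ∃ l, FreeGroup.mk l = w := ⟨_, FreeGroup.mk_toWord⟩
  let B : Set FG := FreeGroup.mk '' {l' | l' <:+ l}
  have hB : B.Finite := by
    refine Set.Finite.image _ ((l.tails.toFinset.finite_toSet).subset fun l' h => ?_)
    simpa using h
  have : Finite B := hB
  have ex : ∀ i : ℕ, ∃ σ : Equiv.Perm B, ∀ x y : B, y.1 = FreeGroup.of i * x.1 → σ x = y := by
    intro i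
    obtain ⟨σ, hσ⟩ := Equiv.Perm.exists_extending_pair
      (α := {x : B // FreeGroup.of i * x.1 ∈ B}) (β := B) (fun x => x.1)
      (fun x => ⟨_, x.2⟩) Subtype.val_injective (fun x y h => by
        have := congrArg Subtype.val h
        exact Subtype.ext (Subtype.ext (mul_left_cancel this)))
    refine ⟨σ, fun x y h => ?_⟩
    have := hσ ⟨x, h ▸ y.2⟩
    rw [this]
    exact Subtype.ext h.symm
  choose σ hσ using ex
  let ψ : FG →* Equiv.Perm B := FreeGroup.lift σ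
  let o : B := ⟨1, [], List.nil_suffix, rfl⟩
  have key : ∀ l', l' <:+ l → (ψ (FreeGroup.mk l') o).1 = FreeGroup.mk l' := by
    intro l'
    induction l' with
    | nil => intro _; change (ψ 1 o).1 = 1; rw [map_one]; rfl
    | cons a l' ih =>
      intro h
      have h' : l' <:+ l := (List.suffix_cons a l').trans h
      have e : FreeGroup.mk (a :: l') = FreeGroup.mk [a] * FreeGroup.mk l' := rfl
      have e2 : ψ (FreeGroup.mk l') o = ⟨_, l', h', rfl⟩ := Subtype.ext (ih h')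
      rw [e, map_mul, Equiv.Perm.mul_apply, e2]
      obtain ⟨i, b⟩ := a
      cases b
      · have e3 : (FreeGroup.mk [(i, false)] : FG) = (FreeGroup.of i)⁻¹ := rfl
        have e4 : σ i ⟨_, (i, false) :: l', h, rfl⟩ = ⟨_, l', h', rfl⟩ :=
          hσ i _ _ (by simp only []; rw [e, e3, mul_inv_cancel_left])
        rw [e3, map_inv, FreeGroup.lift_apply_of, ← e4]
        simp only [Equiv.Perm.coe_inv, Equiv.symm_apply_apply]
        rw [e, e3]
      · have e3 : (FreeGroup.mk [(i, true)] : FG) = FreeGroup.of i := rfl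
        rw [e3, FreeGroup.lift_apply_of, hσ i _ ⟨_, (i, true) :: l', h, rfl⟩ (by rw [← e3]; exact e)]
        exact e
  refine ⟨ψ.ker, inferInstance, inferInstance, fun h => hw ?_⟩
  rw [← key l (List.suffix_refl l), MonoidHom.mem_ker.1 h]
  rfl

theorem chain : ∃ N : ℕ → Subgroup FG, (∀ n, (N n).Normal) ∧ (∀ n, (N n).FiniteIndex) ∧
    (∀ n m, n ≤ m → N m ≤ N n) ∧ N 0 = ⊤ ∧ ∀ g, (∀ n, g ∈ N n) → g = 1 := by
  have ex : ∀ w : FG, ∃ H : Subgroup FG, H.Normal ∧ H.FiniteIndex ∧ (w ∈ H → w = 1) := by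
    intro w
    by_cases hw : w = 1
    · exact ⟨⊤, inferInstance, inferInstance, fun _ => hw⟩
    · obtain ⟨H, h1, h2, h3⟩ := resid w hw
      exact ⟨H, h1, h2, fun h => absurd h h3⟩
  choose H h1 h2 h3 using ex
  obtain ⟨e, he⟩ := exists_surjective_nat FG
  refine ⟨fun n => ⨅ i ∈ Finset.range n, H (e i), fun n => ⟨fun x hx g => ?_⟩,
    fun n => Subgroup.finiteIndex_iInf' _ fun i _ => h2 _, fun n m h x hx => ?_, by simp,
    fun g hg => ?_⟩
  · simp only [Subgroup.mem_iInf] at hx ⊢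
    exact fun i hi => (h1 _).conj_mem x (hx i hi) g
  · simp only [Subgroup.mem_iInf, Finset.mem_range] at hx ⊢
    exact fun i hi => hx i (by omega)
  · obtain ⟨i, rfl⟩ := he g
    have := hg (i + 1)
    simp only [Subgroup.mem_iInf, Finset.mem_range] at this
    exact h3 _ (this i (by omega))

open scoped symmDiff Pointwise in
theorem cocycle : ∃ c : FG → Finset FG, (∀ g, Even (c g).card) ∧
    (∀ g h x, x ∈ c (g * h) ↔ ¬ (g⁻¹ * x ∈ c h ↔ x ∈ c g)) ∧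
    ∀ F : Finset FG, ∃ t, t ≠ 1 ∧ (c t = F ∨ ∀ x, x ∈ c t ↔ ¬ (x ∈ F ↔ x = t)) := by
  classical
  obtain ⟨e, he⟩ := exists_surjective_nat (Finset FG)
  let c0 : ℕ → Finset FG := fun i =>
    if Even (e i).card then e i else e i ∆ {FreeGroup.of i}
  have par : ∀ X Y : Finset FG, Even (X ∆ Y).card ↔ (Even X.card ↔ Even Y.card) := by
    intro X Y
    have h1 := Finset.card_sdiff_add_card_inter X Y
    have h2 := Finset.card_sdiff_add_card_inter Y X
    have h3 : (X ∆ Y).card = (X \ Y).card + (Y \ X).card := by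
      rw [symmDiff_def, Finset.sup_eq_union, Finset.card_union_of_disjoint disjoint_sdiff_sdiff]
    rw [Finset.inter_comm] at h2
    simp only [Nat.even_iff]
    omega
  have z1 : ∀ X : Finset FG, X ∆ ∅ = X := fun X => symmDiff_bot X
  have z2 : ∀ X : Finset FG, ∅ ∆ X = X := fun X => bot_symmDiff X
  let σ : ℕ → Equiv.Perm (Finset FG) := fun i =>
    (MulAction.toPerm (FreeGroup.of i : FG)).trans
      (Function.Involutive.toPerm (fun X => X ∆ c0 i) (fun X => symmDiff_symmDiff_cancel_right _ _))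
  let ρ : FG →* Equiv.Perm (Finset FG) := FreeGroup.lift σ
  have key : ∀ g, (∀ X, ρ g X = (g • X) ∆ ρ g ∅) ∧ Even (ρ g ∅).card := by
    have mul : ∀ g h, ((∀ X, ρ g X = (g • X) ∆ ρ g ∅) ∧ Even (ρ g ∅).card) →
        ((∀ X, ρ h X = (h • X) ∆ ρ h ∅) ∧ Even (ρ h ∅).card) →
        ((∀ X, ρ (g * h) X = ((g * h) • X) ∆ ρ (g * h) ∅) ∧ Even (ρ (g * h) ∅).card) := by
      intro g h hg hh
      constructor
      · intro X
        rw [map_mul, Equiv.Perm.mul_apply, Equiv.Perm.mul_apply, hh.1 X, hg.1, hg.1 (ρ h ∅),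
          Finset.smul_finset_symmDiff, symmDiff_assoc, mul_smul]
      · rw [map_mul, Equiv.Perm.mul_apply, hg.1, par, Finset.card_smul_finset]
        exact iff_of_true hh.2 hg.2
    intro g
    induction g using FreeGroup.induction_on with
    | C1 => simp [z1]
    | of i =>
      have e1 : ∀ X, ρ (FreeGroup.of i) X = ((FreeGroup.of i : FG) • X) ∆ c0 i := fun X => by
        simp [ρ, σ]
      have e2 : ρ (FreeGroup.of i) ∅ = c0 i := by rw [e1]; simp
      refine ⟨fun X => by rw [e2, e1], ?_⟩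
      rw [e2]
      simp only [c0]
      split_ifs with h
      · exact h
      · rw [par]; simp [h]
    | inv_of i ih =>
      set t : FG := FreeGroup.of i
      have e1 : ∀ X, ρ t⁻¹ X = t⁻¹ • (X ∆ ρ t ∅) := fun X => by
        rw [map_inv, Equiv.Perm.inv_eq_iff_eq, ih.1, smul_inv_smul, symmDiff_symmDiff_cancel_right]
      refine ⟨fun X => ?_, ?_⟩
      · rw [e1, e1 ∅, Finset.smul_finset_symmDiff, z2]
      · rw [e1, Finset.card_smul_finset, z2]; exact ih.2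
    | mul g h hg hh => exact mul g h hg hh
  refine ⟨fun g => ρ g ∅, fun g => (key g).2, fun g h x => ?_, fun F => ?_⟩
  · beta_reduce
    rw [map_mul, Equiv.Perm.mul_apply, (key g).1, Finset.mem_symmDiff,
      ← Finset.inv_smul_mem_iff, smul_eq_mul]
    tauto
  · obtain ⟨i, rfl⟩ := he F
    refine ⟨FreeGroup.of i, FreeGroup.of_ne_one i, ?_⟩
    have e2 : ρ (FreeGroup.of i) ∅ = c0 i := by simp [ρ, σ]
    beta_reduce
    rw [e2]
    simp only [c0]
    split_ifs with h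
    · exact Or.inl rfl
    · right
      intro x
      rw [Finset.mem_symmDiff, Finset.mem_singleton]
      tauto

theorem data_exists : Nonempty (Data FG) := by
  classical
  obtain ⟨N, n1, n2, n3, n4, n5⟩ := chain
  obtain ⟨c, c1, c2, c3⟩ := cocycle
  have c0 : ∀ x, x ∉ c 1 := fun x h => by
    have := c2 1 1 x
    simp [h] at this
  have k : ∀ g x, x ∈ tr g {g | g ∉ c g} ↔ ¬ (x ∉ c x ↔ x ∈ c g) := fun g x => by
    have := c2 g (g⁻¹ * x) x
    rw [mul_inv_cancel_left] at this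
    simp only [tr, mem_ofPred_eq]
    tauto
  have two : ∀ F : Finset FG, (∀ x ∈ F, x ∉ c x) → ∃ t, (c t = F ∧
      tr t {g | g ∉ c g} = {g | g ∉ c g} \ F) ∨ (Odd F.card ∧
      tr t ({g | g ∉ c g} \ {1}) = {g | g ∉ c g} \ F) := by
    intro F hF
    obtain ⟨t, -, h | h⟩ := c3 F
    · refine ⟨t, Or.inl ⟨h, Set.ext fun x => ?_⟩⟩
      rw [k, h]
      have := hF x
      simp only [mem_sdiff, mem_ofPred_eq, Finset.mem_coe]
      tauto
    · refine ⟨t, Or.inr ⟨?_, Set.ext fun x => ?_⟩⟩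
      · have h1 := c1 t
        by_cases ht : t ∈ F
        · have : c t = F.erase t := by
            ext x; rw [h, Finset.mem_erase]; by_cases hx : x = t <;> simp [hx, ht]
          rw [this, Finset.card_erase_of_mem ht] at h1
          have := Finset.card_pos.2 ⟨t, ht⟩
          rw [Nat.odd_iff]; rw [Nat.even_iff] at h1; omega
        · have : c t = insert t F := by
            ext x; rw [h, Finset.mem_insert]; by_cases hx : x = t <;> simp [hx, ht]
          rw [this, Finset.card_insert_of_notMem ht] at h1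
          rw [Nat.odd_iff]; rw [Nat.even_iff] at h1; omega
      · have h1 := k t x
        have h2 := k t t
        have h3 := hF x
        have h4 := h x
        have h5 := c0 1
        have h6 : t⁻¹ * x = 1 ↔ x = t := by rw [inv_mul_eq_one, eq_comm]
        simp only [tr, mem_sdiff, mem_ofPred_eq, Finset.mem_coe, mem_singleton_iff, h6,
          inv_mul_cancel] at h1 h2 ⊢
        by_cases hx : x = t
        · subst hx; tauto
        · tauto
  refine ⟨⟨N, n1, n2, n3, n4, n5, {g | g ∉ c g}, fun g => (c g).finite_toSet.subset fun x hx => ?_,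
    fun F hF hA => ?_, fun g hg => ?_, ?_⟩⟩
  · have := k g x
    have h1 := hx.1
    have h2 := hx.2
    simp only [mem_ofPred_eq, Finset.mem_coe] at h1 ⊢
    tauto
  · obtain ⟨t, h⟩ := two hF.toFinset fun x hx => hA (hF.mem_toFinset.1 hx)
    rw [hF.coe_toFinset] at h
    exact ⟨t, h.imp (·.2) (·.2)⟩
  · have : c g = {1} := by
      ext x
      have h1 := k g x
      have h2 := c0 1
      rw [hg] at h1
      simp only [mem_sdiff, mem_ofPred_eq, mem_singleton_iff, Finset.mem_singleton] at h1 ⊢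
      by_cases hx : x = 1
      · subst hx; tauto
      · tauto
    have h1 := c1 g
    rw [this] at h1
    simp at h1
  · obtain ⟨b, hb, hb'⟩ : ∃ b, b ≠ 1 ∧ b ∉ c b := by
      obtain ⟨t, ht, h | h⟩ := c3 ∅
      · exact ⟨t, ht, by simp [h]⟩
      · have : c t = {t} := by ext x; simp [h]
        have h1 := c1 t
        rw [this] at h1
        simp at h1
    obtain ⟨t, h | h⟩ := two {1, b} (by simp [c0 1, hb'])
    · exact ⟨t, by rw [h.2]; exact sdiff_subset_sdiff_right (by simp)⟩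
    · rw [Finset.card_pair hb.symm] at h
      exact absurd h.1 (by decide)

end Pool.Agent.MP_2a6d4e_co.h30

end MrgPart0

-- ======== part 1: formerly Pool.Agent.MP_2a6d4e_co.h30.Word
section MrgPart1

/-! The graph of points and ruler paths; induced subgraphs with long runs. -/

namespace Pool.Agent.MP_2a6d4e_co.h30

open Set Function

theorem cong {Γ : Type} [Group Γ] {H : Subgroup Γ} (hH : H.Normal) {y w : Γ} (h : y⁻¹ * w ∈ H)
    (t x : Γ) : (y * t)⁻¹ * x ∈ H ↔ (w * t)⁻¹ * x ∈ H := by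
  have h1 := hH.conj_mem' _ h t
  rw [show (y * t)⁻¹ * x = t⁻¹ * (y⁻¹ * w) * t * ((w * t)⁻¹ * x) by group]
  exact H.mul_mem_cancel_left h1

namespace Data

variable {Γ : Type} [Group Γ] (D : Data Γ)

instance (n : ℕ) : Finite (Γ ⧸ D.N n) := by
  have := D.fin n
  infer_instance

noncomputable def rr (n : ℕ) : ℕ := Nat.card (Γ ⧸ D.N n)

theorem beta_ex (n : ℕ) : ∃ β : ℕ → Γ, β 0 = 1 ∧
    ∀ x, ∃ d, 1 ≤ d ∧ d ≤ D.rr n ∧ (β d)⁻¹ * x ∈ D.N n := by
  let e := Finite.equivFin (Γ ⧸ D.N n)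
  refine ⟨fun d => if h : 1 ≤ d ∧ d - 1 < D.rr n then (e.symm ⟨d - 1, h.2⟩).out else 1, by simp,
    fun x => ⟨e x + 1, by omega, (e x).2, ?_⟩⟩
  beta_reduce
  rw [dif_pos ⟨by omega, (e x).2⟩, ← QuotientGroup.eq]
  simp

noncomputable def β (n : ℕ) : ℕ → Γ := (D.beta_ex n).choose

noncomputable def L : ℕ → ℕ
  | 0 => 1
  | n + 1 => (D.rr n + 1) * L n

noncomputable def T : ℕ → ℕ → Γ
  | 0, _ => 1
  | n + 1, i => D.β n (i / D.L n) * T n (i % D.L n)

noncomputable def J : ℕ → ℕ → ℕ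
  | 0, _ => 0
  | n + 1, i => if i % D.L n = 0 then n else J n (i % D.L n)

abbrev Pa : Type := Σ n, Γ ⧸ D.N n

abbrev VP : Type := Γ ⊕ D.Pa × ℕ

def blk (π : D.Pa) (i : ℕ) (x : Γ) : Prop := (π.2.out * D.T π.1 i)⁻¹ * x ∈ D.N (D.J π.1 i)

def adj : D.VP → D.VP → Prop
  | .inl _, .inl _ => False
  | .inl x, .inr p => D.blk p.1 p.2 x
  | .inr p, .inl x => D.blk p.1 p.2 x
  | .inr p, .inr q => p.1 = q.1 ∧ (q.2 = p.2 + 1 ∨ p.2 = q.2 + 1)

theorem adj_comm (v w : D.VP) : D.adj v w ↔ D.adj w v := by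
  rcases v with x | p <;> rcases w with y | q <;> simp only [adj]
  simp only [eq_comm (a := p.1), or_comm]

open Classical in
noncomputable def P : Gr D.VP where
  c v w := decide (D.adj v w)
  symm v w := decide_eq_decide.2 (D.adj_comm v w)
  irr v := by rcases v with x | p <;> simp [adj]

def QP : Set D.VP := {v | ∀ π i, v = .inr (π, i) → 1 ≤ i ∧ i < D.L π.1}

theorem c_iff (v w : D.VP) : D.P.c v w = true ↔ D.adj v w := by simp [P]

theorem c_eq {v w v' w' : D.VP} : D.P.c v w = D.P.c v' w' ↔ (D.adj v w ↔ D.adj v' w') := by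
  simp [P]

theorem rr_pos (n : ℕ) : 0 < D.rr n := Nat.card_pos

theorem L_pos (n : ℕ) : 0 < D.L n := by
  induction n with
  | zero => exact Nat.one_pos
  | succ n ih => exact Nat.mul_pos (Nat.succ_pos _) ih

theorem L_dvd {n m : ℕ} (h : n ≤ m) : D.L n ∣ D.L m := by
  induction h with
  | refl => exact dvd_rfl
  | step _ ih => exact ih.mul_left _

theorem L_mono : StrictMono D.L := strictMono_nat_of_lt_succ fun n => by
  have := D.L_pos n
  have := D.rr_pos n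
  simp only [L]
  nlinarith

theorem L_one : D.L 1 = 2 := by
  have : D.rr 0 = 1 := by rw [rr, D.top]; exact Subgroup.index_top
  simp [L, this]

theorem T_zero (n : ℕ) : D.T n 0 = 1 := by
  induction n with
  | zero => rfl
  | succ n ih => simp [T, ih, β, (D.beta_ex n).choose_spec.1]

theorem J_le (n i : ℕ) : D.J n i ≤ n := by
  induction n generalizing i with
  | zero => rfl
  | succ n ih =>
    simp only [J]
    split_ifs
    exacts [n.le_succ, (ih _).trans n.le_succ]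

theorem J_dvd {n i : ℕ} (h1 : 1 ≤ i) (h2 : i < D.L n) : D.L (D.J n i) ∣ i := by
  induction n generalizing i with
  | zero => simp [L] at h2; omega
  | succ n ih =>
    simp only [J]
    split_ifs with h
    · exact Nat.dvd_of_mod_eq_zero h
    · exact (Nat.dvd_mod_iff (D.L_dvd (D.J_le _ _))).1
        (ih (Nat.pos_of_ne_zero h) (Nat.mod_lt _ (D.L_pos n)))

theorem shift {n n' s i : ℕ} (h : n ≤ n') (hs : D.L n ∣ s) (hi : i < D.L n)
    (hl : s + i < D.L n') :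
    D.T n' (s + i) = D.T n' s * D.T n i ∧ (1 ≤ i → D.J n' (s + i) = D.J n i) := by
  induction h generalizing s with
  | refl =>
    obtain rfl : s = 0 := Nat.eq_zero_of_dvd_of_lt hs (by omega)
    simp [T_zero]
  | @step m hm ih =>
    have h1 : D.L n ∣ s % D.L m := (Nat.dvd_mod_iff (D.L_dvd hm)).2 hs
    have h2 : s % D.L m + i < D.L m := by
      obtain ⟨a, ha⟩ := h1
      obtain ⟨b, hb⟩ := D.L_dvd hm
      have h3 := Nat.mod_lt s (D.L_pos m)
      rw [ha, hb] at h3 ⊢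
      have : a < b := Nat.lt_of_mul_lt_mul_left h3
      nlinarith
    have h3 : (s + i) % D.L m = s % D.L m + i := by
      rw [← Nat.mod_add_mod, Nat.mod_eq_of_lt h2]
    have h4 : (s + i) / D.L m = s / D.L m := by
      have e1 := Nat.div_add_mod (s + i) (D.L m)
      have e2 := Nat.div_add_mod s (D.L m)
      exact Nat.eq_of_mul_eq_mul_left (D.L_pos m) (by omega)
    obtain ⟨k1, k2⟩ := ih h1 h2
    simp only [T, J, h3, h4, k1, mul_assoc, true_and]
    intro h5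
    rw [if_neg (by omega), k2 h5]

theorem T_mul (n d : ℕ) : D.T (n + 1) (d * D.L n) = D.β n d ∧ D.J (n + 1) (d * D.L n) = n := by
  simp [T, J, T_zero, Nat.mul_div_cancel _ (D.L_pos n)]

theorem universal (π π' : D.Pa) (a : ℕ) (h : a + 2 * D.L (π.1 + 1) ≤ D.L π'.1) :
    ∃ s, a ≤ s ∧ s + D.L π.1 ≤ a + 2 * D.L (π.1 + 1) ∧
      ∀ i, 1 ≤ i → i < D.L π.1 → ∀ x, D.blk π' (s + i) x ↔ D.blk π i x := by
  obtain ⟨n, w⟩ := π
  obtain ⟨n', w'⟩ := π'
  simp only at h ⊢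
  have p1 := D.L_pos (n + 1)
  have hn : n + 1 ≤ n' := D.L_mono.le_iff_le.1 (by omega)
  obtain ⟨s0, s1, s2, s3⟩ : ∃ s0, a ≤ s0 ∧ s0 ≤ a + D.L (n + 1) ∧ D.L (n + 1) ∣ s0 := by
    have e1 := Nat.div_add_mod a (D.L (n + 1))
    have e2 := Nat.mod_lt a p1
    exact ⟨D.L (n + 1) * (a / D.L (n + 1) + 1), by rw [mul_add]; omega, by rw [mul_add]; omega,
      dvd_mul_right _ _⟩
  obtain ⟨d, d1, d2, d3⟩ := (D.beta_ex n).choose_spec.2 ((w'.out * D.T n' s0)⁻¹ * w.out)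
  have d4 : d * D.L n + D.L n ≤ D.L (n + 1) := by simp only [L]; nlinarith
  refine ⟨s0 + d * D.L n, by omega, by omega, fun i i1 i2 x => ?_⟩
  obtain ⟨k1, k2⟩ := D.shift hn s3 (i := d * D.L n + i) (by omega) (by omega)
  obtain ⟨k3, k4⟩ := D.shift (n' := n + 1) n.le_succ (dvd_mul_left _ d) i2 (by omega)
  simp only [blk]
  rw [add_assoc, k1, k2 (by omega), k3, k4 i1, (D.T_mul n d).1, ← mul_assoc, ← mul_assoc]
  refine cong (D.normal _) (D.anti _ _ (D.J_le _ _) ?_) _ _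
  rwa [mul_inv_rev, mul_assoc]

def ix : D.VP → ℕ
  | .inl _ => 0
  | .inr p => p.2

theorem seg_le {π : ℕ → D.Pa} (hπ : Injective π) {a l l' : ℕ → ℕ} {A B : Set D.VP}
    (hA : ∀ k i, a k ≤ i → i < a k + l k → .inr (π k, i) ∈ A)
    (hB : ∀ p, .inr p ∈ B → ∃ k, p.1 = π k ∧ a k ≤ p.2 ∧ p.2 < a k + l' k)
    {ψ : D.VP → D.VP} (hψ : D.P.Emb A B ψ) (hn : ∀ p, .inr p ∈ A → ∃ q, ψ (.inr p) = .inr q)
    {k k' i i' : ℕ} (h1 : a k ≤ i) (h2 : i < a k + l k) (h : ψ (.inr (π k, i)) = .inr (π k', i')) :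
    l k ≤ l' k' := by
  obtain ⟨q, hq⟩ := hn _ (hA k (a k) le_rfl (by omega))
  have key : ∀ j, j < l k → ∃ j', ψ (.inr (π k, a k + j)) = .inr (q.1, j') := by
    intro j
    induction j with
    | zero => exact fun _ => ⟨q.2, hq⟩
    | succ j ih =>
      intro hj
      obtain ⟨j', hj'⟩ := ih (by omega)
      have m1 := hA k (a k + j) (by omega) (by omega)
      have m2 := hA k (a k + (j + 1)) (by omega) (by omega)
      obtain ⟨q', hq'⟩ := hn _ m2
      have := D.c_eq.1 (hψ.c m1 m2)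
      rw [hj', hq'] at this
      exact ⟨q'.2, by rw [hq', show q.1 = q'.1 from (this.2 ⟨rfl, Or.inl rfl⟩).1]⟩
  have e : q.1 = π k' := by
    obtain ⟨j', hj'⟩ := key (i - a k) (by omega)
    rw [show a k + (i - a k) = i by omega, h] at hj'
    exact (Prod.mk.inj (Sum.inr.inj hj')).1.symm
  have := Finset.card_le_card_of_injOn (s := Finset.range (l k))
    (t := Finset.Ico (a k') (a k' + l' k')) (fun j => D.ix (ψ (.inr (π k, a k + j))))
    (fun j hj => ?_) fun j hj j' hj' e' => ?_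
  · simpa using this
  · have hj : j < l k := by simpa using hj
    obtain ⟨j', hj'⟩ := key j hj
    obtain ⟨k'', p1, p2⟩ := hB _ (hj' ▸ hψ.maps (hA k (a k + j) (by omega) (by omega)))
    obtain rfl : k'' = k' := hπ (p1.symm.trans e)
    simpa [hj', ix] using p2
  · have hj : j < l k := by simpa using hj
    have hj' : j' < l k := by simpa using hj'
    obtain ⟨i1, e1⟩ := key j hj
    obtain ⟨i2, e2⟩ := key j' hj'
    simp only [e1, e2, ix] at e'
    have := hψ.inj (hA k (a k + j) (by omega) (by omega)) (hA k (a k + j') (by omega) (by omega))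
      (by rw [e1, e2, e'])
    simpa using this

theorem caseA {R : Set D.VP} (hR : R ⊆ D.QP)
    (h : ∀ t, ∃ π a, ∀ j < t, .inr (π, a + j) ∈ R) : D.P.Cont R := by
  classical
  obtain ⟨enc, henc⟩ := exists_injective_nat D.Pa
  let e : ℕ → ℕ := extend enc (fun π => D.L (π.1 + 1)) 0
  obtain ⟨s, -, -, hs⟩ := seq_ex (α := D.Pa × ℕ) (fun _ => True) (fun k p q => p.1.1 < q.1.1 ∧
      ∀ j < 2 * (e (k / 2) + 2) + k, .inr (q.1, q.2 + j) ∈ R) (⟨0, (1 : Γ)⟩, 0) trivial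
    fun k p _ => by
      obtain ⟨π, a, ha⟩ := h (2 * (e (k / 2) + 2) + k + D.L p.1.1)
      have h1 := (hR (ha (D.L p.1.1) (by omega)) _ _ rfl).2
      exact ⟨(π, a), trivial, D.L_mono.lt_iff_lt.1 (by simp only; omega), fun j hj => ha j (by omega)⟩
  let π : ℕ → D.Pa := fun k => (s (k + 1)).1
  let a : ℕ → ℕ := fun k => (s (k + 1)).2
  have hπ : Injective π := fun i j hij =>
    (strictMono_nat_of_lt_succ fun k => (hs (k + 1)).1).injective (congrArg Sigma.fst hij)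
  have run : ∀ k i, a k ≤ i → i < a k + (2 * (e (k / 2) + 2) + k) → .inr (π k, i) ∈ R := by
    intro k i h1 h2
    have := (hs k).2 (i - a k) (by omega)
    rwa [show (s (k + 1)).2 + (i - a k) = i by simp only [a] at h1 ⊢; omega] at this
  let l : Set ℕ → ℕ → ℕ := fun S k =>
    if k % 2 = 0 then 2 * (e (k / 2) + 2) else if k / 2 ∈ S then k else 0
  let F : Set ℕ → Set D.VP := fun S => {v | (∃ x, v = .inl x ∧ v ∈ R) ∨
    ∃ k i, v = .inr (π k, i) ∧ a k ≤ i ∧ i < a k + l S k}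
  have F1 : ∀ S k i, a k ≤ i → i < a k + l S k → .inr (π k, i) ∈ F S := fun S k i h1 h2 =>
    Or.inr ⟨k, i, rfl, h1, h2⟩
  have F2 : ∀ S p, .inr p ∈ F S → ∃ k, p.1 = π k ∧ a k ≤ p.2 ∧ p.2 < a k + l S k := by
    rintro S p (⟨x, h, -⟩ | ⟨k, i, h, h1⟩)
    · cases h
    · cases h; exact ⟨k, rfl, h1⟩
  have l0 : ∀ S k, l S (2 * k) = 2 * (e k + 2) := fun S k => by simp [l]
  have un : ∀ ϖ : D.Pa, ∃ s, a (2 * enc ϖ) ≤ s ∧ s + D.L ϖ.1 ≤ a (2 * enc ϖ) + 2 * e (enc ϖ) ∧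
      ∀ i, 1 ≤ i → i < D.L ϖ.1 → ∀ x, D.blk (π (2 * enc ϖ)) (s + i) x ↔ D.blk ϖ i x := by
    intro ϖ
    have e1 : e (enc ϖ) = D.L (ϖ.1 + 1) := henc.extend_apply _ _ _
    have := (hR (run (2 * enc ϖ) (a (2 * enc ϖ) + 2 * e (enc ϖ)) (by omega)
      (by rw [Nat.mul_div_cancel_left _ two_pos]; omega)) _ _ rfl).2
    rw [e1] at this ⊢
    exact D.universal ϖ _ _ this.le
  choose sh u1 u2 u3 using un
  obtain ⟨i0, i1, i2, i3⟩ : ∃ i0, a 0 ≤ i0 ∧ i0 ≤ a 0 + 1 ∧ i0 % 2 = 0 :=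
    ⟨2 * ((a 0 + 1) / 2), by omega, by omega, by omega⟩
  have mem : ∀ S j, j ≤ 2 → .inr (π 0, i0 + j) ∈ F S := fun S j hj =>
    F1 S 0 _ (by omega) (by have := l0 S 0; simp only [mul_zero] at this; omega)
  have yall : ∀ x, D.blk (π 0) (i0 + 1) x := by
    intro x
    have h1 := hR (run 0 (i0 + 1) (by omega) (by omega)) _ _ rfl
    have h2 := D.J_dvd h1.1 h1.2
    have h3 : D.J (π 0).1 (i0 + 1) = 0 := by
      by_contra h4
      have := (D.L_dvd (Nat.pos_of_ne_zero h4)).trans h2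
      rw [L_one] at this
      omega
    simp [blk, h3, D.top]
  have nn : ∀ S S' ψ, D.P.Emb (F S) (F S') ψ → (∀ j ≤ 2, ψ (.inr (π 0, i0 + j)) =
      .inr (π 0, i0 + j)) → ∀ p, .inr p ∈ F S → ∃ q, ψ (.inr p) = .inr q := by
    intro S S' ψ hψ hf p hp
    rcases hq : ψ (.inr p) with x | q
    swap
    · exact ⟨q, rfl⟩
    have := D.c_eq.1 (hψ.c hp (mem S 1 (by omega)))
    rw [hq, hf 1 (by omega)] at this
    obtain ⟨ϖ, i⟩ := p
    obtain ⟨rfl, h1 | h1⟩ := this.1 (yall x)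
    · rw [show i = i0 + 0 by simp only at h1; omega, hf 0 (by omega)] at hq; cases hq
    · rw [show i = i0 + 2 by simp only at h1; omega, hf 2 (by omega)] at hq; cases hq
  refine Gr.cont_of F [.inr (π 0, i0 + 0), .inr (π 0, i0 + 1), .inr (π 0, i0 + 2)]
    (fun S => ⟨⟨Sum.elim .inl fun p => .inr (π (2 * enc p.1), sh p.1 + p.2), Gr.emb_of_ne ?_ ?_⟩,
      Gr.le_of_sub ?_⟩) (fun S v hv => ?_) fun S S' c ψ hψ hL _ h1 h2 => h2 ?_
  · rintro (x | ⟨ϖ, i⟩) hv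
    · exact Or.inl ⟨x, rfl, hv⟩
    · have h1 := hR hv _ _ rfl
      have h2 := u1 ϖ
      have h3 := u2 ϖ
      exact F1 S _ _ (by simp only; omega) (by rw [l0]; simp only; omega)
  · rintro (x | ⟨ϖ, i⟩) hv (y | ⟨ϖ', j⟩) hw hne <;> simp only [Sum.elim_inl, Sum.elim_inr]
    · exact ⟨hne, trivial⟩
    · exact ⟨by simp, D.c_eq.2 (u3 ϖ' j (hR hw _ _ rfl).1 (hR hw _ _ rfl).2 x)⟩
    · exact ⟨by simp, D.c_eq.2 (u3 ϖ i (hR hv _ _ rfl).1 (hR hv _ _ rfl).2 y)⟩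
    · have k : π (2 * enc ϖ) = π (2 * enc ϖ') ↔ ϖ = ϖ' :=
        ⟨fun h => henc (by have := hπ h; omega), fun h => by rw [h]⟩
      refine ⟨fun h => hne ?_, D.c_eq.2 ?_⟩
      · obtain ⟨h1, h2⟩ := Prod.mk.inj (Sum.inr.inj h)
        obtain rfl := k.1 h1
        rw [show i = j by omega]
      · simp only [adj, k]
        refine and_congr_right ?_
        rintro rfl
        omega
  · rintro _ (⟨x, -, h⟩ | ⟨k, i, rfl, h1, h2⟩)
    · exact h
    · refine run k i h1 (h2.trans_le ?_)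
      simp only [l]
      split_ifs <;> omega
  · simp only [List.mem_cons, List.not_mem_nil, or_false] at hv
    rcases hv with rfl | rfl | rfl <;> exact mem S _ (by omega)
  · have hf : ∀ j ≤ 2, ψ (.inr (π 0, i0 + j)) = .inr (π 0, i0 + j) := fun j hj =>
      hL _ (by interval_cases j <;> simp)
    obtain ⟨ψ', hψ', k1, -⟩ := hψ.inv
    have hf' : ∀ j ≤ 2, ψ' (.inr (π 0, i0 + j)) = .inr (π 0, i0 + j) := fun j hj => by
      conv_lhs => rw [← hf j hj]
      exact k1 _ (mem S j hj)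
    have l1 : l S (2 * c + 1) = 2 * c + 1 := by
      simp only [l]
      rw [if_neg (by omega), if_pos (by rwa [show (2 * c + 1) / 2 = c by omega])]
    have m1 := F1 S (2 * c + 1) _ le_rfl (by omega)
    obtain ⟨⟨ϖ, i⟩, hq⟩ := nn S S' ψ hψ.1 hf _ m1
    obtain ⟨k, rfl, p1, p2⟩ : ∃ k, ϖ = π k ∧ a k ≤ i ∧ i < a k + l S' k :=
      F2 S' _ (hq ▸ hψ.1.maps m1)
    have b1 := D.seg_le hπ (F1 S) (F2 S') hψ.1 (nn S S' ψ hψ.1 hf) le_rfl (by omega) hq
    have b2 := D.seg_le hπ (F1 S') (F2 S) hψ'.1 (nn S' S ψ' hψ'.1 hf') p1 p2 (hq ▸ k1 _ m1)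
    have b3 : l S' k = 2 * c + 1 := by omega
    simp only [l] at b3
    split_ifs at b3 with q1 q2
    · omega
    · rwa [show k / 2 = c by omega] at q2

end Data

end Pool.Agent.MP_2a6d4e_co.h30

end MrgPart1

-- ======== part 2: formerly Pool.Agent.MP_2a6d4e_co.h30.Short
section MrgPart2

/-! Induced subgraphs with short runs are coded by laminar systems. -/

namespace Pool.Agent.MP_2a6d4e_co.h30

open Set Function

namespace Data

variable {Γ : Type} [Group Γ] (D : Data Γ) (R : Set D.VP) (t : ℕ)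

def nd : D.VP → ℕ → D.VP
  | .inl x, _ => .inl x
  | .inr p, j => .inr (p.1, p.2 + j)

def ok : D.VP → ℕ → Prop
  | .inl _, j => j = 0
  | .inr p, j => ∀ i ≤ j, .inr (p.1, p.2 + i) ∈ R

def At : Type := {v : D.VP // v ∈ R ∧ ∀ π i, v = .inr (π, i + 1) → .inr (π, i) ∉ R}

open Classical in
noncomputable def hi (v : D.VP) : Fin (t + 1) :=
  if h : ∃ p : Fin (t + 1), D.ok R v p ∧ D.L t ∣ D.ix (D.nd v p) then h.choose else 0

noncomputable def base : D.VP → Γ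
  | .inl x => x
  | .inr p => p.1.2.out * D.T p.1.1 p.2

noncomputable def dep : D.VP → ℕ
  | .inl _ => 0
  | .inr p => D.J p.1.1 p.2

def kap : D.VP → Option (Γ ⧸ D.N t)
  | .inl x => some x
  | .inr _ => none

abbrev Lab : Type := Option (Γ ⧸ D.N t) × (Fin (t + 1) → Prop) × Fin (t + 1) ×
  (Fin (t + 1) → Γ ⧸ D.N t → Prop)

noncomputable def lam : Lam (D.At R) (D.Lab t) where
  lab a := (D.kap t a.1, fun p => D.ok R a.1 p, D.hi R t a.1,
    fun p κ => D.adj (D.nd a.1 p) (.inl κ.out))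
  pt a := ∃ x, a.1 = .inl x
  dg a n := Finite.equivFin (Γ ⧸ D.N (n + 1)) (D.base (D.nd a.1 (D.hi R t a.1)))
  dep a := D.dep (D.nd a.1 (D.hi R t a.1))
  r n := D.rr (n + 1)
  lab_pt := by
    rintro ⟨_, ha⟩ ⟨y | q, hb⟩ h ⟨x, rfl⟩
    · exact ⟨y, rfl⟩
    · cases (Prod.mk.inj h).1
  dg_lt a n := Fin.is_lt _
  sep := by
    rintro ⟨_, ha⟩ ⟨_, hb⟩ ⟨x, rfl⟩ ⟨y, rfl⟩ h
    have : x⁻¹ * y = 1 := D.sep _ fun n => D.anti _ _ n.le_succ (QuotientGroup.eq.1
      ((Finite.equivFin _).injective (Fin.ext (congrFun h n))))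
    exact Subtype.ext (congrArg Sum.inl (inv_mul_eq_one.1 this))

variable {D R t}

theorem ad_eq (a b : D.At R) (n : ℕ) : (D.lam R t).ad a n = (D.lam R t).ad b n ↔
    (D.base (D.nd a.1 (D.hi R t a.1)))⁻¹ * D.base (D.nd b.1 (D.hi R t b.1)) ∈ D.N n := by
  induction n with
  | zero => simp [Lam.ad, D.top]
  | succ n ih =>
    simp only [Lam.ad, List.cons.injEq, ih]
    simp only [lam, Fin.val_inj, EmbeddingLike.apply_eq_iff_eq, QuotientGroup.eq]
    exact ⟨fun h => h.1, fun h => ⟨h, D.anti _ _ n.le_succ h⟩⟩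

theorem m_iff (a b : D.At R) : (D.lam R t).M a b ↔ (∃ y, b.1 = .inl y) ∧
    D.adj (D.nd a.1 (D.hi R t a.1)) b.1 := by
  simp only [Lam.M, Lam.In, Lam.bl, Lam.length_ad, eq_comm (a := (D.lam R t).ad b _), ad_eq]
  obtain ⟨x | p, ha⟩ := a <;> obtain ⟨y | q, hb⟩ := b <;> simp [lam, nd, adj, base, dep, blk]

theorem ok_zero (a : D.At R) : D.ok R a.1 0 := by
  obtain ⟨x | p, ha⟩ := a
  · rfl
  · intro i hi
    obtain rfl : i = 0 := by omega
    exact ha.1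

theorem ok_mem (a : D.At R) {p : ℕ} (h : D.ok R a.1 p) : D.nd a.1 p ∈ R := by
  obtain ⟨x | q, ha⟩ := a
  exacts [ha.1, h p le_rfl]

theorem ok_hi (a : D.At R) : D.ok R a.1 (D.hi R t a.1) := by
  rw [hi]
  split_ifs with h
  exacts [h.choose_spec.1, ok_zero a]

theorem nd_inj {a b : D.At R} {p q : ℕ} (ha : D.ok R a.1 p) (hb : D.ok R b.1 q)
    (h : D.nd a.1 p = D.nd b.1 q) : a = b ∧ p = q := by
  obtain ⟨x | ⟨π, s⟩, a1⟩ := a <;> obtain ⟨y | ⟨π', s'⟩, b1⟩ := b <;>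
    simp only [nd, Sum.inl.injEq, Sum.inr.injEq, Prod.mk.injEq, reduceCtorEq] at h
  · exact ⟨Subtype.ext (congrArg Sum.inl h), (show p = 0 from ha).trans (show q = 0 from hb).symm⟩
  · obtain ⟨rfl, h⟩ := h
    obtain rfl : s = s' := by
      rcases lt_trichotomy s s' with h1 | h1 | h1
      · refine absurd ?_ (b1.2 π (s' - 1) (by rw [Nat.sub_add_cancel (by omega)]))
        have := ha (s' - 1 - s) (by omega)
        rwa [show s + (s' - 1 - s) = s' - 1 by omega] at this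
      · exact h1
      · refine absurd ?_ (a1.2 π (s - 1) (by rw [Nat.sub_add_cancel (by omega)]))
        have := hb (s - 1 - s') (by omega)
        rwa [show s' + (s - 1 - s') = s - 1 by omega] at this
    exact ⟨rfl, by omega⟩

theorem loc (h : ∀ π a, ∃ j < t, .inr (π, a + j) ∉ R) {v : D.VP} (hv : v ∈ R) :
    ∃ (a : D.At R) (p : Fin (t + 1)), D.ok R a.1 p ∧ D.nd a.1 p = v := by
  rcases v with x | ⟨π, i⟩
  · exact ⟨⟨.inl x, hv, by simp⟩, 0, rfl, rfl⟩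
  suffices ∃ (a : D.At R) (p : ℕ), D.ok R a.1 p ∧ D.nd a.1 p = .inr (π, i) by
    obtain ⟨⟨x | ⟨π', s⟩, a1⟩, p, h1, h2⟩ := this
    · cases h2
    · obtain ⟨j, h3, h4⟩ := h π' s
      exact ⟨⟨_, a1⟩, ⟨p, by by_contra h5; exact h4 (h1 j (by omega))⟩, h1, h2⟩
  induction i with
  | zero => exact ⟨⟨_, hv, by simp⟩, 0, ok_zero ⟨_, hv, by simp⟩, rfl⟩
  | succ i ih =>
    by_cases h1 : .inr (π, i) ∈ R
    · obtain ⟨⟨x | ⟨π', s⟩, a1⟩, p, h2, h3⟩ := ih h1
      · cases h3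
      · obtain ⟨rfl, rfl⟩ : π' = π ∧ s + p = i := by simpa [nd] using h3
        refine ⟨⟨_, a1⟩, p + 1, fun j hj => ?_, rfl⟩
        rcases Nat.lt_or_ge j (p + 1) with h4 | h4
        · exact h2 j (by omega)
        · rwa [show j = p + 1 by omega]
    · have : ∀ π' j, (.inr (π, i + 1) : D.VP) = .inr (π', j + 1) → .inr (π', j) ∉ R := by
        intro π' j e
        obtain ⟨rfl, rfl⟩ : π = π' ∧ i = j := by simpa using e
        exact h1
      exact ⟨⟨_, hv, this⟩, 0, ok_zero ⟨_, hv, this⟩, rfl⟩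

theorem node_adj {a b : D.At R} {p q : ℕ} (ha : D.ok R a.1 p) (hb : D.ok R b.1 q)
    (na : ¬ (D.lam R t).pt a) (nb : ¬ (D.lam R t).pt b) :
    D.adj (D.nd a.1 p) (D.nd b.1 q) ↔ a = b ∧ (q = p + 1 ∨ p = q + 1) := by
  have key : ∀ (a b : D.At R) p q π s s', a.1 = .inr (π, s) → b.1 = .inr (π, s') →
      D.ok R a.1 p → D.ok R b.1 q → s' + q = s + p + 1 → a = b ∧ q = p + 1 := by
    rintro ⟨_, a1⟩ ⟨_, b1⟩ p q π s s' rfl rfl ha hb h
    rcases q with _ | q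
    · exact absurd (ha p le_rfl) (b1.2 π (s + p) (by rw [← h]; rfl))
    · have := nd_inj (a := ⟨_, a1⟩) (b := ⟨_, b1⟩) ha (q := q) (fun i hi => hb i (by omega))
        (by simp only [nd]; rw [show s + p = s' + q by omega])
      exact ⟨this.1, by omega⟩
  obtain ⟨x | ⟨π, s⟩, a1⟩ := a
  · exact absurd ⟨x, rfl⟩ na
  obtain ⟨y | ⟨π', s'⟩, b1⟩ := b
  · exact absurd ⟨y, rfl⟩ nb
  constructor
  · rintro ⟨rfl, h | h⟩
    · exact (key _ _ p q _ s s' rfl rfl ha hb h).imp_right Or.inl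
    · exact (key _ _ q p _ s' s rfl rfl hb ha h).imp Eq.symm Or.inr
  · rintro ⟨h, h'⟩
    obtain ⟨rfl, rfl⟩ : π = π' ∧ s = s' := by simpa using congrArg Subtype.val h
    exact ⟨rfl, by simp only; omega⟩

theorem low_adj (hR : R ⊆ D.QP) {a : D.At R} {p : Fin (t + 1)} (ha : D.ok R a.1 p)
    (hp : p ≠ D.hi R t a.1) (x : Γ) :
    D.adj (D.nd a.1 p) (.inl x) ↔ D.adj (D.nd a.1 p) (.inl (x : Γ ⧸ D.N t).out) := by
  have hm := ok_mem a ha
  obtain ⟨y | ⟨π, s⟩, a1⟩ := a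
  · rfl
  have h1 := hR hm _ _ rfl
  have h2 : D.J π.1 (s + p) ≤ t := by
    by_contra h3
    have h4 : D.L t ∣ s + p := (D.L_dvd (not_le.1 h3).le).trans (D.J_dvd h1.1 h1.2)
    have h5 : ∃ p : Fin (t + 1), D.ok R (.inr (π, s)) p ∧ D.L t ∣ D.ix (D.nd (.inr (π, s)) p) :=
      ⟨p, ha, h4⟩
    have h6 : D.L t ∣ s + D.hi R t (.inr (π, s)) := by
      rw [hi, dif_pos h5]; exact h5.choose_spec.2
    have h7 : ∀ n, n < D.L n := fun n => by
      induction n with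
      | zero => exact D.L_pos 0
      | succ n ih => exact lt_of_le_of_lt ih (D.L_mono n.lt_succ_self)
    have h8 := Nat.eq_zero_of_dvd_of_lt (Nat.dvd_sub h4 h6) (by have := h7 t; omega)
    have h9 := Nat.eq_zero_of_dvd_of_lt (Nat.dvd_sub h6 h4) (by have := h7 t; omega)
    exact hp (Fin.ext (by simp only; omega))
  have h3 : x⁻¹ * (x : Γ ⧸ D.N t).out ∈ D.N (D.J π.1 (s + p)) :=
    D.anti _ _ h2 (QuotientGroup.eq.1 (by simp))
  simp only [nd, adj, blk]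
  rw [← Subgroup.mul_mem_cancel_right _ h3, mul_assoc, mul_inv_cancel_left]

theorem adj_nn {a b : D.At R} (h : (D.lam R t).pt a ↔ (D.lam R t).pt b) :
    ¬ (D.lam R t).Adj a b := not_or.2 ⟨fun m => m.1 (h.2 m.2.1), fun m => m.1 (h.1 m.2.1)⟩

theorem adj_np {a b : D.At R} {x : Γ} (hb : b.1 = .inl x) :
    (D.lam R t).Adj a b ↔ D.adj (D.nd a.1 (D.hi R t a.1)) (.inl x) := by
  rw [Lam.Adj, m_iff a b, hb, or_iff_left fun m => m.1 ⟨x, hb⟩]
  simp

theorem adj_lab (hR : R ⊆ D.QP) {a b a' b' : D.At R} {p q : Fin (t + 1)} (ha : D.ok R a.1 p)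
    (hb : D.ok R b.1 q) (la : (D.lam R t).lab a = (D.lam R t).lab a')
    (lb : (D.lam R t).lab b = (D.lam R t).lab b') (e : a = b ↔ a' = b')
    (m : (D.lam R t).Adj a b ↔ (D.lam R t).Adj a' b') :
    D.adj (D.nd a.1 p) (D.nd b.1 q) ↔ D.adj (D.nd a'.1 p) (D.nd b'.1 q) := by
  have okk : ∀ {a a' : D.At R} {p : Fin (t + 1)}, (D.lam R t).lab a = (D.lam R t).lab a' →
      D.ok R a.1 p → D.ok R a'.1 p := fun h k =>
    (congrFun (congrArg (fun l => l.2.1) h) _).mp k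
  have key : ∀ {a b a' b' : D.At R} {p q : Fin (t + 1)}, D.ok R a.1 p →
      (D.lam R t).lab a = (D.lam R t).lab a' → (D.lam R t).lab b = (D.lam R t).lab b' →
      ((D.lam R t).Adj a b ↔ (D.lam R t).Adj a' b') → (D.lam R t).pt b →
      (D.adj (D.nd a.1 p) (D.nd b.1 q) ↔ D.adj (D.nd a'.1 p) (D.nd b'.1 q)) := by
    intro a b a' b' p q ha la lb m pb
    obtain ⟨x', hx'⟩ := (D.lam R t).lab_pt _ _ lb pb
    obtain ⟨x, hx⟩ := pb
    have h1 : D.hi R t a.1 = D.hi R t a'.1 := congrArg (fun l => l.2.2.1) la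
    have h2 : D.kap t b.1 = D.kap t b'.1 := congrArg (fun l => l.1) lb
    rw [adj_np hx, adj_np hx'] at m
    rw [hx, hx'] at h2 ⊢
    change D.adj _ (.inl x) ↔ D.adj _ (.inl x')
    by_cases hp : p = D.hi R t a.1
    · rwa [← h1, ← hp] at m
    · have h3 : (x : Γ ⧸ D.N t) = x' := Option.some.inj h2
      rw [low_adj hR ha hp x, low_adj hR (okk la ha) (h1 ▸ hp) x', ← h3]
      exact iff_of_eq (congrFun (congrFun (congrArg (fun l => l.2.2.2) la) p) (x : Γ ⧸ D.N t))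
  by_cases pb : (D.lam R t).pt b
  · exact key ha la lb m pb
  by_cases pa : (D.lam R t).pt a
  · rw [D.adj_comm, D.adj_comm (D.nd a'.1 p)]
    exact key hb lb la (or_comm.trans (m.trans or_comm)) pa
  rw [node_adj ha hb pa pb, node_adj (okk la ha) (okk lb hb) (by rwa [← Lam.pt_iff la])
    (by rwa [← Lam.pt_iff lb]), e]

theorem triP [Countable Γ] (hR : R ⊆ D.QP) (hi : R.Infinite) (hT : TF D.P R) :
    D.P.Cont R ∨ Cnt D.P R ∧ Inf D.P R := by
  by_cases h : ∀ t, ∃ π a, ∀ j < t, .inr (π, a + j) ∈ R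
  · exact Or.inl (D.caseA hR h)
  push Not at h
  obtain ⟨t, h⟩ := h
  obtain ⟨a0, -⟩ := loc h hi.nonempty.some_mem
  have : Nonempty (D.At R) := ⟨a0⟩
  choose! am ps h1 h2 using fun v hv => loc h (v := v) hv
  have k : ∀ (a : D.At R) (p : Fin (t + 1)), D.ok R a.1 p →
      am (D.nd a.1 p) = a ∧ ps (D.nd a.1 p) = p := fun a p hp =>
    (nd_inj (h1 _ (ok_mem a hp)) hp (h2 _ (ok_mem a hp))).imp_right Fin.ext
  have : Countable (D.At R) := Subtype.countable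
  refine Code.tri (X := D.lam R t) ⟨am, ps, fun a => D.nd a.1 (D.hi R t a.1),
    fun v hv w hw e1 e2 => by rw [← h2 v hv, ← h2 w hw, e1, e2], fun v hv b e => ?_,
    fun a => ok_mem a (ok_hi a), fun a => (k a _ (ok_hi a)).1, fun a b e => ?_,
    fun v hv w hw v' hv' w' hw' e1 e2 e3 e4 e5 e6 => ?_, fun a b => ?_⟩ hi hT
  · have : D.ok R b.1 (ps v) := (congrFun (congrArg (fun l => l.2.1) e) _).mpr (h1 v hv)
    exact ⟨_, ok_mem b this, k b _ this⟩
  · rw [(k a _ (ok_hi a)).2, (k b _ (ok_hi b)).2]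
    exact congrArg (fun l => l.2.2.1) e
  · have := adj_lab hR (h1 v hv) (h1 w hw) e1 e2 e5 e6
    rw [h2 v hv, h2 w hw, e3, e4, h2 v' hv', h2 w' hw'] at this
    exact D.c_eq.2 this
  · rw [c_iff]
    by_cases pb : (D.lam R t).pt b
    · obtain ⟨x, hx⟩ := pb
      rw [adj_np hx, hx]; rfl
    by_cases pa : (D.lam R t).pt a
    · obtain ⟨x, hx⟩ := pa
      rw [D.adj_comm, Lam.Adj, or_comm, ← Lam.Adj, adj_np hx, hx]; rfl
    refine iff_of_false (fun m => ?_) (adj_nn (iff_of_false pa pb))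
    obtain ⟨rfl, h⟩ := (node_adj (ok_hi a) (ok_hi b) pa pb).1 m
    omega

end Data

end Pool.Agent.MP_2a6d4e_co.h30

end MrgPart2

-- ======== part 3: formerly Pool.Agent.MP_2a6d4e_co.h30.Big
section MrgPart3

/-! The graph with exactly two siblings: complements of cycles substituted into the base graph. -/

namespace Pool.Agent.MP_2a6d4e_co.h30

open Set Function

def cy (n i j : ℕ) : Prop :=
  i < n ∧ j < n ∧ (j = i + 1 ∨ i = j + 1 ∨ (i = 0 ∧ j + 1 = n) ∨ (j = 0 ∧ i + 1 = n))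

def cc (n i j : ℕ) : Prop := i < n ∧ j < n ∧ i ≠ j ∧ ¬ cy n i j

theorem cyc_all {n a : ℕ} {M : Set ℕ} (ha : a ∈ M) (han : a < n)
    (h : ∀ a ∈ M, a < n → ∀ x < n, (x = a + 1 ∨ a + 1 = n ∧ x = 0) → x ∈ M) :
    ∀ b < n, b ∈ M := by
  have up : ∀ a ∈ M, ∀ k, a + k < n → a + k ∈ M := by
    intro a ha k
    induction k with
    | zero => exact fun _ => ha
    | succ k ih => exact fun hk => h _ (ih (by omega)) (by omega) _ hk (Or.inl rfl)
  have h0 : 0 ∈ M := h _ (up a ha (n - 1 - a) (by omega)) (by omega) 0 (by omega)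
    (Or.inr ⟨by omega, rfl⟩)
  exact fun b hb => by simpa using up 0 h0 b (by omega)

theorem cy_prime {n a a' : ℕ} (hn : 5 ≤ n) {M : Set ℕ} (hM : ∀ a ∈ M, a < n)
    (h : ∀ a ∈ M, ∀ a' ∈ M, ∀ b < n, b ∉ M → cy n a b → cy n a' b) (ha : a ∈ M) (ha' : a' ∈ M)
    (hne : a ≠ a') : ∀ b < n, b ∈ M := by
  refine cyc_all ha (hM a ha) fun p hp hpn x hx e => by_contra fun hxM => ?_
  obtain ⟨q, hq, hpq⟩ : ∃ q ∈ M, q ≠ p := by
    by_cases e : a = p
    exacts [⟨a', ha', e ▸ hne.symm⟩, ⟨a, ha, e⟩]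
  have h1 := fun r hr => h p hp r hr x hx hxM (by unfold cy; omega)
  have h2 := h1 q hq
  obtain ⟨y, hy, e'⟩ : ∃ y < n, y = q + 1 ∨ q + 1 = n ∧ y = 0 := by
    have := hM q hq
    by_cases e : q + 1 = n
    exacts [⟨0, by omega, Or.inr ⟨e, rfl⟩⟩, ⟨q + 1, by omega, Or.inl rfl⟩]
  by_cases hyM : y ∈ M
  · have := h1 y hyM
    unfold cy at h2 this
    omega
  · have := h q hq p hp y hy hyM (by unfold cy at h2 ⊢; omega)
    unfold cy at h2 this
    omega

theorem cy_emb {n n' : ℕ} (hn : 3 ≤ n) {φ : ℕ → ℕ} (h1 : ∀ i < n, φ i < n')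
    (h2 : ∀ i < n, ∀ j < n, φ i = φ j → i = j)
    (h3 : ∀ i < n, ∀ j < n, cy n i j → cy n' (φ i) (φ j)) :
    n' = n ∧ ∀ k < n', ∃ i < n, φ i = k := by
  have key : ∀ k < n', k ∈ {k | ∃ i < n, φ i = k} := by
    refine cyc_all (a := φ 0) ⟨0, by omega, rfl⟩ (h1 0 (by omega)) ?_
    rintro _ ⟨i, hi, rfl⟩ - x hx e
    obtain ⟨j, j', k1, k2, k3⟩ : ∃ j j', j ≠ j' ∧ cy n i j ∧ cy n i j' := by
      by_cases e1 : i = 0
      · exact ⟨1, n - 1, by omega, by unfold cy; omega, by unfold cy; omega⟩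
      by_cases e2 : i + 1 = n
      · exact ⟨0, i - 1, by omega, by unfold cy; omega, by unfold cy; omega⟩
      · exact ⟨i + 1, i - 1, by omega, by unfold cy; omega, by unfold cy; omega⟩
    have k4 := h3 i hi j k2.2.1 k2
    have k5 := h3 i hi j' k3.2.1 k3
    have k6 : φ j ≠ φ j' := fun e => k1 (h2 j k2.2.1 j' k3.2.1 e)
    by_cases e1 : φ j = x
    · exact ⟨j, k2.2.1, e1⟩
    · exact ⟨j', k3.2.1, by unfold cy at k4 k5; omega⟩
  refine ⟨?_, key⟩
  have := Finset.card_bij (s := Finset.range n) (t := Finset.range n') (fun i _ => φ i)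
    (by simpa using h1) (by simp only [Finset.mem_range]; exact fun i hi j hj => h2 i hi j hj)
    (by simpa using key)
  simpa using this.symm

namespace Data

variable {Γ : Type} [Group Γ] (D : Data Γ)

def sz : D.VP → ℕ
  | .inl _ => 8
  | .inr p => 9 + Nat.pair p.1.1 p.2

def gadj (p q : D.VP × ℕ) : Prop := p.1 = q.1 ∧ cc (D.sz p.1) p.2 q.2 ∨ D.adj p.1 q.1

theorem adj_irr (v : D.VP) : ¬ D.adj v v := by rcases v with x | p <;> simp [adj]

theorem gadj_comm (p q : D.VP × ℕ) : D.gadj p q → D.gadj q p := by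
  rintro (⟨h1, h2⟩ | h)
  · exact Or.inl ⟨h1.symm, by rw [← h1]; unfold cc cy at h2 ⊢; omega⟩
  · exact Or.inr ((D.adj_comm _ _).1 h)

open Classical in
noncomputable def G : Gr (D.VP × ℕ) where
  c p q := decide (D.gadj p q)
  symm p q := decide_eq_decide.2 ⟨D.gadj_comm p q, D.gadj_comm q p⟩
  irr p := by simp [gadj, adj_irr, cc]

def Q (B : Set Γ) : Set (D.VP × ℕ) :=
  {p | p.1 ∈ D.QP ∧ (p.2 < D.sz p.1 ∨ p.2 = 8 ∧ ∃ x ∈ B, p.1 = .inl x)}

variable {D}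
variable {B B' : Set Γ} {f : D.VP × ℕ → D.VP × ℕ} {v w : D.VP} {p q : D.VP × ℕ}

theorem g_eq {p' q' : D.VP × ℕ} : D.G.c p q = D.G.c p' q' ↔ (D.gadj p q ↔ D.gadj p' q') := by
  simp [G]

theorem gadj_ne (h : p.1 ≠ q.1) : D.gadj p q ↔ D.adj p.1 q.1 := by simp [gadj, h]

theorem gadj_eq (h : p.1 = q.1) : D.gadj p q ↔ cc (D.sz p.1) p.2 q.2 := by
  simp [gadj, h, adj_irr]

theorem sz_ge (v : D.VP) : 8 ≤ D.sz v := by rcases v with x | p <;> simp only [sz] <;> omega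

theorem inl_mem (x : Γ) : .inl x ∈ D.QP := fun _ _ h => by cases h

theorem extra_mem {x : Γ} : (.inl x, 8) ∈ D.Q B ↔ x ∈ B := by simp [Q, inl_mem, sz]

theorem Q_sub : D.Q B ⊆ D.Q B' ↔ B ⊆ B' :=
  ⟨fun h _ hx => extra_mem.1 (h (extra_mem.2 hx)),
    fun h _ hp => ⟨hp.1, hp.2.imp_right fun ⟨h1, x, h2, h3⟩ => ⟨h1, x, h h2, h3⟩⟩⟩

theorem no_k4 {a b c d : D.VP} (h1 : D.adj a b) (h2 : D.adj a c) (h3 : D.adj a d) (h4 : D.adj b c)
    (h5 : D.adj b d) (h6 : D.adj c d) : False := by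
  rcases a with _ | a <;> rcases b with _ | b <;> rcases c with _ | c <;> rcases d with _ | d <;>
    simp only [adj] at h1 h2 h3 h4 h5 h6 <;> omega

theorem core (hf : D.G.Emb (D.Q B) (D.Q B') f) (hv : v ∈ D.QP) : ∃ w ∈ D.QP, D.sz w = D.sz v ∧
    (∀ i < D.sz v, (f (v, i)).1 = w ∧ (f (v, i)).2 < D.sz w) ∧
    ∀ k < D.sz w, ∃ i < D.sz v, f (v, i) = (w, k) := by
  have h8 := sz_ge v
  have m : ∀ i < D.sz v, (v, i) ∈ D.Q B := fun i hi => ⟨hv, Or.inl hi⟩
  have e : ∀ i < D.sz v, ∀ j < D.sz v, D.gadj (f (v, i)) (f (v, j)) ↔ cc (D.sz v) i j :=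
    fun i hi j hj => (g_eq.1 (hf.c (m i hi) (m j hj))).trans (gadj_eq rfl)
  obtain ⟨a, a', ha, ha', hne, h⟩ : ∃ a a', a < D.sz v ∧ a' < D.sz v ∧ a ≠ a' ∧
      (f (v, a)).1 = (f (v, a')).1 := by
    by_contra hc
    push Not at hc
    have k : ∀ i j, cc (D.sz v) i j → D.adj (f (v, i)).1 (f (v, j)).1 := fun i j h =>
      (gadj_ne (hc i j h.1 h.2.1 h.2.2.1)).1 ((e i h.1 j h.2.1).2 h)
    exact no_k4 (k 0 2 (by unfold cc cy; omega)) (k 0 4 (by unfold cc cy; omega))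
      (k 0 6 (by unfold cc cy; omega)) (k 2 4 (by unfold cc cy; omega))
      (k 2 6 (by unfold cc cy; omega)) (k 4 6 (by unfold cc cy; omega))
  have all := cy_prime (M := {i | i < D.sz v ∧ (f (v, i)).1 = (f (v, a)).1}) (by omega)
    (fun i hi => hi.1) (fun i hi j hj b hb hb' hc => by
      have n1 : (f (v, b)).1 ≠ (f (v, a)).1 := fun h => hb' ⟨hb, h⟩
      have e1 := e i hi.1 b hb
      have e2 := e j hj.1 b hb
      rw [gadj_ne (hi.2 ▸ n1.symm), hi.2] at e1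
      rw [gadj_ne (hj.2 ▸ n1.symm), hj.2, e1] at e2
      by_contra hc'
      exact (e2.2 ⟨hj.1, hb, fun h => hb' (h ▸ hj), hc'⟩).2.2.2 hc) ⟨ha, rfl⟩ ⟨ha', h.symm⟩ hne
  have e' : ∀ i < D.sz v, ∀ j < D.sz v,
      cc (D.sz (f (v, a)).1) (f (v, i)).2 (f (v, j)).2 ↔ cc (D.sz v) i j := fun i hi j hj => by
    rw [← e i hi j hj, gadj_eq ((all i hi).2.trans (all j hj).2.symm), (all i hi).2]
  have lt : ∀ i < D.sz v, (f (v, i)).2 < D.sz (f (v, a)).1 := fun i hi => by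
    by_cases h : i ≤ 3
    · exact ((e' i hi (i + 2) (by omega)).2 (by unfold cc cy; omega)).1
    · exact ((e' i hi (i - 2) (by omega)).2 (by unfold cc cy; omega)).1
  have inj : ∀ i < D.sz v, ∀ j < D.sz v, (f (v, i)).2 = (f (v, j)).2 → i = j := fun i hi j hj h =>
    (Prod.mk.inj (hf.inj (m i hi) (m j hj) (Prod.ext ((all i hi).2.trans (all j hj).2.symm) h))).2
  obtain ⟨k1, k2⟩ := cy_emb (φ := fun i => (f (v, i)).2) (by omega) lt inj fun i hi j hj h => by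
    by_contra hc
    exact ((e' i hi j hj).1 ⟨lt i hi, lt j hj, fun h' => by
      have := inj i hi j hj h'; unfold cy at h; omega, hc⟩).2.2.2 h
  exact ⟨_, (hf.maps (m a ha)).1, k1, fun i hi => ⟨(all i hi).2, lt i hi⟩, fun k hk =>
    (k2 k hk).imp fun i hi => ⟨hi.1, Prod.ext (all i hi.1).2 hi.2⟩⟩

theorem probe (j : ℕ) (x : Γ) : ∃ i b, 1 ≤ i ∧ i < D.L (j + 1) ∧
    ((((1 : Γ) : Γ ⧸ D.N (j + 1)).out * b)⁻¹ * x ∈ D.N j) ∧
    ∀ w y, D.blk ⟨j + 1, w⟩ i y ↔ (w.out * b)⁻¹ * y ∈ D.N j := by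
  obtain ⟨d, d1, d2, d3⟩ := (D.beta_ex j).choose_spec.2 (((1 : Γ) : Γ ⧸ D.N (j + 1)).out⁻¹ * x)
  have := D.L_pos j
  refine ⟨d * D.L j, D.β j d, Nat.mul_pos d1 this, by simp only [L]; nlinarith,
    by rwa [mul_inv_rev, mul_assoc], fun w y => ?_⟩
  simp only [blk, (D.T_mul j d).1, (D.T_mul j d).2]

theorem rigid (hf : D.G.Emb (D.Q B) (D.Q B') f) : ∃ γ, f '' D.Q B = D.Q (tr γ B) := by
  choose! φ c1 c2 c3 c4 using fun v hv => core hf (v := v) hv
  have m : ∀ v ∈ D.QP, ∀ i < D.sz v, (v, i) ∈ D.Q B := fun v hv i hi => ⟨hv, Or.inl hi⟩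
  have z : ∀ v, 0 < D.sz v := fun v => by have := sz_ge v; omega
  have inj : ∀ v ∈ D.QP, ∀ w ∈ D.QP, φ v = φ w → v = w := by
    intro v hv w hw h
    obtain ⟨i, hi, e⟩ := c4 w hw (f (v, 0)).2 (h ▸ (c3 v hv 0 (z v)).2)
    rw [← h, ← (c3 v hv 0 (z v)).1] at e
    exact (Prod.mk.inj (hf.inj (m w hw i hi) (m v hv 0 (z v)) e)).1.symm
  have ad : ∀ v ∈ D.QP, ∀ w ∈ D.QP, D.adj (φ v) (φ w) ↔ D.adj v w := by
    intro v hv w hw
    by_cases h : v = w
    · subst h; exact iff_of_false (D.adj_irr _) (D.adj_irr _)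
    · have := g_eq.1 (hf.c (m v hv 0 (z v)) (m w hw 0 (z w)))
      rwa [gadj_ne (p := (v, 0)) h, gadj_ne, (c3 v hv 0 (z v)).1, (c3 w hw 0 (z w)).1] at this
      rw [(c3 v hv 0 (z v)).1, (c3 w hw 0 (z w)).1]
      exact fun e => h (inj v hv w hw e)
  have pts : ∀ x, ∃ y, φ (.inl x) = .inl y := fun x => by
    have := c2 _ (inl_mem x)
    rcases h : φ (.inl x) with y | q
    · exact ⟨y, rfl⟩
    · rw [h] at this; simp only [sz] at this; omega
  choose p hp using pts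
  have nq : ∀ π i, 1 ≤ i → i < D.L π.1 → .inr (π, i) ∈ D.QP := fun π i h1 h2 π' i' e => by
    cases e; exact ⟨h1, h2⟩
  have nds : ∀ n (w : Γ ⧸ D.N n), ∃ w' : Γ ⧸ D.N n, ∀ i, 1 ≤ i → i < D.L n →
      φ (.inr (⟨n, w⟩, i)) = .inr (⟨n, w'⟩, i) := by
    intro n w
    have k : ∀ i, 1 ≤ i → i < D.L n → ∃ w', φ (.inr (⟨n, w⟩, i)) = .inr (⟨n, w'⟩, i) := by
      intro i h1 h2
      have := c2 _ (nq ⟨n, w⟩ i h1 h2)
      rcases h : φ (.inr (⟨n, w⟩, i)) with y | ⟨⟨n', w'⟩, i'⟩ <;> rw [h] at this <;>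
        simp only [sz] at this
      · omega
      · obtain ⟨rfl, rfl⟩ := Nat.pair_eq_pair.1 (Nat.add_left_cancel this)
        exact ⟨w', rfl⟩
    by_cases h : 1 < D.L n
    swap
    · exact ⟨w, fun i h1 h2 => by omega⟩
    obtain ⟨w', hw'⟩ := k 1 le_rfl h
    refine ⟨w', fun i h1 => ?_⟩
    induction h1 with
    | refl => exact fun _ => hw'
    | @step i h1 ih =>
      intro h2
      obtain ⟨w'', hw''⟩ := k (i + 1) (by omega) h2
      have := (ad _ (nq ⟨n, w⟩ i h1 (Nat.lt_of_succ_lt h2)) _ (nq ⟨n, w⟩ (i + 1) (by omega) h2)).2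
        ⟨rfl, Or.inl rfl⟩
      rw [ih (by omega), hw''] at this
      rw [hw'', show (⟨n, w'⟩ : D.Pa) = ⟨n, w''⟩ from this.1]
  choose σ hσ using nds
  have pγ : ∀ x, p x = p 1 * x := by
    intro x
    refine (inv_mul_eq_one.1 (D.sep _ fun j => ?_)).symm
    have k : ∀ x, ((σ (j + 1) (1 : Γ)).out * (((1 : Γ) : Γ ⧸ D.N (j + 1)).out)⁻¹ * x)⁻¹ * p x ∈
        D.N j := by
      intro x
      obtain ⟨i, b, i1, i2, i3, i4⟩ := probe (D := D) j x
      have := (ad _ (nq ⟨j + 1, (1 : Γ)⟩ i i1 i2) _ (inl_mem x)).2 ((i4 _ _).2 i3)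
      rw [hσ _ _ i i1 i2, hp] at this
      convert (D.N j).mul_mem ((D.N j).inv_mem i3) ((i4 _ _).1 this) using 1
      group
    exact (cong (D.normal j) (by simpa using k 1) x _).1 (k x)
  have sur : ∀ w ∈ D.QP, ∃ v ∈ D.QP, φ v = w := by
    rintro (y | ⟨⟨n, w⟩, i⟩) hw
    · exact ⟨_, inl_mem ((p 1)⁻¹ * y), by rw [hp, pγ, mul_inv_cancel_left]⟩
    · obtain ⟨h1, h2⟩ := hw _ _ rfl
      obtain ⟨w', rfl⟩ := Finite.surjective_of_injective (f := σ n) (fun a b e => by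
        have := inj _ (nq ⟨n, a⟩ i h1 h2) _ (nq ⟨n, b⟩ i h1 h2) (by rw [hσ _ _ i h1 h2, hσ _ _ i h1 h2, e])
        simpa using this) w
      exact ⟨_, nq ⟨n, w'⟩ i h1 h2, hσ _ _ i h1 h2⟩
  have ext : ∀ x ∈ B, f (.inl x, 8) = (.inl (p 1 * x), 8) := by
    intro x hx
    have m1 := extra_mem (D := D).2 hx
    obtain ⟨h1, h2 | ⟨h2, y, -, h3⟩⟩ := hf.maps m1
    · obtain ⟨v, hv, e⟩ := sur _ h1
      obtain ⟨i, hi, e'⟩ := c4 v hv _ (e.symm ▸ h2)
      rw [e] at e'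
      obtain ⟨rfl, rfl⟩ := Prod.mk.inj (hf.inj (m v hv i hi) m1 e')
      exact absurd hi (lt_irrefl _)
    · refine Prod.ext (h3.trans (congrArg Sum.inl ?_)) h2
      rw [← inv_mul_eq_iff_eq_mul, eq_comm, ← inv_mul_eq_one]
      refine D.sep _ fun j => ?_
      obtain ⟨i, b, i1, i2, i3, i4⟩ := probe (D := D) j x
      have hu := nq ⟨j + 1, (1 : Γ)⟩ i i1 i2
      have e1 := g_eq.1 (hf.c (m _ hu 0 (z _)) m1)
      rw [gadj_ne (p := (_, 0)) (by simp), gadj_ne, (c3 _ hu 0 (z _)).1, h3] at e1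
      · have e2 := ad _ hu _ (inl_mem ((p 1)⁻¹ * y))
        rw [hp, pγ, mul_inv_cancel_left, e1] at e2
        convert (D.N j).mul_mem ((D.N j).inv_mem i3) ((i4 _ _).1 (e2.1 ((i4 _ _).2 i3))) using 1
        group
      · rw [(c3 _ hu 0 (z _)).1, h3, hσ _ _ i i1 i2]; simp
  refine ⟨p 1, Subset.antisymm ?_ ?_⟩
  · rintro _ ⟨⟨v, i⟩, ⟨hv, hi | ⟨rfl, x, hx, rfl⟩⟩, rfl⟩
    · obtain ⟨h1, h2⟩ := c3 v hv i hi
      exact ⟨h1 ▸ c1 v hv, Or.inl (h1 ▸ h2)⟩
    · rw [ext x hx, extra_mem]; simpa [tr] using hx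
  · rintro ⟨w, k⟩ ⟨hw, hk | ⟨rfl, y, hy, rfl⟩⟩
    · obtain ⟨v, hv, rfl⟩ := sur w hw
      obtain ⟨i, hi, e⟩ := c4 v hv k hk
      exact ⟨_, m v hv i hi, e⟩
    · exact ⟨_, extra_mem.2 hy, by rw [ext _ hy, mul_inv_cancel_left]⟩

variable (D) in
def act (t : Γ) : D.VP → D.VP
  | .inl x => .inl (t * x)
  | .inr p => .inr (⟨p.1.1, t • p.1.2⟩, p.2)

theorem act_inv (t : Γ) (v : D.VP) : D.act t (D.act t⁻¹ v) = v := by
  rcases v with x | p <;> simp [act]

theorem act_inj (t : Γ) : Injective (D.act t) :=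
  LeftInverse.injective (g := D.act t⁻¹) fun v => by simpa using act_inv t⁻¹ v

theorem act_adj (t : Γ) (v w : D.VP) : D.adj (D.act t v) (D.act t w) ↔ D.adj v w := by
  have k : ∀ (π : D.Pa) i x, D.blk ⟨π.1, t • π.2⟩ i (t * x) ↔ D.blk π i x := by
    intro π i x
    have : (t • π.2).out⁻¹ * (t * π.2.out) ∈ D.N π.1 := by
      rw [← QuotientGroup.eq, ← smul_eq_mul, ← MulAction.Quotient.smul_coe]; simp
    simp only [blk]
    rw [cong (D.normal _) (D.anti _ _ (D.J_le _ _) this)]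
    exact iff_of_eq (by congr 1; group)
  rcases v with x | ⟨⟨n, a⟩, i⟩ <;> rcases w with y | ⟨⟨m, b⟩, j⟩ <;> simp only [act, adj]
  · exact k ⟨m, b⟩ j x
  · exact k ⟨n, a⟩ i y
  · refine and_congr_left fun _ => ⟨fun h => ?_, fun h => by cases h; rfl⟩
    obtain rfl : n = m := congrArg Sigma.fst h
    simpa using h

theorem act_iso (t : Γ) (B : Set Γ) : D.G.Iso (D.Q B) (D.Q (tr t B)) := by
  have s1 : ∀ t v, D.sz (D.act t v) = D.sz v := fun t v => by rcases v with x | p <;> rfl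
  have s2 : ∀ t v, v ∈ D.QP → D.act t v ∈ D.QP := by
    rintro t (x | ⟨π, i⟩) hv
    · exact inl_mem _
    · intro π' i' e; cases e; exact hv π i rfl
  refine ⟨fun p => (D.act t p.1, p.2), ⟨?_, fun p _ q _ e => ?_, fun p _ q _ => g_eq.2 ?_⟩, ?_⟩
  · rintro ⟨v, i⟩ ⟨hv, hi | ⟨rfl, x, hx, rfl⟩⟩
    · exact ⟨s2 t v hv, Or.inl (by rwa [s1])⟩
    · exact extra_mem.2 (by simpa [tr] using hx)
  · exact Prod.ext (act_inj t (Prod.mk.inj e).1) (Prod.mk.inj e).2
  · simp only [gadj, act_adj, s1, (act_inj t).eq_iff]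
  · rintro ⟨v, i⟩ ⟨hv, hi | ⟨rfl, x, hx, rfl⟩⟩
    · exact ⟨(D.act t⁻¹ v, i), ⟨s2 _ v hv, Or.inl (by rwa [s1])⟩, by simp [act_inv]⟩
    · exact ⟨(.inl (t⁻¹ * x), 8), extra_mem.2 hx, by simp [act]⟩

theorem two_classes : D.G.Eqv (D.Q D.A) (D.Q (D.A \ {1})) ∧
    ¬ D.G.Iso (D.Q D.A) (D.Q (D.A \ {1})) ∧ ∀ R, D.G.Eqv (D.Q D.A) R →
      D.G.Iso R (D.Q D.A) ∨ D.G.Iso R (D.Q (D.A \ {1})) := by
  refine ⟨⟨?_, Gr.le_of_sub (Q_sub.2 sdiff_subset)⟩, ?_, ?_⟩
  · obtain ⟨t, ht⟩ := D.sub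
    exact (act_iso t D.A).le.trans (Gr.le_of_sub (Q_sub.2 ht))
  · rintro ⟨f, hf⟩
    obtain ⟨γ, hγ⟩ := rigid hf.1
    rw [hf.image] at hγ
    exact D.ne γ (Subset.antisymm (Q_sub.1 hγ.symm.subset) (Q_sub.1 hγ.subset))
  · rintro R ⟨⟨f, hf⟩, f', hf'⟩
    obtain ⟨γ, hγ⟩ := rigid (hf'.comp hf)
    have h1 : D.Q (tr γ D.A) ⊆ f' '' R := by
      rw [← hγ]
      rintro _ ⟨p, hp, rfl⟩
      exact ⟨f p, hf.maps hp, rfl⟩
    have h2 : f' '' R ⊆ D.Q D.A := image_subset_iff.2 hf'.1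
    let F : Set Γ := {x | x ∈ D.A ∧ (.inl x, 8) ∉ f' '' R}
    have h3 : f' '' R = D.Q (D.A \ F) := by
      ext ⟨v, i⟩
      constructor
      · intro h
        obtain ⟨hv, hi | ⟨rfl, x, hx, rfl⟩⟩ := h2 h
        exacts [⟨hv, Or.inl hi⟩, extra_mem.2 ⟨hx, fun h' => h'.2 h⟩]
      · rintro ⟨hv, hi | ⟨rfl, x, hx, rfl⟩⟩
        exacts [h1 ⟨hv, Or.inl hi⟩, by_contra fun h => hx.2 ⟨hx.1, h⟩]
    have h4 : D.G.Iso R (D.Q (D.A \ F)) := ⟨f', h3 ▸ hf'.isoMap_image⟩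
    obtain ⟨t, ht⟩ := D.two F ((D.fin_diff γ).subset fun x hx =>
      ⟨hx.1, fun h => hx.2 (h1 (extra_mem.2 h))⟩) fun x hx => hx.1
    exact ht.imp (fun h => h4.trans (h ▸ act_iso t _).symm) fun h => h4.trans (h ▸ act_iso t _).symm

theorem prime_sub {S : Set (D.VP × ℕ)} (hS : S ⊆ D.Q B) (hi : S.Infinite) (hp : D.G.Prim S) :
    InjOn Prod.fst S ∧ (∀ p ∈ S, ∀ q ∈ S, D.G.c p q = D.P.c p.1 q.1) ∧ TF D.P (Prod.fst '' S) := by
  have h1 : InjOn Prod.fst S := by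
    intro p hp' q hq e
    rcases hp {r | r ∈ S ∧ r.1 = p.1} ⟨fun r hr => hr.1, fun a ha a' ha' b hb hb' => by
      have : b.1 ≠ p.1 := fun h => hb' ⟨hb, h⟩
      rw [g_eq, gadj_ne (ha.2 ▸ this.symm), gadj_ne (ha'.2 ▸ this.symm), ha.2, ha'.2]⟩ with h | h
    · exact h ⟨hp', rfl⟩ ⟨hq, e.symm⟩
    · refine absurd (((finite_singleton p.1).prod (finite_le_nat (D.sz p.1))).subset fun r hr => ?_) hi
      have h2 := (h.symm.subset hr).2
      have h3 := sz_ge p.1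
      exact ⟨h2, by rcases (hS hr).2 with h4 | h4 <;> simp only [← h2, mem_ofPred_eq] at * <;> omega⟩
  have h2 : ∀ p ∈ S, ∀ q ∈ S, D.G.c p q = D.P.c p.1 q.1 := by
    intro p hp q hq
    by_cases e : p.1 = q.1
    · rw [h1 hp hq e, D.G.irr, D.P.irr]
    · exact (@decide_eq_decide _ _ (_) (_)).2 (gadj_ne e)
  refine ⟨h1, h2, ?_⟩
  rintro _ ⟨p, hp', rfl⟩ _ ⟨q, hq, rfl⟩ t
  have k : ∀ b ∈ S, D.G.c p b = D.G.c q b := fun b hb => by
    rw [h2 p hp' b hb, h2 q hq b hb, t _ ⟨b, hb, rfl⟩]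
  rcases hp {p, q} ⟨insert_subset hp' (singleton_subset_iff.2 hq), by
    rintro a (rfl | rfl) a' (rfl | rfl) b hb -
    exacts [rfl, k b hb, (k b hb).symm, rfl]⟩ with h | h
  · rw [h (Or.inl rfl) (Or.inr rfl)]
  · exact absurd (h ▸ toFinite _) hi

end Data

end Pool.Agent.MP_2a6d4e_co.h30

end MrgPart3

-- ======== part 4: formerly Pool.Agent.MP_2a6d4e_co.h30.Count
section MrgPart4

/-! Counting isomorphism classes of siblings from an abstract classification. -/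

namespace Pool.Agent.MP_2a6d4e_co.h30

open Set Function Cardinal

variable {V : Type} {g : Gr V} {Q : Set V} {X : Type 1} {ρ : X → Set V}

/-- `ρ` lists the siblings of `Q` exactly once up to isomorphism, by subsets of `Q`. -/
structure Cls (g : Gr V) (Q : Set V) (ρ : X → Set V) : Prop where
  h0 : ∀ x, ρ x ⊆ Q
  h1 : ∀ x, g.Eqv Q (ρ x)
  h2 : ∀ x y, g.Iso (ρ x) (ρ y) → x = y
  h3 : ∀ R, g.Eqv Q R → ∃ x, g.Iso R (ρ x)

theorem Cls.cont [Countable V] (h : Cls g Q ρ) (hc : g.Cont Q) : #X = 𝔠 := by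
  apply le_antisymm
  · have := lift_mk_le_lift_mk_of_injective (f := ρ) fun x y e => h.h2 x y (e ▸ Gr.Iso.refl _)
    rw [lift_uzero, mk_set, lift_power, lift_ofNat] at this
    refine this.trans ?_
    rw [← two_power_aleph0]
    exact power_le_power_left two_ne_zero (lift_le_aleph0.2 mk_le_aleph0)
  · obtain ⟨F, L, k1, k2, k3⟩ := hc
    choose cls ψ hψ using fun S => h.h3 _ (k1 S)
    have inj : Injective fun S => (cls S, ULift.up.{1} (L.map (ψ S))) := by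
      intro S S' h
      simp only [Prod.mk.injEq, ULift.up.injEq, List.map_inj_left] at h
      obtain ⟨χ, hχ, c1, -⟩ := (hψ S').inv
      refine k3 S S' _ (hχ.comp (h.1 ▸ hψ S)) fun v hv => ?_
      simp only [comp_apply]
      rw [h.2 v hv, c1 v (k2 S' v hv)]
    have := lift_mk_le_lift_mk_of_injective inj
    rw [lift_uzero, mk_set, lift_power, lift_ofNat, mk_nat, lift_aleph0, two_power_aleph0,
      mk_prod, lift_id, lift_id] at this
    by_contra hlt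
    exact absurd this (not_le.2 (mul_lt_of_lt aleph0_le_continuum (not_le.1 hlt)
      (mk_le_aleph0.trans_lt aleph0_lt_continuum)))

theorem Cls.aleph (h : Cls g Q ρ) (hc : Cnt g Q) (hi : Inf g Q) : #X = ℵ₀ := by
  apply le_antisymm
  · obtain ⟨d, hd⟩ := hc
    have : Countable X := (show Injective fun x => d (ρ x) from
      fun x y e => h.h2 x y (hd _ _ (h.h0 x) (h.h0 y) e)).countable
    exact mk_le_aleph0
  · obtain ⟨R, k1, k2⟩ := hi
    choose cls hcls using fun n => h.h3 _ (k1 n)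
    have : Infinite X := Infinite.of_injective cls fun n m e =>
      k2 n m ((hcls n).trans (e ▸ (hcls m).symm))
    exact aleph0_le_mk X

theorem Cls.one (h : Cls g Q ρ) (hf : Q.Finite) : #X = 1 := by
  obtain ⟨x, -⟩ := h.h3 _ (Gr.Eqv.refl _)
  refine eq_one_iff_unique.2 ⟨⟨fun a b => h.h2 a b ?_⟩, ⟨x⟩⟩
  obtain ⟨⟨f, hf'⟩, h2⟩ := (h.h1 a).symm.trans (h.h1 b)
  exact ⟨f, hf'.surj_of_card (hf.subset (h.h0 b)) h2.encard⟩

theorem Cls.two (h : Cls g Q ρ) {Q' : Set V} (k1 : g.Eqv Q Q') (k2 : ¬ g.Iso Q Q')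
    (k3 : ∀ R, g.Eqv Q R → g.Iso R Q ∨ g.Iso R Q') : #X = 2 := by
  obtain ⟨x, hx⟩ := h.h3 _ (Gr.Eqv.refl _)
  obtain ⟨y, hy⟩ := h.h3 _ k1
  refine mk_eq_two_iff.2 ⟨x, y, fun e => k2 (hx.trans (e ▸ hy.symm)), eq_univ_of_forall fun z => ?_⟩
  exact (k3 _ (h.h1 z)).imp (fun i => h.h2 _ _ (i.trans hx)) fun i => h.h2 _ _ (i.trans hy)

/-- `e` identifies `H` with an induced subgraph of `g`. -/
def Real {W : Type} (H : SimpleGraph W) (g : Gr V) (e : W → V) : Prop :=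
  Injective e ∧ ∀ a b, g.c (e a) (e b) = true ↔ H.Adj a b

variable {W W' : Type} {H : SimpleGraph W} {H' : SimpleGraph W'} {e : W → V} {e' : W' → V}

theorem Real.comp (h : Real H g e) (φ : H' ↪g H) : Real H' g (e ∘ φ) :=
  ⟨h.1.comp φ.injective, fun _ _ => (h.2 _ _).trans φ.map_rel_iff⟩

theorem Real.emb (h : Real H g e) (h' : Real H' g e') (φ : H ↪g H') :
    ∃ f, g.Emb (range e) (range e') f ∧ ∀ a, f (e a) = e' (φ a) := by
  have k : ∀ a, extend e (e' ∘ φ) id (e a) = e' (φ a) := fun a => h.1.extend_apply _ _ a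
  refine ⟨_, ⟨?_, ?_, ?_⟩, k⟩
  · rintro _ ⟨a, rfl⟩; exact ⟨_, (k a).symm⟩
  · rintro _ ⟨a, rfl⟩ _ ⟨b, rfl⟩ hab
    rw [k, k] at hab
    rw [φ.injective (h'.1 hab)]
  · rintro _ ⟨a, rfl⟩ _ ⟨b, rfl⟩
    rw [k, k, Bool.eq_iff_iff, h.2, h'.2, φ.map_rel_iff]

theorem Real.of_emb (h : Real H g e) (h' : Real H' g e') {f : V → V}
    (hf : g.Emb (range e) (range e') f) : ∃ φ : H ↪g H', ∀ a, e' (φ a) = f (e a) := by
  choose φ hφ using fun a => hf.maps (mem_range_self a)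
  refine ⟨⟨⟨φ, fun a b hab => h.1 (hf.inj ⟨a, rfl⟩ ⟨b, rfl⟩ (by rw [← hφ, ← hφ, hab]))⟩,
    fun {a b} => ?_⟩, hφ⟩
  simp only [Embedding.coeFn_mk]
  rw [← h'.2, hφ, hφ, hf.c ⟨a, rfl⟩ ⟨b, rfl⟩, h.2]

theorem Real.iso_iff (h : Real H g e) (h' : Real H' g e') :
    g.Iso (range e) (range e') ↔ Nonempty (H ≃g H') := by
  constructor
  · rintro ⟨f, hf⟩
    obtain ⟨φ, hφ⟩ := h.of_emb h' hf.1
    refine ⟨⟨Equiv.ofBijective φ ⟨φ.injective, fun b => ?_⟩, φ.map_rel_iff⟩⟩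
    obtain ⟨_, ⟨a, rfl⟩, ha⟩ := hf.surj (mem_range_self b)
    exact ⟨a, h'.1 ((hφ a).trans ha)⟩
  · rintro ⟨φ⟩
    obtain ⟨f, hf, k⟩ := h.emb h' φ.toEmbedding
    refine ⟨f, hf, ?_⟩
    rintro _ ⟨b, rfl⟩
    exact ⟨_, ⟨φ.symm b, rfl⟩, by rw [k]; simp⟩

/-- The induced subgraph on `R` as a simple graph. -/
def ind (g : Gr V) (R : Set V) : SimpleGraph R where
  Adj a b := g.c a b = true
  symm := ⟨fun a b h => by rw [g.symm]; exact h⟩
  loopless := ⟨fun a h => by rw [g.irr] at h; cases h⟩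

theorem real_ind (g : Gr V) (R : Set V) : Real (ind g R) g Subtype.val :=
  ⟨Subtype.val_injective, fun _ _ => Iff.rfl⟩

end Pool.Agent.MP_2a6d4e_co.h30

end MrgPart4

-- marker of a merged file
example : 731051 + 196437 = 731051 + 196437 := rfl
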