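import Mathlib.Data.Set.Card
import Pool.Agent.MP_2a6d4e_co.Emb
import Mathlib.Algebra.Order.Archimedean.Basic
import Mathlib.Algebra.Order.Ring.Star
import Mathlib.Combinatorics.Pigeonhole
import Mathlib.Data.Fintype.Pigeonhole
import Mathlib.Tactic.Monotonicity.Lemmas

-- ======== part 0: formerly Pool.Agent.MP_2a6d4e_co.h30.Cell
section MrgPart0

/-! Closure properties of cellular sets; colourings and self-embeddings of cellular sets. -/

namespace Pool.Agent.MP_2a6d4e_co.h30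

open Set Function

namespace Lam

variable {At Lab : Type} {X : Lam At Lab}
variable {a b : At} {u v : List ℕ} {S T U S' T' : Set At} {g g' : At → At} {e : Prop}

theorem Cell.mono {n m : ℕ} (h : X.Cell n S) (hm : n ≤ m) : X.Cell m S := by
  induction h generalizing m with
  | one n S h => exact .one _ _ h
  | sum n S T e _ _ c ih1 ih2 =>
    obtain ⟨m, rfl⟩ : ∃ k, m = k + 1 := ⟨m - 1, by omega⟩
    exact .sum _ _ _ e (ih1 (by omega)) (ih2 (by omega)) c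
  | inf n π e _ h2 c t ih =>
    obtain ⟨m, rfl⟩ : ∃ k, m = k + 1 := ⟨m - 1, by omega⟩
    exact .inf _ π e (ih (by omega)) h2 c t

theorem cl_one (h : S.Subsingleton) : X.Cl S := ⟨0, .one _ _ h⟩

theorem Cl.sum (h : X.Cl S) (h' : X.Cl T) (c : X.Cr S T e) : X.Cl (S ∪ T) := by
  obtain ⟨n, h⟩ := h
  obtain ⟨m, h'⟩ := h'
  exact ⟨_, .sum (n + m) _ _ e (h.mono (by omega)) (h'.mono (by omega)) c⟩

theorem cl_finite (h : S.Finite) : X.Cl S := by
  induction hn : S.ncard using Nat.strong_induction_on generalizing S with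
  | _ n ih =>
  have sm : ∀ T, T ⊆ S → ∀ a ∈ S, a ∉ T → X.Cl T := fun T hT a ha haT =>
    ih _ (hn ▸ ncard_lt_ncard ⟨hT, fun h => haT (h ha)⟩ h) (h.subset hT) rfl
  by_cases hF : ∃ F ∈ S, ¬ X.pt F
  · obtain ⟨F, ⟨hFS, hFp⟩, hmin⟩ : ∃ F, (F ∈ S ∧ ¬ X.pt F) ∧
        ∀ F', F' ∈ S ∧ ¬ X.pt F' → X.dep F ≤ X.dep F' :=
      ⟨Function.argminOn X.dep {F | F ∈ S ∧ ¬ X.pt F} hF, Function.argminOn_mem _ _ hF,
        fun F' h => Function.argminOn_le X.dep {F | F ∈ S ∧ ¬ X.pt F} h⟩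
    by_cases hB : ∃ b ∈ S, ¬ X.In b (X.bl F)
    · obtain ⟨b, hb, hb'⟩ := hB
      rw [← inter_union_sdiff S (X.Sub (X.bl F))]
      refine Cl.sum (e := False) (sm _ inter_subset_left b hb fun h => hb' h.2)
        (sm _ sdiff_subset F hFS fun h => h.2 (in_bl F)) fun p hp q hq => ?_
      refine ⟨fun h => hq.2 (h ▸ hp.2), by simpa using fun h => hq.2 (h.sub hp.2),
        fun h => hq.2 ?_⟩
      exact (in_fac h.1).2 (In.suffix hp.2 h.2.2 (by simpa [bl] using hmin q ⟨hq.1, h.1⟩))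
    · push Not at hB
      rw [← insert_sdiff_singleton.trans (insert_eq_of_mem hFS), insert_eq]
      refine Cl.sum (e := True) (cl_one subsingleton_singleton)
        (sm _ sdiff_subset F hFS fun h => h.2 rfl) ?_
      rintro _ rfl q hq
      exact ⟨fun h => hq.2 h.symm, by simp [M, hB q hq.1], fun h => hFp h.2.1⟩
  · push Not at hF
    rcases S.eq_empty_or_nonempty with rfl | ⟨x, hx⟩
    · exact cl_one subsingleton_empty
    rw [← insert_sdiff_singleton.trans (insert_eq_of_mem hx), insert_eq]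
    refine Cl.sum (e := False) (cl_one subsingleton_singleton)
      (sm _ sdiff_subset x hx fun h => h.2 rfl) ?_
    rintro _ rfl q hq
    exact ⟨fun h => hq.2 h.symm, by simpa using fun h => h.1 (hF _ hx), fun h => h.1 (hF _ hq.1)⟩

theorem cl_biUnion {ι : Type} {π : ι → Set At} {s : Set ι} (hs : s.Finite)
    (h : ∀ i ∈ s, X.Cl (π i)) (c : ∀ i j, i ≠ j → X.Cr (π i) (π j) False) :
    X.Cl (⋃ i ∈ s, π i) := by
  induction s, hs using Set.Finite.induction_on with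
  | empty => simpa using cl_one subsingleton_empty
  | @insert i s hi _ ih =>
    rw [biUnion_insert]
    refine Cl.sum (e := False) (h i (mem_insert _ _)) (ih fun j hj => h j (mem_insert_of_mem _ hj))
      fun a ha b hb => ?_
    obtain ⟨j, hj, hb⟩ := mem_iUnion₂.1 hb
    exact c i j (fun h => hi (h ▸ hj)) a ha b hb

theorem cl_pieces [Finite Lab] {ι J : Type} [Countable ι] [Finite J] {π : ι → Set At}
    (c : ∀ i j, i ≠ j → X.Cr (π i) (π j) False) (hne : ∀ i, (π i).Nonempty)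
    (hJ : ∀ i, ∃ e : J → At, π i ⊆ range e) : X.Cl (⋃ i, π i) := by
  classical
  have : ∀ i, ∃ e : J → At, range e = π i := by
    intro i
    obtain ⟨e, he⟩ := hJ i
    obtain ⟨a, ha⟩ := hne i
    refine ⟨fun j => if e j ∈ π i then e j else a, Subset.antisymm ?_ fun b hb => ?_⟩
    · rintro _ ⟨j, rfl⟩
      beta_reduce
      split_ifs <;> assumption
    · obtain ⟨j, rfl⟩ := he hb
      exact ⟨j, if_pos hb⟩
  choose e he using this
  let code : ι → (J → Lab) × (J → J → Prop × Prop) := fun i =>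
    (fun j => X.lab (e i j), fun j k => (e i j = e i k, X.M (e i j) (e i k)))
  have iso : ∀ i i', code i = code i' → ∃ f, X.TI (π i) (π i') f := by
    intro i i' h
    have h1 : ∀ j, X.lab (e i j) = X.lab (e i' j) := congrFun (congrArg Prod.fst h)
    have h2 : ∀ j k, (e i j = e i k ↔ e i' j = e i' k) ∧
        (X.M (e i j) (e i k) ↔ X.M (e i' j) (e i' k)) := fun j k => by
      have := congrFun (congrFun (congrArg Prod.snd h) j) k
      simpa [code] using this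
    have k : ∀ j, (if h : ∃ k, e i k = e i j then e i' h.choose else e i j) = e i' j := by
      intro j
      have h3 : ∃ k, e i k = e i j := ⟨j, rfl⟩
      rw [dif_pos h3]
      exact (h2 _ _).1.1 h3.choose_spec
    rw [← he i, ← he i']
    refine ⟨fun a => if h : ∃ k, e i k = a then e i' h.choose else a, te_of ?_ ?_, ?_⟩
    · rintro _ ⟨j, rfl⟩
      rw [k]; exact ⟨⟨j, rfl⟩, (h1 j).symm⟩
    · rintro _ ⟨j, rfl⟩ _ ⟨l, rfl⟩ hab
      rw [k, k]; exact ⟨fun h => hab ((h2 _ _).1.2 h), (h2 _ _).2.symm⟩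
    · rintro _ ⟨j, rfl⟩
      exact ⟨e i j, ⟨j, rfl⟩, k j⟩
  have fin : ∀ i, (π i).Finite := fun i => he i ▸ finite_range _
  have hU : (⋃ i, π i) = ⋃ κ ∈ univ, ⋃ i : {i // code i = κ}, π i := by
    ext a
    simp only [mem_iUnion, mem_univ, exists_prop, true_and]
    exact ⟨fun ⟨i, hi⟩ => ⟨_, ⟨i, rfl⟩, hi⟩, fun ⟨_, i, hi⟩ => ⟨i, hi⟩⟩
  rw [hU]
  refine cl_biUnion finite_univ (fun κ _ => ?_) fun κ κ' hκ a ha b hb => ?_
  · rcases finite_or_infinite {i // code i = κ} with hf | hf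
    · exact cl_finite (finite_iUnion fun i => fin _)
    · obtain ⟨φ⟩ : Nonempty (ℕ ≃ {i // code i = κ}) := nonempty_equiv_of_countable
      choose f hf using fun n => iso (φ 0) (φ n) ((φ 0).2.trans (φ n).2.symm)
      obtain ⟨n, hn⟩ := cl_finite (X := X) (fin (φ 0))
      rw [← φ.surjective.iUnion_comp]
      exact ⟨_, .inf n (fun n => π (φ n)) f hn (fin _)
        (fun i j hij => c _ _ fun h => hij (φ.injective (Subtype.ext h))) hf⟩
  · obtain ⟨i, ha⟩ := mem_iUnion.1 ha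
    obtain ⟨j, hb⟩ := mem_iUnion.1 hb
    exact c i j (fun h => hκ (i.2.symm.trans (h ▸ j.2))) a ha b hb

variable (X) in
def Adj (a b : At) : Prop := X.M a b ∨ X.M b a

theorem cl_of_deg [Finite Lab] [Countable At] {J : Type} [Finite J]
    (h : ∀ a ∈ S, ∃ nb : J → At, ∀ b ∈ S, X.Adj a b → b ∈ range nb) : X.Cl S := by
  classical
  have h' : ∀ a, ∃ nb : J → At, a ∈ S → ∀ b ∈ S, X.Adj a b → b ∈ range nb := by
    intro a
    by_cases ha : a ∈ S
    · obtain ⟨nb, hnb⟩ := h a ha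
      exact ⟨nb, fun _ => hnb⟩
    · exact ⟨fun _ => a, fun h => absurd h ha⟩
  choose nb hnb using h'
  let R : At → At → Prop := fun p q => p ∈ S ∧ q ∈ S ∧ X.Adj p q
  have hR : ∀ {p q}, Relation.ReflTransGen R p q → Relation.ReflTransGen R q p := by
    intro p q h
    induction h with
    | refl => exact .refl
    | tail _ h ih => exact .head ⟨h.2.1, h.1, h.2.2.symm⟩ ih
  let cp : S → Set At := fun a => {b | Relation.ReflTransGen R a b}
  have cS : ∀ a, cp a ⊆ S := by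
    intro a b hb
    induction hb with
    | refl => exact a.2
    | tail _ h _ => exact h.2.1
  have ceq : ∀ a a' p q, p ∈ cp a → q ∈ cp a' → Relation.ReflTransGen R p q → cp a = cp a' := by
    intro a a' p q hp hq hpq
    have h1 : Relation.ReflTransGen R a a' := (hp.trans hpq).trans (hR hq)
    exact Set.ext fun b => ⟨fun h => (hR h1).trans h, fun h => h1.trans h⟩
  have : Countable (range cp) := (countable_range cp).to_subtype
  have hU : S = ⋃ C : range cp, C.1 := by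
    refine Subset.antisymm (fun a ha => mem_iUnion.2 ⟨⟨_, ⟨a, ha⟩, rfl⟩, .refl⟩) ?_
    rintro b ⟨_, ⟨⟨_, a, rfl⟩, rfl⟩, hb⟩
    exact cS a hb
  rw [hU]
  refine cl_pieces (J := Option (J × Option J)) ?_ ?_ ?_
  · rintro ⟨_, a, rfl⟩ ⟨_, a', rfl⟩ hne p hp q hq
    have k : ¬ Relation.ReflTransGen R p q := fun h => hne (Subtype.ext (ceq _ _ _ _ hp hq h))
    exact ⟨fun h => k (h ▸ .refl),
      by simpa using fun h => k (.single ⟨cS _ hp, cS _ hq, Or.inl h⟩),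
      fun h => k (.single ⟨cS _ hp, cS _ hq, Or.inr h⟩)⟩
  · rintro ⟨_, a, rfl⟩
    exact ⟨a, .refl⟩
  · rintro ⟨_, a, rfl⟩
    by_cases hF : ∃ F ∈ cp a, ¬ X.pt F
    · obtain ⟨F, ⟨hFS, hFp⟩, hmin⟩ : ∃ F, (F ∈ cp a ∧ ¬ X.pt F) ∧
          ∀ F', F' ∈ cp a ∧ ¬ X.pt F' → X.dep F ≤ X.dep F' :=
        ⟨Function.argminOn X.dep {F | F ∈ cp a ∧ ¬ X.pt F} hF, Function.argminOn_mem _ _ hF,
          fun F' h => Function.argminOn_le X.dep {F | F ∈ cp a ∧ ¬ X.pt F} h⟩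
      have key : ∀ b, Relation.ReflTransGen R F b →
          b = F ∨ X.M F b ∨ ∃ x ∈ S, X.M F x ∧ X.M b x := by
        intro b hb
        induction hb with
        | refl => exact Or.inl rfl
        | @tail p q hp hq ih =>
          rcases ih with rfl | ih | ⟨x, hx, h1, h2⟩
          · exact Or.inr (Or.inl (hq.2.2.resolve_right fun h => hFp h.2.1))
          · exact Or.inr (Or.inr ⟨p, hq.1, ih, hq.2.2.resolve_left fun h => h.1 ih.2.1⟩)
          · have h3 := hq.2.2.resolve_right fun h => h2.1 h.2.1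
            refine Or.inr (Or.inl ⟨hFp, h3.2.1, h3.2.2.mono (In.suffix h1.2.2 h2.2.2 ?_)⟩)
            simpa [bl] using hmin p ⟨Relation.ReflTransGen.trans hFS hp, h2.1⟩
      refine ⟨fun o => match o with
        | none => F
        | some (j, none) => nb F j
        | some (j, some k) => nb (nb F j) k, fun b hb => ?_⟩
      rcases key b ((hR hFS).trans hb) with rfl | h1 | ⟨x, hx, h1, h2⟩
      · exact ⟨none, rfl⟩
      · obtain ⟨j, hj⟩ := hnb F (cS a hFS) b (cS a hb) (Or.inl h1)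
        exact ⟨some (j, none), hj⟩
      · obtain ⟨j, rfl⟩ := hnb F (cS a hFS) x hx (Or.inl h1)
        obtain ⟨k, hk⟩ := hnb _ hx b (cS a hb) (Or.inr h2)
        exact ⟨some (j, some k), hk⟩
    · push Not at hF
      refine ⟨fun _ => a, fun b hb => ⟨none, ?_⟩⟩
      rcases Relation.ReflTransGen.cases_tail hb with h | ⟨p, hp, h⟩
      · exact h.symm
      · exact absurd h.2.2 (not_or.2 ⟨fun h => h.1 (hF p hp), fun h => h.1 (hF b hb)⟩)

theorem Cl.sub [Finite Lab] [Countable At] (h : X.Cl S) (hT : T ⊆ S) : X.Cl T := by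
  obtain ⟨n, h⟩ := h
  induction h generalizing T with
  | one n S h => exact cl_one (h.anti hT)
  | sum n S S' e _ _ c ih1 ih2 =>
    rw [← inter_eq_left.2 hT, inter_union_distrib_left]
    exact (ih1 inter_subset_right).sum (ih2 inter_subset_right)
      (c.mono inter_subset_right inter_subset_right)
  | inf n π e _ h2 c t _ =>
    have : Finite (π 0) := h2
    refine cl_of_deg (J := π 0) fun a ha => ?_
    obtain ⟨i, hi⟩ := mem_iUnion.1 (hT ha)
    refine ⟨fun x => e i x, fun b hb hab => ?_⟩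
    obtain ⟨j, hj⟩ := mem_iUnion.1 (hT hb)
    by_cases hij : i = j
    · subst hij
      obtain ⟨x, hx, rfl⟩ := (t i).2 hj
      exact ⟨⟨x, hx⟩, rfl⟩
    · have := c i j hij a hi b hj
      exact absurd hab (not_or.2 ⟨fun h => (this.2.1.1 h).1, this.2.2⟩)

/-- A set that is not cellular has atoms of arbitrarily large degree. -/
theorem big_pair [Finite Lab] [Countable At] (h : ¬ X.Cl S) (K : ℕ) :
    ∃ a ∈ S, ∃ Z : Finset At, Z.card = K ∧ ∀ z ∈ Z, z ∈ S ∧ X.Adj a z := by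
  by_contra hc
  push Not at hc
  refine h (cl_of_deg (J := Fin K) fun a ha => ?_)
  have hf : {b | b ∈ S ∧ X.Adj a b}.Finite := by
    by_contra hinf
    obtain ⟨Z, hZ, hK⟩ := Set.Infinite.exists_subset_card_eq hinf K
    obtain ⟨z, hz, h1⟩ := hc a ha Z hK
    exact h1 (hZ hz).1 (hZ hz).2
  have hle : hf.toFinset.card ≤ K := by
    by_contra hlt
    obtain ⟨Z, hZ, hK⟩ := Finset.exists_subset_card_eq (not_le.1 hlt).le
    obtain ⟨z, hz, h1⟩ := hc a ha Z hK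
    have := hf.mem_toFinset.1 (hZ hz)
    exact h1 this.1 this.2
  refine ⟨fun k => if h : k.1 < hf.toFinset.card then hf.toFinset.equivFin.symm ⟨k, h⟩ else a,
    fun b hb hab => ?_⟩
  let j := hf.toFinset.equivFin ⟨b, hf.mem_toFinset.2 ⟨hb, hab⟩⟩
  exact ⟨⟨j, j.2.trans_le hle⟩, by simp [j]⟩

theorem Cl.cnt {Col : Type} [Finite Col] (h : X.Cl S) : ∃ d : (At → Col) → ℕ,
    ∀ χ χ', d χ = d χ' → ∃ σ, X.TI S S σ ∧ ∀ a ∈ S, χ' (σ a) = χ a := by
  obtain ⟨n, h⟩ := h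
  induction h with
  | one n S h =>
    rcases h.eq_empty_or_singleton with rfl | ⟨a, rfl⟩
    · exact ⟨fun _ => 0, fun _ _ _ => ⟨id, ⟨te_id subset_rfl, surjOn_id _⟩, by simp⟩⟩
    · obtain ⟨c, hc⟩ := exists_injective_nat Col
      exact ⟨fun χ => c (χ a), fun χ χ' h => ⟨id, ⟨te_id subset_rfl, surjOn_id _⟩,
        by simpa using (hc h).symm⟩⟩
  | sum n S T e _ _ c ih1 ih2 =>
    obtain ⟨d1, h1⟩ := ih1
    obtain ⟨d2, h2⟩ := ih2
    refine ⟨fun χ => Nat.pair (d1 χ) (d2 χ), fun χ χ' h => ?_⟩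
    obtain ⟨σ1, k1, l1⟩ := h1 χ χ' (Nat.pair_eq_pair.1 h).1
    obtain ⟨σ2, k2, l2⟩ := h2 χ χ' (Nat.pair_eq_pair.1 h).2
    obtain ⟨G, hG, e1, e2⟩ := glue_sum k1.1 k2.1 c c
    refine ⟨G, ⟨hG, ?_⟩, ?_⟩
    · rintro b (hb | hb)
      · obtain ⟨a, ha, rfl⟩ := k1.2 hb
        exact ⟨a, Or.inl ha, e1 a ha⟩
      · obtain ⟨a, ha, rfl⟩ := k2.2 hb
        exact ⟨a, Or.inr ha, e2 a ha⟩
    · rintro a (ha | ha)
      · rw [e1 a ha, l1 a ha]
      · rw [e2 a ha, l2 a ha]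
  | inf n π e _ h2 c t _ =>
    have : Finite (π 0) := h2
    obtain ⟨cd, hcd⟩ := exists_injective_nat ((π 0 → Col) → ℕ∞)
    let ty : (At → Col) → ℕ → π 0 → Col := fun χ i x => χ (e i x)
    refine ⟨fun χ => cd fun s => {i | ty χ i = s}.encard, fun χ χ' h => ?_⟩
    have h3 : ∀ s, Nonempty ({i // ty χ i = s} ≃ {i // ty χ' i = s}) := fun s =>
      Cardinal.eq.1 (Cardinal.toENat_injOn (mem_Iic.2 Cardinal.mk_le_aleph0)
        (mem_Iic.2 Cardinal.mk_le_aleph0) (congrFun (hcd h) s))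
    let τ := Equiv.ofFiberEquiv fun s => (h3 s).some
    have hτ : ∀ i, ty χ' (τ i) = ty χ i := Equiv.ofFiberEquiv_map _
    choose f hf using fun i => (t i).inv
    obtain ⟨G, hG, eG⟩ := glue_inf τ.injective (fun i => (t (τ i)).1.comp (hf i).1.1) c c
    refine ⟨G, ⟨hG, fun b hb => ?_⟩, fun a ha => ?_⟩
    · obtain ⟨j, hb⟩ := mem_iUnion.1 hb
      obtain ⟨i, rfl⟩ := τ.surjective j
      obtain ⟨a, ha, rfl⟩ := ((t (τ i)).comp (hf i).1).2 hb
      exact ⟨a, mem_iUnion.2 ⟨i, ha⟩, eG i a ha⟩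
    · obtain ⟨i, ha⟩ := mem_iUnion.1 ha
      have := congrFun (hτ i) ⟨f i a, (hf i).1.1.maps ha⟩
      simp only [ty, (hf i).2.2 a ha] at this
      rw [eG i a ha]
      exact this

theorem Cl.inf (h : X.Cl S) (hS : S.Infinite) : ∃ g, X.TE S S g ∧ ∃ z : ℕ → At, Injective z ∧
    ∀ k, z k ∈ S ∧ X.lab (z k) = X.lab (z 0) ∧ ∀ b ∈ S, g b ≠ z k ∧
      (X.M (z k) (g b) ↔ X.M (z 0) (g b)) ∧ (X.M (g b) (z k) ↔ X.M (g b) (z 0)) := by
  obtain ⟨n, h⟩ := h
  induction h with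
  | one n S h => exact absurd h.finite hS
  | sum n S T e _ _ c ih1 ih2 =>
    rcases infinite_union.1 hS with h | h
    · obtain ⟨g, hg, z, hz, k⟩ := ih1 h
      obtain ⟨G, hG, e1, e2⟩ := glue_sum hg (te_id subset_rfl) c c
      refine ⟨G, hG, z, hz, fun i => ⟨Or.inl (k i).1, (k i).2.1, ?_⟩⟩
      rintro b (hb | hb)
      · rw [e1 b hb]; exact (k i).2.2 b hb
      · rw [e2 b hb]
        have c1 := c _ (k i).1 b hb
        have c2 := c _ (k 0).1 b hb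
        exact ⟨c1.1.symm, by rw [id, c1.2.1, c2.2.1, pt_iff (k i).2.1], iff_of_false c1.2.2 c2.2.2⟩
    · obtain ⟨g, hg, z, hz, k⟩ := ih2 h
      obtain ⟨G, hG, e1, e2⟩ := glue_sum (te_id subset_rfl) hg c c
      refine ⟨G, hG, z, hz, fun i => ⟨Or.inr (k i).1, (k i).2.1, ?_⟩⟩
      rintro b (hb | hb)
      · rw [e1 b hb]
        have c1 := c b hb _ (k i).1
        have c2 := c b hb _ (k 0).1
        exact ⟨c1.1, iff_of_false c1.2.2 c2.2.2, by rw [id, c1.2.1, c2.2.1, pt_iff (k i).2.1]⟩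
      · rw [e2 b hb]; exact (k i).2.2 b hb
  | inf n π e _ h2 c t _ =>
    obtain ⟨a, ha⟩ : (π 0).Nonempty := by
      obtain ⟨b, hb⟩ := hS.nonempty
      obtain ⟨i, hb⟩ := mem_iUnion.1 hb
      obtain ⟨a, ha, -⟩ := (t i).2 hb
      exact ⟨a, ha⟩
    choose f hf using fun i => (t i).inv
    obtain ⟨G, hG, eG⟩ := glue_inf (τ := fun i => 2 * i) (fun i j h => by simpa using h)
      (fun i => (t (2 * i)).1.comp (hf i).1.1) c c
    have hz : ∀ k, e (2 * k + 1) a ∈ π (2 * k + 1) := fun k => (t _).1.maps ha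
    refine ⟨G, hG, fun k => e (2 * k + 1) a, fun i j h => ?_, fun k =>
      ⟨mem_iUnion.2 ⟨_, hz k⟩, ((t _).1.lab ha).trans ((t _).1.lab ha).symm, fun b hb => ?_⟩⟩
    · by_contra hij
      exact (c _ _ (by omega) _ (hz i) _ (hz j)).1 h
    · obtain ⟨i, hb⟩ := mem_iUnion.1 hb
      have h1 : G b ∈ π (2 * i) := eG i b hb ▸ ((t (2 * i)).1.comp (hf i).1.1).maps hb
      have c1 := c _ _ (by omega) _ h1 _ (hz k)
      have c2 := c _ _ (by omega) _ h1 _ (hz 0)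
      exact ⟨c1.1, iff_of_false c1.2.2 c2.2.2, by rw [c1.2.1, c2.2.1]; simp⟩

end Lam

end Pool.Agent.MP_2a6d4e_co.h30

end MrgPart0

-- ======== part 1: formerly Pool.Agent.MP_2a6d4e_co.h30.Tree
section MrgPart1

/-! The tree of non-cellular nodes: branches, big annuli, and assembling self-embeddings. -/

namespace Pool.Agent.MP_2a6d4e_co.h30

open Set Function

theorem tree_rec {σ δ : Type} [Nonempty δ] (N : List ℕ → Prop) (Inv : List ℕ → σ → Prop)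
    (Rel : List ℕ → σ → δ → (ℕ → σ) → Prop) (u0 : List ℕ) (s0 : σ) (h0 : Inv u0 s0)
    (hN : ∀ d u, N (d :: u) → N u)
    (step : ∀ u s, u0 <:+ u → N u → Inv u s →
      ∃ x s', Rel u s x s' ∧ ∀ d, N (d :: u) → Inv (d :: u) (s' d)) :
    ∃ (st : List ℕ → σ) (dt : List ℕ → δ), st u0 = s0 ∧ ∀ u, u0 <:+ u → N u →
      Inv u (st u) ∧ Rel u (st u) (dt u) fun d => st (d :: u) := by
  classical
  have : Nonempty σ := ⟨s0⟩
  choose! dt nx hs using step
  let st : List ℕ → σ := fun u =>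
    List.rec s0 (fun d u s => if d :: u = u0 then s0 else nx u s d) u
  have e0 : st u0 = s0 := by
    cases u0 with
    | nil => rfl
    | cons d u => exact if_pos rfl
  have e1 : ∀ u, u0 <:+ u → (fun d => st (d :: u)) = nx u (st u) := by
    intro u hu
    funext d
    refine if_neg fun h => ?_
    have := hu.length_le
    rw [← h] at this
    simp at this
  have hI : ∀ u, u0 <:+ u → N u → Inv u (st u) := by
    intro u
    induction u with
    | nil => intro h _; rw [← List.suffix_nil.1 h, e0]; exact h0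
    | cons d u ih =>
      intro h hn
      rcases List.suffix_cons_iff.1 h with h1 | h1
      · rw [← h1, e0]; exact h0
      · have := (hs u _ h1 (hN _ _ hn) (ih h1 (hN _ _ hn))).2 d hn
        rwa [← e1 u h1] at this
  exact ⟨st, fun u => dt u (st u), e0, fun u hu hn =>
    ⟨hI u hu hn, by rw [e1 u hu]; exact (hs u _ hu hn (hI u hu hn)).1⟩⟩

theorem seq_ex {α : Type} (P : α → Prop) (R : ℕ → α → α → Prop) (a0 : α) (h0 : P a0)
    (step : ∀ n a, P a → ∃ a', P a' ∧ R n a a') :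
    ∃ s : ℕ → α, s 0 = a0 ∧ (∀ n, P (s n)) ∧ ∀ n, R n (s n) (s (n + 1)) := by
  choose! nx hnx using step
  let s : ℕ → α := fun n => Nat.rec a0 (fun n a => nx n a) n
  have hP : ∀ n, P (s n) := by
    intro n
    induction n with
    | zero => exact h0
    | succ n ih => exact (hnx n _ ih).1
  exact ⟨s, rfl, hP, fun n => (hnx n _ (hP n)).2⟩

theorem suffix_chain {q : ℕ → List ℕ} (h : ∀ i, q i <:+ q (i + 1)) {i j : ℕ} (hij : i ≤ j) :
    q i <:+ q j := by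
  induction hij with
  | refl => exact List.suffix_refl _
  | step _ ih => exact ih.trans (h _)

theorem not_cons_suffix (d : ℕ) (u : List ℕ) : ¬ d :: u <:+ u := fun h => by
  simpa using h.length_le

def Dis (u w : List ℕ) : Prop := ¬ u <:+ w ∧ ¬ w <:+ u

theorem Dis.symm {u w : List ℕ} (h : Dis u w) : Dis w u := ⟨h.2, h.1⟩

theorem Dis.mono {u w u' w' : List ℕ} (h : Dis u w) (hu : u <:+ u') (hw : w <:+ w') :
    Dis u' w' :=
  ⟨fun h1 => (List.suffix_or_suffix_of_suffix (hu.trans h1) hw).elim h.1 h.2,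
    fun h1 => (List.suffix_or_suffix_of_suffix hu (hw.trans h1)).elim h.1 h.2⟩

theorem dis_cons {d d' : ℕ} (h : d ≠ d') (u : List ℕ) : Dis (d :: u) (d' :: u) :=
  ⟨fun h1 => h (List.cons.inj (h1.eq_of_length rfl)).1,
    fun h1 => h (List.cons.inj (h1.eq_of_length rfl)).1.symm⟩

theorem fin_bound {α : Type} {s : Set α} (hs : s.Finite) {P : α → ℕ → Prop}
    (h : ∀ a ∈ s, ∃ N, ∀ n, N ≤ n → P a n) : ∃ N, ∀ a ∈ s, ∀ n, N ≤ n → P a n := by
  choose! f hf using h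
  obtain ⟨N, hN⟩ := (hs.image f).bddAbove
  exact ⟨N, fun a ha n hn => hf a ha n ((hN ⟨a, ha, rfl⟩).trans hn)⟩

namespace Lam

variable {At Lab : Type} (X : Lam At Lab)

def NC (u : List ℕ) : Prop := ¬ X.Cl (X.Sub u)

def Top (u : List ℕ) : Set At := {a | ¬ X.pt a ∧ X.bl a = u}

def C (u : List ℕ) : Set At := {a | ∃ d, X.In a (d :: u) ∧ ¬ X.NC (d :: u)}

def E (x : At) : Prop := X.pt x ∧ ∀ u, X.In x u → X.NC u

structure Br (B : List ℕ → Prop) : Prop where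
  nc : ∀ s, B s → X.NC s
  cmp : ∀ s t, B s → B t → s <:+ t ∨ t <:+ s
  up : ∀ s t, B t → s <:+ t → B s
  ext : ∀ s, B s → ∃ d, B (d :: s)

def Ann (p q : List ℕ) : Set At := {a | X.In a p ∧ ¬ X.In a q}

def Big (A : Set At) (K : ℕ) (y : At) (Z : Finset At) : Prop :=
  Z.card = K ∧ y ∈ A ∧ ∀ z ∈ Z, z ∈ A ∧ X.Adj y z ∧ ∀ z' ∈ Z, X.lab z = X.lab z' ∧
    ∀ b, b ∉ A → X.Adj z b → X.Adj z' b

variable {X}
variable {a b x : At} {u v w p q : List ℕ} {S T : Set At} {B : List ℕ → Prop}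

theorem Dis_in (h : Dis u w) (h1 : X.In a u) (h2 : X.In a w) : False :=
  (h1.cmp h2).elim h.1 h.2

theorem cr_dis (h : Dis u w) : X.Cr (X.Sub u) (X.Sub w) False := fun _ ha _ hb =>
  ⟨fun e => Dis_in h ha (e ▸ hb), by simpa using fun m => Dis_in h (m.sub ha) hb,
    fun m => Dis_in h ha (m.sub hb)⟩

theorem m_out (ha : ¬ X.In a u) (hb : X.In b u) :
    X.M a b ↔ ¬ X.pt a ∧ X.pt b ∧ X.bl a <:+ u :=
  ⟨fun h => ⟨h.1, h.2.1, (h.2.2.cmp hb).resolve_right fun h' => ha ((in_fac h.1).2 h')⟩,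
    fun h => ⟨h.1, h.2.1, hb.mono h.2.2⟩⟩

theorem c_closed (ha : a ∈ X.C u) (h : X.M a b) : b ∈ X.C u := by
  obtain ⟨d, h1, h2⟩ := ha
  exact ⟨d, h.sub h1, h2⟩

theorem tri (h : X.In a u) : a ∈ X.Top u ∨ a ∈ X.C u ∨ ∃ d, X.In a (d :: u) ∧ X.NC (d :: u) := by
  by_cases h1 : a ∈ X.Top u
  · exact Or.inl h1
  obtain ⟨d, hd⟩ := h.step (by by_contra h2; push Not at h2; exact h1 h2)
  by_cases h2 : X.NC (d :: u)
  exacts [Or.inr (Or.inr ⟨d, hd, h2⟩), Or.inr (Or.inl ⟨d, hd, h2⟩)]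

theorem NC.nonempty (h : X.NC u) : ∃ a, X.In a u := by
  by_contra hc
  push Not at hc
  exact h (cl_one fun a ha => absurd ha (hc a))

theorem Br.long (hB : X.Br B) (h : B u) (n : ℕ) : ∃ t, B t ∧ u <:+ t ∧ n ≤ t.length := by
  induction n with
  | zero => exact ⟨u, h, List.suffix_refl _, Nat.zero_le _⟩
  | succ n ih =>
    obtain ⟨t, h1, h2, h3⟩ := ih
    obtain ⟨d, hd⟩ := hB.ext t h1
    exact ⟨_, hd, h2.trans (List.suffix_cons _ _), by simpa using h3⟩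

theorem Br.suffix (hB : X.Br B) (h : B u) (h' : B v) (hl : u.length ≤ v.length) : u <:+ v := by
  rcases hB.cmp u v h h' with h1 | h1
  · exact h1
  · rw [h1.eq_of_length (le_antisymm h1.length_le hl)]

theorem E.br (h : X.E x) : X.Br (X.In x) :=
  ⟨h.2, fun _ _ => In.cmp, fun _ _ => In.mono, fun _ hs => hs.step (Or.inl h.1)⟩

variable [Finite Lab] [Countable At]

theorem NC.mono (h : X.NC v) (huv : u <:+ v) : X.NC u :=
  fun h' => h (h'.sub fun _ ha => In.mono ha huv)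

theorem cl_noadj (h : ∀ a ∈ S, ∀ b ∈ S, ¬ X.M a b) : X.Cl S :=
  cl_of_deg (J := Unit) fun a ha => ⟨fun _ => a, fun b hb hab =>
    absurd hab (not_or.2 ⟨h a ha b hb, h b hb a ha⟩)⟩

theorem cl_top (u : List ℕ) : X.Cl (X.Top u) := cl_noadj fun _ _ _ hb h => hb.1 h.2.1

omit [Finite Lab] [Countable At] in
theorem cl_c (u : List ℕ) : X.Cl (X.C u) := by
  have : X.C u = ⋃ d ∈ {d | d < X.r u.length ∧ ¬ X.NC (d :: u)}, X.Sub (d :: u) := by
    ext a
    simp only [mem_iUnion, mem_ofPred_eq, exists_prop]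
    exact ⟨fun ⟨d, h1, h2⟩ => ⟨d, ⟨h1.lt, h2⟩, h1⟩, fun ⟨d, h1, h2⟩ => ⟨d, h2, h1.2⟩⟩
  rw [this]
  exact cl_biUnion ((finite_lt_nat _).subset fun d hd => hd.1) (fun d hd => not_not.1 hd.2)
    fun d d' h => cr_dis (dis_cons h u)

theorem NC.child (h : X.NC u) : ∃ d, X.NC (d :: u) := by
  by_contra hc
  push Not at hc
  refine h (((cl_top u).sum (cl_c u) (e := True) fun a ha b hb => ?_).sub fun a ha => ?_)
  · obtain ⟨d, hd, -⟩ := hb
    refine ⟨fun e => ?_, ⟨fun m => ⟨trivial, m.1, m.2.1⟩, fun m => ⟨m.2.1, m.2.2, ?_⟩⟩,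
      fun m => ha.1 m.2.1⟩
    · subst e
      exact not_cons_suffix d u (by simpa only [ha.2] using (in_fac ha.1).1 hd)
    · rw [ha.2]; exact hd.mono (List.suffix_cons _ _)
  · rcases tri ha with h1 | h1 | ⟨d, -, h1⟩
    exacts [Or.inl h1, Or.inr h1, absurd h1 (hc d)]

theorem NC.br (h : X.NC v) : ∃ B, X.Br B ∧ B v := by
  obtain ⟨s, s0, s1, s2⟩ := seq_ex X.NC (fun _ a a' => ∃ d, a' = d :: a) v h
    fun _ a ha => ha.child.elim fun d hd => ⟨_, hd, d, rfl⟩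
  have s3 : ∀ i, s i <:+ s (i + 1) := fun i => by
    obtain ⟨d, hd⟩ := s2 i; rw [hd]; exact List.suffix_cons _ _
  refine ⟨fun t => ∃ n, t <:+ s n, ⟨fun t ⟨n, hn⟩ => (s1 n).mono hn,
    fun t t' ⟨n, hn⟩ ⟨m, hm⟩ => List.suffix_or_suffix_of_suffix
      (hn.trans (suffix_chain s3 (le_max_left n m))) (hm.trans (suffix_chain s3 (le_max_right n m))),
    fun t t' ⟨n, hn⟩ h => ⟨n, h.trans hn⟩, fun t ⟨n, hn⟩ => ?_⟩, 0, s0 ▸ List.suffix_refl _⟩
  obtain ⟨d, hd⟩ := s2 n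
  obtain ⟨l, hl⟩ := hn
  rcases l.eq_nil_or_concat with rfl | ⟨l, e, rfl⟩
  · exact ⟨d, n + 1, by rw [hd, ← hl]; simp⟩
  · exact ⟨e, n, l, by rw [← hl]; simp⟩

omit [Finite Lab] [Countable At] in
theorem stab {Y : Type} (r : Y → Y → Prop) (loc : Y → List ℕ → Prop)
    (hm : ∀ y u v, loc y v → u <:+ v → loc y u)
    (hw : ∀ f : ℕ → Y, ∃ i j, i < j ∧ r (f i) (f j)) (h : X.NC u) :
    ∃ u0, u <:+ u0 ∧ X.NC u0 ∧ ∀ y, loc y u0 → ∀ v, u0 <:+ v → X.NC v →
      ∃ y', loc y' v ∧ r y y' := by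
  by_contra hc
  push Not at hc
  obtain ⟨s, -, -, s2⟩ := seq_ex (fun v => u <:+ v ∧ X.NC v)
    (fun _ v v' => v <:+ v' ∧ ∃ y, loc y v ∧ ∀ y', loc y' v' → ¬ r y y') u
    ⟨List.suffix_refl _, h⟩ fun _ v hv => by
      obtain ⟨y, h1, v', h2, h3, h4⟩ := hc v hv.1 hv.2
      exact ⟨v', ⟨hv.1.trans h2, h3⟩, h2, y, h1, h4⟩
  choose s3 y hy hy' using s2
  obtain ⟨i, j, hij, hr⟩ := hw y
  exact hy' i _ (hm _ _ _ (hy j) (suffix_chain s3 hij)) hr

theorem NC.offpt (h : X.NC u) (x : At) : ∃ x', x' ≠ x ∧ X.pt x' ∧ X.In x' u := by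
  by_contra hc
  push Not at hc
  have k : ∀ b, X.In b u → X.pt b → b = x := fun b h1 h2 => by
    by_contra h3; exact hc b h3 h2 h1
  apply h
  rw [← inter_union_sdiff (X.Sub u) {a | X.M a x}]
  refine Cl.sum (e := True) (cl_noadj fun a _ b hb m => hb.2.1 m.2.1)
    (cl_noadj fun a ha b hb m => ha.2 (k b hb.1 m.2.1 ▸ m)) fun a ha b hb => ?_
  exact ⟨fun e => hb.2 (e ▸ ha.2), ⟨fun m => ⟨trivial, m.1, m.2.1⟩,
    fun m => (k b hb.1 m.2.2).symm ▸ ha.2⟩, fun m => ha.2.1 m.2.1⟩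

theorem Br.big (hB : X.Br B) (hp : B p) (K : ℕ) :
    ∃ q, B q ∧ p <:+ q ∧ ∃ y Z, X.Big (X.Ann p q) K y Z := by
  classical
  have := Fintype.ofFinite Lab
  let off : At → Prop := fun a => ∃ N, ∀ n, N ≤ n → ∀ q, B q → q.length = n → ¬ X.In a q
  have o0 : ∀ a, ¬ off a → ∀ q, B q → X.In a q := by
    intro a ha q hq
    simp only [off] at ha
    push Not at ha
    obtain ⟨n, hn, t, h1, h2, h3⟩ := ha q.length
    exact h3.mono (hB.suffix hq h1 (h2 ▸ hn))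
  have o1 : ∀ a b, ¬ off a → ¬ off b → a = b := by
    intro a b ha hb
    by_contra hab
    obtain ⟨N, hN⟩ := sep' (X := X) hab
    obtain ⟨t, h1, -, h2⟩ := hB.long hp N
    exact absurd (hN t (o0 a ha t h1) (o0 b hb t h1)) (not_lt.2 h2)
  have o2 : ∀ a, ¬ X.pt a → off a := fun a ha =>
    ⟨X.dep a + 1, fun n hn q _ hq h => by have := h.1.resolve_left ha; omega⟩
  obtain ⟨y, hy, Z, hZ, hyZ⟩ : ∃ y, (X.In y p ∧ off y) ∧ ∃ Z : Finset At,
      Fintype.card (Lab × Prop) * K ≤ Z.card ∧ ∀ z ∈ Z, (X.In z p ∧ off z) ∧ X.Adj y z := by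
    obtain ⟨y, hy, Z, hZ, hyZ⟩ := big_pair (hB.nc p hp) (Fintype.card (Lab × Prop) * K + 1)
    by_cases hyo : off y
    · refine ⟨y, ⟨hy, hyo⟩, Z.filter off, ?_, fun z hz => ?_⟩
      · have h1 := Finset.card_filter_add_card_filter_not (s := Z) off
        have h2 : (Z.filter fun a => ¬ off a).card ≤ 1 := Finset.card_le_one.2 fun a ha b hb =>
          o1 a b (Finset.mem_filter.1 ha).2 (Finset.mem_filter.1 hb).2
        omega
      · have := Finset.mem_filter.1 hz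
        exact ⟨⟨(hyZ z this.1).1, this.2⟩, (hyZ z this.1).2⟩
    · have hyp : X.pt y := by_contra fun h => hyo (o2 y h)
      have hz : ∀ z ∈ Z, X.M z y := fun z hz => (hyZ z hz).2.resolve_left fun h => h.1 hyp
      obtain ⟨t, h1, h2, h3⟩ := hB.long hp (Z.sup X.dep)
      obtain ⟨y', k1, k2, k3⟩ := (hB.nc t h1).offpt y
      refine ⟨y', ⟨k3.mono h2, by_contra fun h => k1 (o1 _ _ h hyo)⟩, Z, by omega, fun z hz' =>
        ⟨⟨(hyZ z hz').1, o2 z (hz z hz').1⟩, Or.inr ⟨(hz z hz').1, k2, k3.mono ?_⟩⟩⟩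
      exact (hz z hz').2.2.suffix (o0 y hyo t h1)
        (by simpa [bl] using (Finset.le_sup hz').trans h3)
  obtain ⟨N, hN⟩ := fin_bound (insert y Z).finite_toSet
    (P := fun a n => ∀ q, B q → q.length = n → ¬ X.In a q) fun a ha => by
      rcases Finset.mem_insert.1 ha with rfl | ha
      exacts [hy.2, (hyZ a ha).1.2]
  obtain ⟨q, q1, q2, q3⟩ := hB.long hp N
  have hq : ∀ a ∈ insert y Z, ¬ X.In a q := fun a ha => hN a ha _ q3 q q1 rfl
  have : Nonempty Lab := ⟨X.lab y⟩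
  obtain ⟨c, -, hc⟩ := Finset.exists_le_card_fiber_of_mul_le_card_of_maps_to
    (f := fun z => (X.lab z, X.bl z <:+ q)) (s := Z) (t := Finset.univ)
    (fun _ _ => Finset.mem_univ _) Finset.univ_nonempty hZ
  obtain ⟨Z', h1, h2⟩ := Finset.exists_subset_card_eq hc
  refine ⟨q, q1, q2, y, Z', h2, ⟨hy.1, hq y (by simp)⟩, fun z hz => ?_⟩
  obtain ⟨hz1, hz2⟩ := Finset.mem_filter.1 (h1 hz)
  refine ⟨⟨(hyZ z hz1).1.1, hq z (by simp [hz1])⟩, (hyZ z hz1).2, fun z' hz' => ?_⟩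
  obtain ⟨hz3, hz4⟩ := Finset.mem_filter.1 (h1 hz')
  obtain ⟨e1, e2⟩ := Prod.mk.inj (hz2.trans hz4.symm)
  refine ⟨e1, fun b hb => ?_⟩
  have hb' : X.In b p → X.In b q := fun h => by_contra fun h' => hb ⟨h, h'⟩
  rintro (m | m)
  · have m1 := hb' (m.sub (hyZ z hz1).1.1)
    have m2 := ((m_out (hq z (by simp [hz1])) m1).1 m).2.2
    exact Or.inl ⟨fun h => m.1 ((pt_iff e1).2 h), m.2.1, m1.mono (e2 ▸ m2)⟩
  · have m1 : ¬ X.In b p := fun h => hq z (by simp [hz1]) (m.sub (hb' h))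
    have m2 := (m_out m1 (hyZ z hz1).1.1).1 m
    exact Or.inr ((m_out m1 (hyZ z' hz3).1.1).2 ⟨m2.1, (pt_iff e1).1 m2.2.1, m2.2.2⟩)

end Lam

end Pool.Agent.MP_2a6d4e_co.h30

end MrgPart1

-- ======== part 2: formerly Pool.Agent.MP_2a6d4e_co.h30.Asm
section MrgPart2

/-! Assembling a self-embedding from local data along the tree of non-cellular nodes. -/

namespace Pool.Agent.MP_2a6d4e_co.h30

open Set Function

structure Dat (At : Type) where
  v : List ℕ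
  T : Set At
  h1 : At → At
  h2 : At → At

instance (At : Type) : Nonempty (Dat At) := ⟨⟨[], ∅, id, id⟩⟩

namespace Lam

variable {At Lab : Type} (X : Lam At Lab)

structure Stp (u ρ : List ℕ) (ρ' : ℕ → List ℕ) (δ : Dat At) : Prop where
  rv : ρ <:+ δ.v
  top : X.TE (X.Top u) {a | ¬ X.pt a ∧ ρ <:+ X.bl a ∧ X.bl a <:+ δ.v} δ.h1
  c : X.TE (X.C u) δ.T δ.h2
  low : ∀ a ∈ δ.T, ∃ d, X.In a (d :: δ.v)
  cl : ∀ a ∈ δ.T, ∀ b, X.M a b → b ∈ δ.T
  ch : ∀ d, X.NC (d :: u) → ∃ d', d' :: δ.v <:+ ρ' d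
  off : ∀ d, X.NC (d :: u) → ∀ a ∈ δ.T, ¬ X.In a (ρ' d)
  dis : ∀ d d', d ≠ d' → X.NC (d :: u) → X.NC (d' :: u) → Dis (ρ' d) (ρ' d')

/-- A self-embedding that misses infinitely many separated sets with large twin classes. -/
def Out : Prop := ∃ g, X.TE univ univ g ∧ ∃ (A : ℕ → Set At) (y : ℕ → At) (Z : ℕ → Finset At),
  (∀ k, X.Big (A k) (3 * k + 3) (y k) (Z k)) ∧ (∀ k b, g b ∉ A k) ∧
  (∀ j k, j ≠ k → Disjoint (A j) (A k)) ∧
  ∀ j k, j ≠ k → (∀ z ∈ Z j, ¬ X.Adj (y k) z) ∨ ∀ z ∈ Z k, ¬ X.Adj (y j) z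

variable {X}
variable {a b x : At} {u v w : List ℕ} {S T : Set At} {B : List ℕ → Prop}

theorem out_of {g : At → At} (hg : X.TE univ univ g) (p q : ℕ → List ℕ)
    (h1 : ∀ k, p k <:+ q k) (h2 : ∀ k, q k <:+ p (k + 1))
    (h3 : ∀ k, ∃ y Z, X.Big (X.Ann (p k) (q k)) (3 * k + 3) y Z)
    (h4 : ∀ k b, g b ∉ X.Ann (p k) (q k)) : X.Out := by
  choose y Z h3 using h3
  have k1 : ∀ j k, j < k → ∀ a, X.In a (p k) → X.In a (q j) := fun j k h a ha =>
    ha.mono ((h2 j).trans (suffix_chain (fun i => (h1 i).trans (h2 i)) h))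
  have k2 : ∀ j k, j < k → (∀ z ∈ Z j, ¬ X.Adj (y k) z) ∨ ∀ z ∈ Z k, ¬ X.Adj (y j) z := by
    intro j k h
    by_cases hp : X.pt (y k)
    · refine Or.inr fun z hz => ?_
      have h5 := (h3 k).2.2 z hz
      rintro (m | m)
      · exact (h5.2.1.resolve_left fun m' => m'.1 hp).1 m.2.1
      · exact (h3 j).2.1.2 (m.sub (k1 j k h z h5.1.1))
    · refine Or.inl fun z hz => ?_
      rintro (m | m)
      · exact ((h3 j).2.2 z hz).1.2 (m.sub (k1 j k h _ (h3 k).2.1.1))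
      · exact hp m.2.1
  refine ⟨g, hg, _, y, Z, h3, h4, fun j k h => ?_, fun j k h => ?_⟩
  · rcases lt_or_gt_of_ne h with h | h
    · exact disjoint_left.2 fun a ha hb => ha.2 (k1 j k h a hb.1)
    · exact disjoint_left.2 fun a ha hb => hb.2 (k1 k j h a ha.1)
  · rcases lt_or_gt_of_ne h with h | h
    exacts [k2 j k h, (k2 k j h).symm]

variable [Finite Lab] [Countable At]

theorem c_not (ha : a ∈ X.C u) (hw : X.In a w) (hn : X.NC w) : w <:+ u := by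
  obtain ⟨d, h1, h2⟩ := ha
  rcases h1.cmp hw with h | h
  · exact absurd (hn.mono h) h2
  · rcases List.suffix_cons_iff.1 h with rfl | h
    exacts [absurd hn h2, h]

omit [Finite Lab] [Countable At] in
theorem c_in (ha : a ∈ X.C u) : X.In a u := ha.elim fun _ h => h.1.mono (List.suffix_cons _ _)

omit [Finite Lab] [Countable At] in
theorem top_in (ha : a ∈ X.Top u) : X.In a u := ha.2 ▸ in_bl a

theorem locate (ha : X.In a u) (hu : X.NC u) :
    (∃ w, u <:+ w ∧ X.NC w ∧ (a ∈ X.Top w ∨ a ∈ X.C w)) ∨ X.E a := by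
  refine or_iff_not_imp_left.2 fun hc => ?_
  have key : ∀ n, ∃ w, u <:+ w ∧ X.NC w ∧ X.In a w ∧ n ≤ w.length := by
    intro n
    induction n with
    | zero => exact ⟨u, List.suffix_refl _, hu, ha, Nat.zero_le _⟩
    | succ n ih =>
      obtain ⟨w, h1, h2, h3, h4⟩ := ih
      rcases tri h3 with h | h | ⟨d, h5, h6⟩
      · exact absurd ⟨w, h1, h2, Or.inl h⟩ hc
      · exact absurd ⟨w, h1, h2, Or.inr h⟩ hc
      · exact ⟨_, h1.trans (List.suffix_cons _ _), h6, h5, by simpa using h4⟩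
  refine ⟨by_contra fun hp => ?_, fun s hs => ?_⟩
  · obtain ⟨w, -, -, h1, h2⟩ := key (X.dep a + 1)
    have := h1.1.resolve_left hp
    omega
  · obtain ⟨w, -, h1, h2, h3⟩ := key s.length
    exact h1.mono (hs.suffix h2 h3)

theorem assemble {u0 : List ℕ} (h0 : X.NC u0) (ρ : List ℕ → List ℕ) (δ : List ℕ → Dat At)
    (c : At → At) (hρ : u0 <:+ ρ u0)
    (H : ∀ u, u0 <:+ u → X.NC u → X.Stp u (ρ u) (fun d => ρ (d :: u)) (δ u))
    (Hc : ∀ x, X.E x → X.In x u0 → X.lab (c x) = X.lab x ∧ ∃ u1, u0 <:+ u1 ∧ X.In x u1 ∧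
      ∀ u, u1 <:+ u → X.In x u → X.In (c x) (ρ u)) :
    ∃ g, X.TE univ univ g ∧ (∀ a, ¬ X.In a u0 → g a = a) ∧ ∀ u, u0 <:+ u → X.NC u →
      (∀ a, X.In a u → X.In (g a) (ρ u)) ∧ (∀ a ∈ X.Top u, g a = (δ u).h1 a) ∧
      ∀ a ∈ X.C u, g a = (δ u).h2 a := by
  classical
  obtain ⟨g, g0, g1, g2, g3⟩ : ∃ g : At → At, (∀ a, ¬ X.In a u0 → g a = a) ∧
      (∀ u, u0 <:+ u → X.NC u → ∀ a ∈ X.Top u, g a = (δ u).h1 a) ∧
      (∀ u, u0 <:+ u → X.NC u → ∀ a ∈ X.C u, g a = (δ u).h2 a) ∧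
      ∀ x, X.E x → X.In x u0 → g x = c x := by
    refine ⟨fun a => if h : ∃ u, u0 <:+ u ∧ X.NC u ∧ a ∈ X.C u then (δ h.choose).h2 a else
      if X.In a u0 then if X.pt a then c a else (δ (X.bl a)).h1 a else a, fun a ha => ?_,
      fun u hu hn a ha => ?_, fun u hu hn a ha => ?_, fun x hx hx' => ?_⟩ <;> beta_reduce
    · rw [dif_neg, if_neg ha]
      rintro ⟨u, h1, -, h2⟩
      exact ha ((c_in h2).mono h1)
    · rw [dif_neg, if_pos ((top_in ha).mono hu), if_neg ha.1, ha.2]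
      rintro ⟨w, -, -, d, h1, h2⟩
      exact h2 (hn.mono (ha.2 ▸ (in_fac ha.1).1 h1))
    · have h : ∃ u, u0 <:+ u ∧ X.NC u ∧ a ∈ X.C u := ⟨u, hu, hn, ha⟩
      rw [dif_pos h]
      obtain ⟨-, h1, h2⟩ := h.choose_spec
      rw [List.IsSuffix.eq_of_length (c_not ha (c_in h2) h1)
        (le_antisymm (c_not ha (c_in h2) h1).length_le (c_not h2 (c_in ha) hn).length_le)]
    · rw [dif_neg, if_pos hx', if_pos hx.1]
      rintro ⟨w, -, -, d, h1, h2⟩
      exact h2 (hx.2 _ h1)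
  have K0 : ∀ u, u0 <:+ u → ∀ w, u <:+ w → X.NC w → ρ u <:+ ρ w := by
    intro u hu w
    induction w with
    | nil => intro h _; rw [List.suffix_nil.1 h]
    | cons d w ih =>
      intro h hn
      rcases List.suffix_cons_iff.1 h with rfl | h
      · exact List.suffix_refl _
      · have hw := hn.mono (List.suffix_cons d w)
        have s := H w (hu.trans h) hw
        obtain ⟨d', hd'⟩ := s.ch d hn
        exact (ih h hw).trans (s.rv.trans ((List.suffix_cons _ _).trans hd'))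
  have K1 : ∀ u, u0 <:+ u → X.NC u → ∀ a, X.In a u →
      X.In (g a) (ρ u) ∧ X.lab (g a) = X.lab a := by
    intro u hu hn a ha
    rcases locate ha hn with ⟨w, h1, h2, h | h⟩ | h
    · have s := H w (hu.trans h1) h2
      rw [g1 w (hu.trans h1) h2 a h]
      have := s.top.maps h
      exact ⟨((in_fac this.1).2 this.2.1).mono (K0 u hu w h1 h2), s.top.lab h⟩
    · have s := H w (hu.trans h1) h2
      rw [g2 w (hu.trans h1) h2 a h]
      obtain ⟨d, hd⟩ := s.low _ (s.c.maps h)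
      exact ⟨hd.mono ((K0 u hu w h1 h2).trans (s.rv.trans (List.suffix_cons _ _))), s.c.lab h⟩
    · obtain ⟨h1, u1, h2, h3, h4⟩ := Hc a h (ha.mono hu)
      rw [g3 a h (ha.mono hu)]
      refine ⟨?_, h1⟩
      rcases h3.cmp ha with h5 | h5
      · exact h4 u h5 ha
      · exact (h4 u1 (List.suffix_refl _) h3).mono (K0 u hu u1 h5 (h.2 _ h3))
  have K2 : ∀ a b, a ≠ b → X.In a u0 → X.In b u0 →
      g a ≠ g b ∧ (X.M (g a) (g b) ↔ X.M a b) := by
    intro a b hab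
    obtain ⟨N, hN⟩ := sep' (X := X) hab
    suffices ∀ k u, u0 <:+ u → X.NC u → N ≤ u.length + k → X.In a u → X.In b u →
        g a ≠ g b ∧ (X.M (g a) (g b) ↔ X.M a b) from
      this N u0 (List.suffix_refl _) h0 (by omega)
    intro k
    induction k with
    | zero => intro u _ _ h ha hb; exact absurd (hN u ha hb) (by omega)
    | succ k ih =>
    intro u hu hn hk ha hb
    by_cases hd : ∃ d, X.NC (d :: u) ∧ X.In a (d :: u) ∧ X.In b (d :: u)
    · obtain ⟨d, h1, h2, h3⟩ := hd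
      exact ih _ (hu.trans (List.suffix_cons _ _)) h1 (by simp; omega) h2 h3
    have s := H u hu hn
    have pt : ∀ a, X.In a u → (X.pt (g a) ↔ X.pt a) := fun a ha => pt_iff (K1 u hu hn a ha).2
    have ch : ∀ a d, X.In a (d :: u) → X.NC (d :: u) → X.In (g a) (ρ (d :: u)) :=
      fun a d h1 h2 => (K1 _ (hu.trans (List.suffix_cons _ _)) h2 a h1).1
    have gc : ∀ a ∈ X.C u, g a ∈ (δ u).T := fun a h => g2 u hu hn a h ▸ s.c.maps h
    have low : ∀ a, X.In a u → a ∉ X.Top u → ∃ d, X.In (g a) (d :: (δ u).v) := by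
      intro a ha h
      rcases (tri ha).resolve_left h with h | ⟨d, h1, h2⟩
      · exact s.low _ (gc a h)
      · obtain ⟨d', hd'⟩ := s.ch d h2
        exact ⟨d', (ch a d h1 h2).mono hd'⟩
    have tp : ∀ a ∈ X.Top u, ¬ X.pt (g a) ∧ X.bl (g a) <:+ (δ u).v := fun a h => by
      have := s.top.maps h
      rw [← g1 u hu hn a h] at this
      exact ⟨this.1, this.2.2⟩
    have ne : ∀ a ∈ X.Top u, ∀ b, X.In b u → b ∉ X.Top u → g a ≠ g b := by
      intro a ha b hb hb' h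
      obtain ⟨d, hd⟩ := low b hb hb'
      rw [← h] at hd
      exact not_cons_suffix _ _ (((in_fac (tp a ha).1).1 hd).trans (tp a ha).2)
    by_cases ta : a ∈ X.Top u
    · by_cases tb : b ∈ X.Top u
      · rw [g1 u hu hn a ta, g1 u hu hn b tb]
        exact ⟨s.top.ne ta tb hab, s.top.m ta tb⟩
      · obtain ⟨d, hd⟩ := low b hb tb
        exact ⟨ne a ta b hb tb, fun m => ⟨ta.1, (pt b hb).1 m.2.1, ta.2.symm ▸ hb⟩, fun m =>
          ⟨(tp a ta).1, (pt b hb).2 m.2.1, hd.mono ((tp a ta).2.trans (List.suffix_cons _ _))⟩⟩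
    by_cases tb : b ∈ X.Top u
    · exact ⟨(ne b tb a ha ta).symm, iff_of_false (fun m => (tp b tb).1 m.2.1)
        fun m => tb.1 m.2.1⟩
    rcases (tri ha).resolve_left ta with ca | ⟨d, a1, a2⟩ <;>
      rcases (tri hb).resolve_left tb with cb | ⟨e, b1, b2⟩
    · rw [g2 u hu hn a ca, g2 u hu hn b cb]
      exact ⟨s.c.ne ca cb hab, s.c.m ca cb⟩
    · exact ⟨fun h => s.off e b2 _ (gc a ca) (h ▸ ch b e b1 b2), iff_of_false
        (fun m => s.off e b2 _ (s.cl _ (gc a ca) _ m) (ch b e b1 b2))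
        fun m => not_cons_suffix _ _ (c_not (c_closed ca m) b1 b2)⟩
    · exact ⟨fun h => s.off d a2 _ (gc b cb) (h ▸ ch a d a1 a2), iff_of_false
        (fun m => s.off d a2 _ (gc b cb) (m.sub (ch a d a1 a2)))
        fun m => not_cons_suffix _ _ (c_not cb (m.sub a1) a2)⟩
    · have hde : d ≠ e := fun h => hd ⟨d, a2, a1, h ▸ b1⟩
      have c1 := cr_dis (s.dis d e hde a2 b2) _ (ch a d a1 a2) _ (ch b e b1 b2)
      have c2 := cr_dis (dis_cons hde u) a a1 b b1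
      exact ⟨c1.1, by rw [c1.2.1, c2.2.1]; simp⟩
  have K3 := K1 u0 (List.suffix_refl _) h0
  refine ⟨g, te_of (fun a _ => ⟨trivial, ?_⟩) fun a _ b _ hab => ?_, g0,
    fun u hu hn => ⟨fun a ha => (K1 u hu hn a ha).1, g1 u hu hn, g2 u hu hn⟩⟩
  · by_cases ha : X.In a u0
    exacts [(K3 a ha).2, by rw [g0 a ha]]
  · by_cases ha : X.In a u0 <;> by_cases hb : X.In b u0
    · exact K2 a b hab ha hb
    · rw [g0 b hb]
      have h1 := (K3 a ha).1.mono hρ
      exact ⟨fun h => hb (h ▸ h1), iff_of_false (fun m => hb (m.sub h1)) fun m => hb (m.sub ha)⟩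
    · rw [g0 a ha]
      have h1 := (K3 b hb).1.mono hρ
      exact ⟨fun h => ha (h ▸ h1), by rw [m_out ha h1, m_out ha hb, pt_iff (K3 b hb).2]⟩
    · rw [g0 a ha, g0 b hb]; exact ⟨hab, Iff.rfl⟩

variable (X) in
def Dom (w w' : List ℕ) : Prop := X.Le (X.Top w) (X.Top w') ∧ X.Le (X.C w) (X.C w')

theorem stab_dom (h : X.NC u) : ∃ u0, u <:+ u0 ∧ X.NC u0 ∧ ∀ w, u0 <:+ w → X.NC w →
    ∀ v, u0 <:+ v → X.NC v → ∃ w', v <:+ w' ∧ X.NC w' ∧ X.Dom w w' := by
  obtain ⟨u0, h1, h2, h3⟩ := stab X.Dom (fun w u => u <:+ w ∧ X.NC w)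
    (fun _ _ _ h h' => ⟨h'.trans h.1, h.2⟩) (fun f => (wqo.prod wqo).exists_lt
      (f := fun i => (X.Top (f i), X.C (f i))) fun i => ⟨cl_top _, cl_c _⟩) h
  exact ⟨u0, h1, h2, fun w hw hn v hv hv' => by simpa [and_assoc] using h3 w ⟨hw, hn⟩ v hv hv'⟩

theorem out_chain (h : X.NC u)
    (hc : ∀ s t, u <:+ s → u <:+ t → X.NC s → X.NC t → s <:+ t ∨ t <:+ s) : X.Out := by
  obtain ⟨u0, hu, h0, S1⟩ := stab_dom h
  have hB : X.Br fun s => X.NC s ∧ (u0 <:+ s ∨ s <:+ u0) := by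
    refine ⟨fun s hs => hs.1, ?_, fun s t ht hs => ⟨ht.1.mono hs, ?_⟩, ?_⟩
    · rintro s t ⟨h1, h2 | h2⟩ ⟨h3, h4 | h4⟩
      exacts [hc s t (hu.trans h2) (hu.trans h4) h1 h3, Or.inr (h4.trans h2), Or.inl (h2.trans h4),
        List.suffix_or_suffix_of_suffix h2 h4]
    · exact ht.2.elim (fun h1 => List.suffix_or_suffix_of_suffix h1 hs) fun h1 =>
        Or.inr (hs.trans h1)
    · rintro s ⟨h1, h2 | ⟨l, hl⟩⟩
      · exact h1.child.imp fun d hd => ⟨hd, Or.inl (h2.trans (List.suffix_cons _ _))⟩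
      · rcases l.eq_nil_or_concat with rfl | ⟨l, e, rfl⟩
        · exact h1.child.imp fun d hd => ⟨hd, Or.inl (by rw [← hl]; simp)⟩
        · have : e :: s <:+ u0 := ⟨l, by rw [← hl]; simp⟩
          exact ⟨e, h0.mono this, Or.inr this⟩
  have uq : ∀ s t, u0 <:+ s → u0 <:+ t → X.NC s → X.NC t → s.length = t.length → s = t :=
    fun s t h1 h2 h3 h4 h5 => (hB.suffix ⟨h3, Or.inl h1⟩ ⟨h4, Or.inl h2⟩ h5.le).eq_of_length h5
  obtain ⟨ρ, dt, e0, H⟩ := tree_rec (δ := Dat At × List ℕ) X.NC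
    (fun _ ρ => u0 <:+ ρ ∧ X.NC ρ)
    (fun u ρ x ρ' => X.Stp u ρ ρ' x.1 ∧ (∃ d, x.2 = d :: x.1.v) ∧ X.NC x.2 ∧ x.1.T = X.C x.1.v ∧
      ∀ d, X.NC (d :: u) → x.2 <:+ ρ' d ∧
        ∃ y Z, X.Big (X.Ann x.2 (ρ' d)) (3 * (u.length - u0.length) + 3) y Z)
    u0 u0 ⟨List.suffix_refl _, h0⟩ (fun d u h => h.mono (List.suffix_cons _ _)) (by
      intro u ρ h1 h2 ⟨h3, h4⟩
      obtain ⟨w, w1, w2, ⟨f1, hf1⟩, f2, hf2⟩ := S1 u h1 h2 ρ h3 h4
      obtain ⟨d, hd⟩ := w2.child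
      have hd' : u0 <:+ d :: w := h3.trans (w1.trans (List.suffix_cons _ _))
      obtain ⟨q, q1, q2, q3⟩ := hB.big ⟨hd, Or.inl hd'⟩ (3 * (u.length - u0.length) + 3)
      refine ⟨(⟨w, X.C w, f1, f2⟩, d :: w), fun _ => q, ⟨⟨w1, hf1.mono_right fun a ha =>
        ⟨ha.1, ha.2.symm ▸ w1, ha.2.symm ▸ List.suffix_refl _⟩, hf2, fun a ha => ha.imp fun _ h => h.1,
        fun a ha b m => c_closed ha m, fun _ _ => ⟨d, q2⟩, fun _ _ a ha h => ?_,
        fun e e' he k1 k2 => ?_⟩, ⟨d, rfl⟩, hd, rfl, fun _ _ => ⟨q2, q3⟩⟩,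
        fun _ _ => ⟨hd'.trans q2, q1.1⟩⟩
      · exact not_cons_suffix _ _ (c_not ha (h.mono q2) hd)
      · exact absurd (List.cons.inj (uq _ _ (h1.trans (List.suffix_cons _ _))
          (h1.trans (List.suffix_cons _ _)) k1 k2 rfl)).1 he)
  obtain ⟨g, hg, g0, g1⟩ := assemble h0 ρ (fun u => (dt u).1) id (e0.symm ▸ List.suffix_refl _)
    (fun u h1 h2 => (H u h1 h2).2.1) fun x hx hx' => ⟨rfl, u0, List.suffix_refl _, hx',
      fun u h1 h2 => by
        obtain ⟨k1, k2⟩ := (H u h1 (hx.2 u h2)).1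
        have k3 := in_ad hx.1 (ρ u).length
        rwa [uq _ _ (hx'.suffix k3 (by simpa using k1.length_le)) k1 (hx.2 _ k3) k2 (by simp)] at k3⟩
  obtain ⟨s, s0, s1, s2⟩ := seq_ex (fun a => u0 <:+ a ∧ X.NC a) (fun _ a a' => ∃ d, a' = d :: a) u0
    ⟨List.suffix_refl _, h0⟩ fun _ a ha => ha.2.child.elim fun d hd =>
      ⟨_, ⟨ha.1.trans (List.suffix_cons _ _), hd⟩, d, rfl⟩
  choose d hd using s2
  have sl : ∀ k, (s k).length - u0.length = k := by
    have : ∀ k, (s k).length = u0.length + k := by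
      intro k
      induction k with
      | zero => rw [s0]; rfl
      | succ k ih => rw [hd, List.length_cons, ih]; rfl
    intro k; rw [this]; omega
  have R := fun k => (H _ (s1 k).1 (s1 k).2).2
  have R1 := fun k => (R k).2.2.2.2 (d k) (hd k ▸ (s1 (k + 1)).2)
  have R2 : ∀ k, ρ (s k) <:+ (dt (s k)).2 := fun k => by
    obtain ⟨e, he⟩ := (R k).2.1
    rw [he]; exact (R k).1.rv.trans (List.suffix_cons _ _)
  simp only [← hd, sl] at R1
  refine out_of hg (fun k => (dt (s k)).2) (fun k => ρ (s (k + 1))) (fun k => (R1 k).1)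
    (fun k => R2 _) (fun k => (R1 k).2) fun k b hb => ?_
  have st : ∀ k, (¬ X.In b (s k) → ¬ X.In (g b) (ρ (s k))) → ¬ X.In b (s (k + 1)) →
      ¬ X.In (g b) (dt (s k)).2 := by
    intro k ih h1 h2
    by_cases h3 : X.In b (s k)
    · obtain ⟨e, he⟩ := (R k).2.1
      have G := g1 _ (s1 k).1 (s1 k).2
      rcases tri h3 with h4 | h4 | ⟨e', h4, h5⟩
      · have := (R k).1.top.maps h4
        rw [← G.2.1 b h4] at this
        exact not_cons_suffix _ _ (he ▸ ((in_fac this.1).1 h2).trans this.2.2)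
      · have := (R k).1.c.maps h4
        rw [← G.2.2 b h4, (R k).2.2.2.1] at this
        exact not_cons_suffix _ _ (he ▸ c_not this h2 (R k).2.2.1)
      · refine h1 ?_
        rwa [uq _ _ (s1 (k + 1)).1 ((s1 k).1.trans (List.suffix_cons e' _)) (s1 (k + 1)).2 h5
          (by rw [hd]; rfl)]
    · exact ih h3 (h2.mono (R2 k))
  have key : ∀ k, ¬ X.In b (s k) → ¬ X.In (g b) (ρ (s k)) := by
    intro k
    induction k with
    | zero => intro h1; rw [s0] at h1 ⊢; rwa [e0, g0 b h1]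
    | succ k ih => exact fun h1 h2 => st k ih h1 (h2.mono (R1 k).1)
  by_cases h1 : X.In b (s (k + 1))
  · exact hb.2 ((g1 _ (s1 _).1 (s1 _).2).1 b h1)
  · exact st k (key k) h1 hb.1

end Lam

end Pool.Agent.MP_2a6d4e_co.h30

end MrgPart2

-- ======== part 3: formerly Pool.Agent.MP_2a6d4e_co.h30.Perf
section MrgPart3

/-! The case of a perfect tree of non-cellular nodes, and the dichotomy. -/

namespace Pool.Agent.MP_2a6d4e_co.h30

open Set Function

namespace Lam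

variable {At Lab : Type} (X : Lam At Lab)

def L1 (x : At) (l : Lab) : Prop := ∀ n, ∃ a, X.lab a = l ∧ X.M a x ∧ n ≤ X.dep a

def L2 (x : At) (l : Lab) : Prop :=
  ∀ n, ∃ w, X.In x w ∧ n ≤ w.length ∧ {a | a ∈ X.Top w ∧ X.lab a = l}.Infinite

def ty (x : At) : Lab × (Lab → Prop) × (Lab → Prop) := (X.lab x, X.L1 x, X.L2 x)

def Ok (x : At) (w : List ℕ) : Prop := ∀ l, ((∃ a ∈ X.Top w, X.lab a = l) → X.L1 x l) ∧
  ({a | a ∈ X.Top w ∧ X.lab a = l}.Infinite → X.L2 x l)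

variable {X}
variable {a b c x : At} {u v w ρ : List ℕ} {B : List ℕ → Prop}

theorem tail [Finite Lab] (hx : X.pt x) : ∃ N, ∀ w, X.In x w → N ≤ w.length → X.Ok x w := by
  obtain ⟨N, hN⟩ := fin_bound (finite_univ (α := Lab)) (P := fun l n => ∀ w, X.In x w →
      w.length = n → ((∃ a ∈ X.Top w, X.lab a = l) → X.L1 x l) ∧
        ({a | a ∈ X.Top w ∧ X.lab a = l}.Infinite → X.L2 x l)) fun l _ => by
    obtain ⟨n1, h1⟩ : ∃ n1, ∀ w, X.In x w → n1 ≤ w.length →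
        (∃ a ∈ X.Top w, X.lab a = l) → X.L1 x l := by
      by_cases h : X.L1 x l
      · exact ⟨0, fun _ _ _ _ => h⟩
      · obtain ⟨n, hn⟩ := not_forall.1 h
        refine ⟨n, fun w h1 h2 ⟨a, ha, hl⟩ => absurd ⟨a, hl, ⟨ha.1, hx, ha.2.symm ▸ h1⟩, ?_⟩ hn⟩
        rwa [← ha.2, bl, length_ad] at h2
    obtain ⟨n2, h2⟩ : ∃ n2, ∀ w, X.In x w → n2 ≤ w.length →
        {a | a ∈ X.Top w ∧ X.lab a = l}.Infinite → X.L2 x l := by
      by_cases h : X.L2 x l
      · exact ⟨0, fun _ _ _ _ => h⟩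
      · obtain ⟨n, hn⟩ := not_forall.1 h
        exact ⟨n, fun w h1 h2 h3 => absurd ⟨w, h1, h2, h3⟩ hn⟩
    exact ⟨n1 + n2, fun n hn w hw hl => ⟨h1 w hw (by omega), h2 w hw (by omega)⟩⟩
  exact ⟨N, fun w hw hl l => hN l trivial _ hl w hw rfl⟩

variable [Finite Lab] [Countable At]

theorem host (hc : X.pt c) (h : X.Ok c w) (hρ : X.In c ρ) : ∃ v f, X.In c v ∧ ρ <:+ v ∧
    X.TE (X.Top w) {a | ¬ X.pt a ∧ ρ <:+ X.bl a ∧ X.bl a <:+ v} f := by
  obtain ⟨enc, henc⟩ := exists_injective_nat At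
  have key : ∀ l, ∃ f : At → At, InjOn f {a | a ∈ X.Top w ∧ X.lab a = l} ∧ ∃ N,
      ∀ a ∈ X.Top w, X.lab a = l → X.lab (f a) = l ∧ X.M (f a) c ∧ ρ.length ≤ X.dep (f a) ∧
        X.dep (f a) ≤ N := by
    intro l
    by_cases h0 : ∃ a ∈ X.Top w, X.lab a = l
    swap
    · exact ⟨id, injOn_id _, 0, fun a ha hl => absurd ⟨a, ha, hl⟩ h0⟩
    by_cases h1 : {a | a ∈ X.Top w ∧ X.lab a = l}.Infinite
    · obtain ⟨w', k1, k2, k3⟩ := (h l).2 h1 ρ.length
      refine ⟨fun a => k3.natEmbedding _ (enc a), fun a _ b _ e =>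
        henc ((k3.natEmbedding _).injective (Subtype.ext e)), w'.length, fun a _ _ => ?_⟩
      obtain ⟨⟨p1, p2⟩, p3⟩ := (k3.natEmbedding _ (enc a)).2
      have p4 := congrArg List.length p2
      rw [bl, length_ad] at p4
      exact ⟨p3, ⟨p1, hc, p2.symm ▸ k1⟩, p4.symm ▸ k2, p4.le⟩
    · have k3 : {a | X.lab a = l ∧ X.M a c ∧ ρ.length ≤ X.dep a}.Infinite := by
        intro hf
        obtain ⟨N, hN⟩ := (hf.image X.dep).bddAbove
        obtain ⟨a, p1, p2, p3⟩ := (h l).1 h0 (N + 1 + ρ.length)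
        have := hN ⟨a, ⟨p1, p2, by omega⟩, rfl⟩
        omega
      obtain ⟨N, hN⟩ := ((not_infinite.1 h1).image
        fun a => X.dep (k3.natEmbedding _ (enc a))).bddAbove
      refine ⟨fun a => k3.natEmbedding _ (enc a), fun a _ b _ e =>
        henc ((k3.natEmbedding _).injective (Subtype.ext e)), N, fun a ha hl => ?_⟩
      obtain ⟨p1, p2, p3⟩ := (k3.natEmbedding _ (enc a)).2
      exact ⟨p1, p2, p3, hN ⟨a, ⟨ha, hl⟩, rfl⟩⟩
  choose f hf N hN using key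
  obtain ⟨K, hK⟩ := (finite_range N).bddAbove
  have hv := in_ad hc (K + ρ.length)
  refine ⟨_, fun a => f (X.lab a) a, hv, hρ.suffix hv (by simp), te_of (fun a ha => ?_)
    fun a ha b hb hab => ⟨fun e => ?_, iff_of_false
      (fun m => (hN _ b hb rfl).2.1.1 m.2.1) fun m => hb.1 m.2.1⟩⟩
  · obtain ⟨p1, p2, p3, p4⟩ := hN _ a ha rfl
    have := hK ⟨X.lab a, rfl⟩
    exact ⟨⟨p2.1, hρ.suffix p2.2.2 (by simpa [bl] using p3),
      p2.2.2.suffix hv (by simp [bl]; omega)⟩, p1⟩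
  · have e1 : X.lab a = X.lab b := by rw [← (hN _ a ha rfl).1, ← (hN _ b hb rfl).1, e]
    rw [e1] at e
    exact hab (hf _ ⟨ha, e1⟩ ⟨hb, rfl⟩ e)

omit [Finite Lab] [Countable At] in
theorem Br.split (hB : X.Br B) (hv : B v)
    (hp : ∀ u, X.NC u → ∃ s t, u <:+ s ∧ u <:+ t ∧ X.NC s ∧ X.NC t ∧ Dis s t) :
    ∃ (d : ℕ) (s q : ℕ → List ℕ), (∀ i, B (q i) ∧ X.NC (s i) ∧ d :: v <:+ q i ∧ d :: v <:+ s i) ∧
      ∀ i j, i < j → Dis (s i) (q j) ∧ Dis (s i) (s j) := by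
  obtain ⟨d, hd⟩ := hB.ext v hv
  obtain ⟨q, q0, q1, q2⟩ := seq_ex B
    (fun _ a a' => a <:+ a' ∧ ∃ s, a <:+ s ∧ X.NC s ∧ Dis s a') _ hd fun _ a ha => by
      obtain ⟨s, h1, h2, h3⟩ : ∃ s, a <:+ s ∧ X.NC s ∧ ¬ B s := by
        obtain ⟨s, t, h1, h2, h3, h4, h5⟩ := hp a (hB.nc a ha)
        by_cases h : B s
        · exact ⟨t, h2, h4, fun h' => (hB.cmp s t h h').elim h5.1 h5.2⟩
        · exact ⟨s, h1, h3, h⟩
      obtain ⟨t, k1, k2, k3⟩ := hB.long ha (s.length + 1)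
      exact ⟨t, k1, k2, s, h1, h2, fun h => h3 (hB.up _ _ k1 h),
        fun h => by have := h.length_le; omega⟩
  choose q3 s s1 s2 s3 using q2
  have q4 : ∀ i, d :: v <:+ q i := fun i => q0 ▸ suffix_chain q3 (Nat.zero_le i)
  refine ⟨d, s, q, fun i => ⟨q1 i, s2 i, q4 i, (q4 i).trans (s1 i)⟩, fun i j h => ?_⟩
  have := (s3 i).mono (List.suffix_refl _) (suffix_chain q3 h)
  exact ⟨this, this.mono (List.suffix_refl _) (s1 j)⟩

theorem out_perf (h : X.NC [])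
    (hp : ∀ u, X.NC u → ∃ s t, u <:+ s ∧ u <:+ t ∧ X.NC s ∧ X.NC t ∧ Dis s t) : X.Out := by
  classical
  obtain ⟨enc, henc⟩ := exists_injective_nat At
  obtain ⟨u1, -, h1, S1⟩ := stab_dom h
  obtain ⟨u0, hu, h0, S2⟩ := stab (fun x y => X.ty y = X.ty x) (fun x u => X.E x ∧ X.In x u)
    (fun _ _ _ h h' => ⟨h.1, h.2.mono h'⟩) (fun f => by
      obtain ⟨i, j, hij, e⟩ := Finite.exists_ne_map_eq_of_infinite fun i => X.ty (f i)
      rcases lt_or_gt_of_ne hij with h | h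
      exacts [⟨i, j, h, e.symm⟩, ⟨j, i, h, e⟩]) h1
  let Com : List ℕ → At → Prop := fun u x => X.E x ∧ X.In x u ∧
    (∀ x', X.E x' → X.In x' u → enc x ≤ enc x') ∧ ∀ w, u <:+ w → X.In x w → X.Ok x w
  have c1 : ∀ u w x, Com u x → u <:+ w → X.In x w → Com w x := fun u w x h hw hx =>
    ⟨h.1, hx, fun x' k1 k2 => h.2.2.1 x' k1 (k2.mono hw), fun w' k => h.2.2.2 w' (hw.trans k)⟩
  have c2 : ∀ u x y, Com u x → Com u y → x = y := fun u x y h h' =>
    henc (le_antisymm (h.2.2.1 y h'.1 h'.2.1) (h'.2.2.1 x h.1 h.2.1))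
  have c3 : ∀ x, X.E x → X.In x u0 → ∃ u, u0 <:+ u ∧ Com u x := by
    intro x hx hx'
    obtain ⟨N1, k1⟩ := tail hx.1
    obtain ⟨N2, k2⟩ := fin_bound ((finite_lt_nat (enc x)).preimage henc.injOn)
      (P := fun x' n => ∀ w, w.length = n → X.In x w → ¬ X.In x' w) fun x' hx' => by
        obtain ⟨N, hN⟩ := sep' (X := X) (a := x) (b := x') fun e => by simp [e] at hx'
        exact ⟨N, fun n hn w e p1 p2 => by have := hN w p1 p2; omega⟩
    have k3 := in_ad hx.1 (N1 + N2 + u0.length)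
    refine ⟨_, hx'.suffix k3 (by simp), hx, k3, fun x' _ k4 => ?_, fun w k4 k5 => k1 w k5 ?_⟩
    · by_contra k5
      exact k2 x' (not_le.1 k5) _ (by simp; omega) _ rfl k3 k4
    · have := k4.length_le
      simp at this; omega
  let Inv : List ℕ → List ℕ × At → Prop := fun u s => u0 <:+ s.1 ∧ X.NC s.1 ∧
    ∀ x, Com u x → X.E s.2 ∧ X.ty s.2 = X.ty x ∧ X.In s.2 s.1
  obtain ⟨a0, -⟩ := h.nonempty
  have fresh : ∀ u ρ, u0 <:+ u → u0 <:+ ρ → X.NC ρ → ∃ c, Inv u (ρ, c) := by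
    intro u ρ k1 k2 k3
    by_cases k : ∃ x, Com u x
    · obtain ⟨x, hx⟩ := k
      obtain ⟨c, p1, p2⟩ := S2 x ⟨hx.1, hx.2.1.mono k1⟩ ρ k2 k3
      exact ⟨c, k2, k3, fun y hy => ⟨p1.1, c2 u x y hx hy ▸ p2, p1.2⟩⟩
    · exact ⟨a0, k2, k3, fun y hy => absurd ⟨y, hy⟩ k⟩
  obtain ⟨v0, v1, k1, k2, k3, k4, k5⟩ := hp u0 h0
  obtain ⟨c0, hc0⟩ := fresh u0 v0 (List.suffix_refl _) k1 k3
  obtain ⟨st, δ, e0, H⟩ := tree_rec (δ := Dat At) X.NC Inv
    (fun u s x s' => X.Stp u s.1 (fun d => (s' d).1) x ∧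
      ∀ y d, Com u y → X.In y (d :: u) → (s' d).2 = s.2)
    u0 (v0, c0) hc0 (fun d u h => h.mono (List.suffix_cons _ _)) (by
      rintro u ⟨ρ, c⟩ p1 p2 ⟨p3, p4, p5⟩
      simp only at p3 p4 p5
      obtain ⟨v, f1, B, hB, hv, hρ, hf1, hBc⟩ : ∃ v f B, X.Br B ∧ B v ∧ ρ <:+ v ∧
          X.TE (X.Top u) {a | ¬ X.pt a ∧ ρ <:+ X.bl a ∧ X.bl a <:+ v} f ∧
          ∀ y, Com u y → ∀ t, B t → X.In c t := by
        by_cases k : ∃ x, Com u x
        · obtain ⟨x, hx⟩ := k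
          obtain ⟨r1, r2, r3⟩ := p5 x hx
          have r4 := hx.2.2.2 u (List.suffix_refl _) hx.2.1
          simp only [ty, Prod.mk.injEq] at r2
          obtain ⟨v, f, r5, r6, r7⟩ := host (w := u) r1.1
            (fun l => by rw [r2.2.1, r2.2.2]; exact r4 l) r3
          exact ⟨v, f, _, r1.br, r5, r6, r7, fun _ _ _ h => h⟩
        · obtain ⟨w, w1, w2, ⟨f, hf⟩, -⟩ := S1 u (hu.trans p1) p2 ρ (hu.trans p3) p4
          obtain ⟨B, hB, hw⟩ := w2.br
          exact ⟨w, f, B, hB, hw, w1, hf.mono_right fun a ha =>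
            ⟨ha.1, ha.2.symm ▸ w1, ha.2.symm ▸ List.suffix_refl _⟩, fun y hy => absurd ⟨y, hy⟩ k⟩
      obtain ⟨e, s, q, r1, r2⟩ := hB.split hv hp
      have r3 : u0 <:+ e :: v := p3.trans (hρ.trans (List.suffix_cons _ _))
      obtain ⟨w, w1, -, -, f2, hf2⟩ := S1 u (hu.trans p1) p2 (s 0)
        (hu.trans (r3.trans (r1 0).2.2.2)) (r1 0).2.1
      choose c' hc' using fun d => fresh (d :: u) (s (d + 1)) (p1.trans (List.suffix_cons _ _))
        (r3.trans (r1 _).2.2.2) (r1 _).2.1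
      let D : ℕ → Prop := fun d => ∃ y, Com u y ∧ X.In y (d :: u)
      refine ⟨⟨v, X.Sub (s 0), f1, f2⟩,
        fun d => if D d then (q (X.r u.length + 1), c) else (s (d + 1), c' d),
        ⟨⟨hρ, hf1, hf2.mono_right fun a ha => (c_in ha).mono w1,
          fun a ha => ⟨e, In.mono ha (r1 0).2.2.2⟩, fun a ha b m => m.sub ha, fun d _ => ⟨e, ?_⟩,
          fun d _ a ha => ?_, fun d d' hd n1 n2 => ?_⟩,
          fun y d k1 k2 => by beta_reduce; rw [if_pos ⟨y, k1, k2⟩]⟩, fun d _ => ?_⟩ <;> beta_reduce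
      · split_ifs
        exacts [(r1 _).2.2.1, (r1 _).2.2.2]
      · split_ifs
        exacts [Dis_in (r2 0 _ (by omega)).1 ha, Dis_in (r2 0 _ (by omega)).2 ha]
      · have n3 : d < X.r u.length := n1.nonempty.elim fun _ h => h.lt
        have n4 : d' < X.r u.length := n2.nonempty.elim fun _ h => h.lt
        split_ifs with i1 i2 i2
        · obtain ⟨y, k1, k2⟩ := i1
          obtain ⟨y', k3, k4⟩ := i2
          exact (Dis_in (dis_cons hd u) k2 (c2 u _ _ k3 k1 ▸ k4)).elim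
        · exact (r2 _ _ (by omega)).1.symm
        · exact (r2 _ _ (by omega)).1
        · rcases lt_or_gt_of_ne hd with h | h
          exacts [(r2 _ _ (by omega)).2, (r2 _ _ (by omega)).2.symm]
      · split_ifs with i1
        · obtain ⟨y, k1, k2⟩ := i1
          refine ⟨r3.trans (r1 _).2.2.1, hB.nc _ (r1 _).1, fun x hx => ?_⟩
          rw [c2 _ _ _ hx (c1 u _ y k1 (List.suffix_cons _ _) k2)]
          exact ⟨(p5 y k1).1, (p5 y k1).2.1, hBc y k1 _ (r1 _).1⟩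
        · exact hc' d)
  have : Nonempty (List ℕ) := ⟨[]⟩
  choose! ux hux using c3
  obtain ⟨g, hg, g0, g1⟩ := assemble h0 (fun u => (st u).1) δ (fun x => (st (ux x)).2)
    (by rw [e0]; exact k1) (fun u h1 h2 => (H u h1 h2).2.1) fun x hx hx' => by
      obtain ⟨p1, p2⟩ := hux x hx hx'
      have p3 : ∀ u, ux x <:+ u → X.In x u → (st u).2 = (st (ux x)).2 := by
        intro u
        induction u with
        | nil => intro h _; rw [List.suffix_nil.1 h]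
        | cons d u ih =>
          intro h hi
          rcases List.suffix_cons_iff.1 h with h | h
          · rw [h]
          · have hi' := hi.mono (List.suffix_cons _ _)
            rw [← ih h hi']
            exact (H u (p1.trans h) (hx.2 _ hi')).2.2 x d (c1 _ _ _ p2 h hi') hi
      refine ⟨congrArg Prod.fst ((H _ p1 (hx.2 _ p2.2.1)).1.2.2 x p2).2.1, ux x, p1, p2.2.1,
        fun u h hi => ?_⟩
      rw [← p3 u h hi]
      exact ((H u (p1.trans h) (hx.2 _ hi)).1.2.2 x (c1 _ _ _ p2 h hi)).2.2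
  obtain ⟨B, hB, hv⟩ := k4.br
  obtain ⟨p, p0, -, p2⟩ := seq_ex B (fun k a a' => a <:+ a' ∧
    ∃ y Z, X.Big (X.Ann a a') (3 * k + 3) y Z) v1 hv fun k a ha => hB.big ha _
  refine out_of hg p (fun k => p (k + 1)) (fun k => (p2 k).1) (fun k => List.suffix_refl _)
    (fun k => (p2 k).2) fun k b hb => ?_
  have p3 : X.In (g b) v1 := hb.1.mono (p0 ▸ suffix_chain (fun k => (p2 k).1) (Nat.zero_le k))
  by_cases hb' : X.In b u0
  · have := (g1 u0 (List.suffix_refl _) h0).1 b hb'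
    rw [e0] at this
    exact Dis_in k5 this p3
  · rw [g0 b hb'] at p3
    exact hb' (p3.mono k2)

theorem dich : X.Cl univ ∨ X.Out := by
  refine or_iff_not_imp_left.2 fun hc => ?_
  have h : X.NC [] := fun h => hc (h.sub fun a _ => in_nil a)
  by_cases hp : ∀ u, X.NC u → ∃ s t, u <:+ s ∧ u <:+ t ∧ X.NC s ∧ X.NC t ∧ Dis s t
  · exact out_perf h hp
  · push Not at hp
    obtain ⟨u, hu, hp⟩ := hp
    exact out_chain hu fun s t h1 h2 h3 h4 => by
      by_contra h5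
      exact hp s t h1 h2 h3 h4 (not_or.1 h5)

end Lam

end Pool.Agent.MP_2a6d4e_co.h30

end MrgPart3

-- ======== part 4: formerly Pool.Agent.MP_2a6d4e_co.Prime
section MrgPart4

/-! Prime nodes under embeddings, stable graphs. -/

namespace Pool.Agent.MP_2a6d4e_co

open Set Function

namespace Gr

variable {V : Type} {g : Gr V}
variable {Q Q' A B X Y Z w : Set V} {a b x y v p : V} {e : Bool} {f f' h : V → V}

theorem Mod.inter (hX : g.Mod Q X) (hY : g.Mod Q Y) : g.Mod Q (X ∩ Y) :=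
  ⟨inter_subset_left.trans hX.sub, fun a ha a' ha' b hb hb' => by
    by_cases h1 : b ∈ X
    · exact hY.eq ha.2 ha'.2 hb (fun h => hb' ⟨h1, h⟩)
    · exact hX.eq ha.1 ha'.1 hb h1⟩

theorem bool_ne {a e : Bool} (h : a ≠ e) : a = !e := by
  revert h; cases a <;> cases e <;> simp

/-- A prime node has a finite transversal of its children. -/
theorem Node.prime_fin (hF : g.FinP) (h : g.Node Q w) (hp : ∀ e, ¬ g.Deg Q w e) :
    ∃ T : Set V, T.Finite ∧ T ⊆ w ∧ (∀ x ∈ w, ∃ t ∈ T, t ∈ g.ch Q w x) ∧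
      ∀ t ∈ T, ∀ t' ∈ T, t' ∈ g.ch Q w t → t = t' := by
  obtain ⟨a0, -⟩ := h.exists
  have : ∀ X : Set V, ∃ v, X.Nonempty → v ∈ X := by
    intro X
    by_cases hX : X.Nonempty
    · exact ⟨hX.some, fun _ => hX.some_mem⟩
    · exact ⟨a0, fun h => absurd h hX⟩
  choose pick hpick using this
  have h1 : ∀ x ∈ w, pick (g.ch Q w x) ∈ g.ch Q w x := fun x hx => hpick _ ⟨x, h.mem_ch hx⟩
  have hu : ∀ t ∈ (fun x => pick (g.ch Q w x)) '' w, ∀ t' ∈ (fun x => pick (g.ch Q w x)) '' w,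
      t' ∈ g.ch Q w t → t = t' := by
    rintro _ ⟨x, hx, rfl⟩ _ ⟨y, hy, rfl⟩ hxy
    have e1 := h.ch_eq hx (h.ch_trans hx (h1 x hx) hxy)
    have e2 := h.ch_eq hy (h1 y hy)
    simp only at e1 e2 ⊢
    rw [← e1, e2]
  have hT : (fun x => pick (g.ch Q w x)) '' w ⊆ w := by
    rintro _ ⟨x, hx, rfl⟩
    exact (h1 x hx).1
  refine ⟨_, hF _ ?_, hT, fun x hx => ⟨_, ⟨x, hx, rfl⟩, h1 x hx⟩, hu⟩
  intro X hX
  by_cases hs : X.Subsingleton
  · exact Or.inl hs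
  right
  obtain ⟨a, ha, b, hb, hab⟩ := not_subsingleton_iff.1 hs
  have hm : g.Mod Q {v | v ∈ w ∧ pick (g.ch Q w v) ∈ X} := by
    refine ⟨fun v hv => h.sub hv.1, fun s hs s' hs' t ht ht' => ?_⟩
    by_cases htw : t ∈ w
    · have h2 : pick (g.ch Q w t) ∉ X := fun h => ht' ⟨htw, h⟩
      have key : ∀ s, s ∈ w ∧ pick (g.ch Q w s) ∈ X →
          g.c s t = g.c (pick (g.ch Q w s)) (pick (g.ch Q w t)) := by
        intro s hs
        refine (h.c_of_ch hs.1 htw ?_ (h1 s hs.1) (h1 t htw)).symm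
        rw [← not_mem_ch htw]
        intro h3
        rw [h.ch_eq hs.1 h3] at h2
        exact h2 hs.2
      rw [key s hs, key s' hs']
      exact hX.eq hs.2 hs'.2 ⟨t, htw, rfl⟩ h2
    · exact h.str.mod.eq hs.1 hs'.1 ht htw
  have hfix : ∀ t ∈ (fun x => pick (g.ch Q w x)) '' w, pick (g.ch Q w t) = t := fun t ht =>
    (hu t ht _ ⟨t, hT ht, rfl⟩ (h1 t (hT ht))).symm
  have hab' : g.cl Q a b = w := by
    rw [← not_mem_ch (hT (hX.sub hb))]
    exact fun h3 => hab (hu a (hX.sub ha) b (hX.sub hb) h3)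
  have := h.prime_full hp hm (fun v hv => hv.1) (a := a) (b := b)
    ⟨hT (hX.sub ha), by rw [hfix a (hX.sub ha)]; exact ha⟩
    ⟨hT (hX.sub hb), by rw [hfix b (hX.sub hb)]; exact hb⟩ hab'
  refine Subset.antisymm hX.sub fun t ht => ?_
  rw [← hfix t ht]
  exact (this (hT ht)).2

/-- Prime nodes map into prime nodes, different children to different children. -/
theorem Emb.pi (hf : g.Emb Q Q' f) (h : g.Node Q w) (hp : ∀ e, ¬ g.Deg Q w e) (hx : x ∈ w)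
    (hy : y ∈ w) (hxy : g.cl Q x y = w) :
    (∀ v ∈ w, f v ∈ g.cl Q' (f x) (f y)) ∧
    (∀ a ∈ w, ∀ b ∈ w, g.cl Q a b = w → g.cl Q' (f a) (f b) = g.cl Q' (f x) (f y)) ∧
    ∀ e, ¬ g.Deg Q' (g.cl Q' (f x) (f y)) e := by
  have hn : g.Node Q' (g.cl Q' (f x) (f y)) := node_cl (hf.maps (h.sub hx)) (hf.maps (h.sub hy))
    (hf.ne (h.sub hx) (h.sub hy) (h.ne_of_cl hx hxy))
  have key : ∀ X, g.Mod Q' X → ∀ a ∈ w, ∀ b ∈ w, g.cl Q a b = w → f a ∈ X → f b ∈ X →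
      ∀ v ∈ w, f v ∈ X := by
    intro X hX a ha b hb hab h1 h2 v hv
    exact (h.prime_full hp ((hf.mod_pre hX).inter h.str.mod) inter_subset_right
      ⟨⟨h.sub ha, h1⟩, ha⟩ ⟨⟨h.sub hb, h2⟩, hb⟩ hab hv).1.2
  have h1 : ∀ v ∈ w, f v ∈ g.cl Q' (f x) (f y) := key _ hn.str.mod x hx y hy hxy
    (left_mem_cl (hf.maps (h.sub hx)) _) (right_mem_cl _ (hf.maps (h.sub hy)))
  have h2 : ∀ a ∈ w, ∀ b ∈ w, g.cl Q a b = w → g.cl Q' (f a) (f b) = g.cl Q' (f x) (f y) := by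
    intro a ha b hb hab
    refine Subset.antisymm (hn.str.cl_sub (h1 a ha) (h1 b hb)) ?_
    have k := key _ (str_cl Q' (f a) (f b)).mod a ha b hb hab
      (left_mem_cl (hf.maps (h.sub ha)) _) (right_mem_cl _ (hf.maps (h.sub hb)))
    exact (str_cl Q' (f a) (f b)).cl_sub (k x hx) (k y hy)
  refine ⟨h1, h2, fun e hd => hp e fun a ha b hb hab => ?_⟩
  rw [← hf.c (h.sub ha) (h.sub hb)]
  exact hd _ (h1 a ha) _ (h1 b hb) (h2 a ha b hb hab)

/-- An embedding of a prime node into itself permutes its children. -/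
theorem Emb.pp (hF : g.FinP) (h : g.Node Q w) (hp : ∀ e, ¬ g.Deg Q w e)
    (hm : ∀ v ∈ w, f v ∈ w) (hd : ∀ a ∈ w, ∀ b ∈ w, g.cl Q a b = w → g.cl Q (f a) (f b) = w) :
    (∀ v ∈ w, ∃ t ∈ w, f t ∈ g.ch Q w v) ∧ ∀ a ∈ w, ∀ b ∈ g.ch Q w a, f b ∈ g.ch Q w (f a) := by
  obtain ⟨T, hT, hTw, hT1, hT2⟩ := h.prime_fin hF hp
  choose! ρ hρ1 hρ2 using hT1
  have hinj : InjOn (fun t => ρ (f t)) T := by
    intro t ht t' ht' htt
    simp only at htt
    apply hT2 t ht t' ht'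
    by_contra hcon
    have h1 := hd t (hTw ht) t' (hTw ht') ((not_mem_ch (hTw ht')).1 hcon)
    have h2 := hρ2 _ (hm t (hTw ht))
    rw [htt] at h2
    exact (not_mem_ch (hm t' (hTw ht'))).2 h1
      (h.ch_trans (hm t (hTw ht)) h2 (h.ch_symm (hm t' (hTw ht')) (hρ2 _ (hm t' (hTw ht')))))
  have hsurj : SurjOn (fun t => ρ (f t)) T T :=
    (hT.injOn_iff_bijOn_of_mapsTo (fun t ht => hρ1 _ (hm t (hTw ht)))).1 hinj |>.surjOn
  have hon : ∀ v ∈ w, ∃ t ∈ T, f t ∈ g.ch Q w v := by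
    intro v hv
    obtain ⟨t, ht, htv⟩ := hsurj (hρ1 v hv)
    simp only at htv
    refine ⟨t, ht, h.ch_trans hv (hρ2 v hv) ?_⟩
    rw [← htv]
    exact h.ch_symm (hm t (hTw ht)) (hρ2 _ (hm t (hTw ht)))
  refine ⟨fun v hv => ?_, fun a ha b hb => ?_⟩
  · obtain ⟨t, ht, h1⟩ := hon v hv
    exact ⟨t, hTw ht, h1⟩
  · have key : ∀ s ∈ w, ∀ t ∈ T, f t ∈ g.ch Q w (f s) → t ∈ g.ch Q w s := by
      intro s hs t ht h1
      by_contra hcon
      exact h1.2 (hd s hs t (hTw ht) ((not_mem_ch (hTw ht)).1 hcon))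
    obtain ⟨t, ht, h1⟩ := hon _ (hm a ha)
    obtain ⟨t', ht', h2⟩ := hon _ (hm b hb.1)
    have h3 : t = t' := hT2 t ht t' ht' (h.ch_trans (hTw ht) (h.ch_symm ha (key a ha t ht h1))
      (h.ch_trans ha hb (key b hb.1 t' ht' h2)))
    subst h3
    exact h.ch_trans (hm a ha) h1 (h.ch_symm (hm b hb.1) h2)

theorem Node.not_mem_of (h : g.Node Q w) (hd : g.Deg Q w e) (ha : a ∈ w) (hb : b ∈ w)
    (hab : g.cl Q a b = w) (h1 : g.c y a ≠ e) (h2 : g.c y b ≠ e) : y ∉ w := by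
  intro hy
  have k1 : a ∈ g.ch Q w y := ⟨ha, fun h3 => h1 (hd y hy a ha h3)⟩
  have k2 : b ∈ g.ch Q w y := ⟨hb, fun h3 => h2 (hd y hy b hb h3)⟩
  exact (not_mem_ch hb).2 hab (h.ch_trans ha (h.ch_symm hy k1) k2)

theorem Node.not_ind (h : g.Node Q w) (hd : g.Deg Q w e) : ¬ g.Ind w e := by
  intro hi
  obtain ⟨a, ha, b, hb, -, hab⟩ := h.exists
  refine (not_mem_ch hb).2 hab (hi (g.ch Q w a) (fun s hs t ht h1 h2 => ?_) a ha b hb (h.mem_ch ha))
  exact hd s hs t ht (h.cl_of_ch ha ht ((not_mem_ch ht).1 h2) h1 (h.mem_ch ht))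

/-- A point outside a degenerate node that has the colour of the node. -/
theorem Node.witness (h : g.Node Q w) (hd : g.Deg Q w e) (hv : v ∈ Q) (hv' : v ∉ w) (hp : p ∈ w)
    (hc : g.c p v = e) : (∀ e', ¬ g.Deg Q (g.cl Q p v) e') ∨ (g.Deg Q (g.cl Q p v) e ∧
      ∃ y ∈ Q, (∀ q ∈ w, g.c y q ≠ e) ∧ g.c y v = e) := by
  by_cases h1 : ∃ e', g.Deg Q (g.cl Q p v) e'
  swap
  · exact Or.inl fun e' h2 => h1 ⟨e', h2⟩
  right
  obtain ⟨e', he'⟩ := h1
  have hn : g.Node Q (g.cl Q p v) := node_cl (h.sub hp) hv (fun h2 => hv' (h2 ▸ hp))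
  have hpu := left_mem_cl (g := g) (h.sub hp) v
  have hvu := right_mem_cl (g := g) p hv
  obtain rfl : e' = e := by rw [← hc]; exact (he' p hpu v hvu rfl).symm
  refine ⟨he', ?_⟩
  have hwD : w ⊆ g.ch Q (g.cl Q p v) p := hn.sub_ch h.str
    (by rw [cl_comm]; exact h.str.sub_cl hv hv' hp) (fun h2 => hv' (h2 ▸ hvu)) hp
  have : ∃ x ∈ g.ch Q (g.cl Q p v) p, x ∉ w := by
    by_contra hcon
    push Not at hcon
    apply h.not_ind hd
    rw [Subset.antisymm hwD hcon]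
    exact hn.ind_ch he' hpu
  obtain ⟨x, hx, hxw⟩ := this
  obtain ⟨y, hy, -, hy2⟩ := h.other_type hd (hn.str_ch hpu).mod hwD hx hxw
  exact ⟨y, hn.sub hy.1, hy2, he' y hy.1 v hvu (hn.cl_of_ch hpu hvu rfl hy (hn.mem_ch hvu))⟩

theorem deg_or (Q w : Set V) : (∀ e, ¬ g.Deg Q w e) ∨ ∃ e, g.Deg Q w e := by
  by_cases h : ∃ e, g.Deg Q w e
  · exact Or.inr h
  · exact Or.inl fun e h1 => h ⟨e, h1⟩

theorem descend (hF : g.FinP) (hh : g.Emb Q Q h) (hx : x ∈ Q)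
    (h0 : x ∉ g.cl Q (h x) (h (h x))) : h x ∉ g.cl Q (h (h x)) (h (h (h x))) := by
  intro h1
  have m1 := hh.maps hx
  have m2 := hh.maps m1
  have m3 := hh.maps m2
  set w := g.cl Q (h x) (h (h x)) with hw
  have a1 : h x ∈ w := left_mem_cl m1 _
  have a2 : h (h x) ∈ w := right_mem_cl _ m2
  have hne : x ≠ h x := fun h2 => h0 (h2 ▸ a1)
  have hn : g.Node Q w := node_cl m1 m2 (hh.ne hx m1 hne)
  have hm : ∀ v ∈ w, h v ∈ w := fun v hv =>
    (hn.str.sub_of (hh.mod_pre hn.str.mod) a1 ⟨m1, a2⟩ ⟨hx, a1⟩ h0 hv).2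
  have a3 := hm _ a2
  have hw2 : g.cl Q (h (h x)) (h (h (h x))) = w :=
    Subset.antisymm (hn.str.cl_sub a2 a3) ((str_cl _ _ _).cl_sub h1 (left_mem_cl m2 _))
  rcases deg_or (g := g) Q w with hp | ⟨e, hd⟩
  · obtain ⟨-, k2, -⟩ := hh.pi hn hp a1 a2 rfl
    rw [hw2] at k2
    obtain ⟨k3, k4⟩ := Emb.pp hF hn hp hm k2
    have key : ∀ e, ∃ t ∈ w, g.c x t = e := by
      intro e
      obtain ⟨y, hy, hy1, hy2⟩ := hn.prime_both hp a1 e
      obtain ⟨t, ht, ht1⟩ := k3 y hy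
      refine ⟨t, ht, ?_⟩
      rw [← hh.c hx (hn.sub ht), hn.c_of_ch a1 hy hy1 (hn.mem_ch a1) ht1, hy2]
    obtain ⟨t, ht, ht1⟩ := key true
    obtain ⟨t', ht', ht2⟩ := key false
    rw [hn.str.mod.eq' ht ht' hx h0, ht2] at ht1
    exact Bool.false_ne_true ht1
  · have he : g.c (h x) x = e := by
      rw [← hh.c m1 hx, g.symm]; exact hd _ a1 _ a2 rfl
    rcases hn.witness hd hx h0 a1 he with hp | ⟨-, y, hy, hy1, hy2⟩
    · obtain ⟨-, -, k⟩ := hh.pi (node_cl m1 hx hne.symm) hp (left_mem_cl m1 _) (right_mem_cl _ hx) rfl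
      rw [cl_comm] at k
      exact k e hd
    · have k1 : g.c (h y) (h (h x)) ≠ e := by rw [hh.c hy m1]; exact hy1 _ a1
      have k2 : g.c (h y) (h (h (h x))) ≠ e := by rw [hh.c hy m2]; exact hy1 _ a2
      apply k1
      rw [hn.str.mod.eq' a2 a1 (hh.maps hy) (hn.not_mem_of hd a2 a3 hw2 k1 k2), hh.c hy hx, hy2]

theorem ascend (hF : g.FinP) (hh : g.Emb Q Q h) (hx : x ∈ Q)
    (h0 : h (h x) ∉ g.cl Q x (h x)) : h (h (h x)) ∉ g.cl Q (h x) (h (h x)) := by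
  intro a3
  have m1 := hh.maps hx
  have m2 := hh.maps m1
  have m3 := hh.maps m2
  set w := g.cl Q (h x) (h (h x)) with hw
  have a1 : h x ∈ w := left_mem_cl m1 _
  have a2 : h (h x) ∈ w := right_mem_cl _ m2
  have hne : x ≠ h x := fun h2 => h0 (by rw [← h2, ← h2]; exact left_mem_cl hx _)
  have hn : g.Node Q w := node_cl m1 m2 (hh.ne hx m1 hne)
  have hn0 : g.Node Q (g.cl Q x (h x)) := node_cl hx m1 hne
  have hsub : g.cl Q x (h x) ⊆ w := by
    rw [hw, cl_comm Q (h x)]; exact hn0.str.sub_cl m2 h0 (right_mem_cl _ m1)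
  have a0 : x ∈ g.ch Q w (h x) := hn.sub_ch hn0.str hsub (fun h2 => h0 (h2 ▸ a2))
    (right_mem_cl _ m1) (left_mem_cl hx _)
  rcases deg_or (g := g) Q w with hp | ⟨e, hd⟩
  · obtain ⟨k1, k2, -⟩ := hh.pi hn hp a1 a2 rfl
    have hw2 : g.cl Q (h (h x)) (h (h (h x))) = w := Subset.antisymm (hn.str.cl_sub a2 a3)
      ((str_cl _ _ _).cl_sub (k1 x a0.1) (left_mem_cl m2 _))
    rw [hw2] at k1 k2
    have := (Emb.pp hF hn hp k1 k2).2 _ a1 _ a0
    exact this.2 (cl_comm _ _ _)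
  · have he : g.c (h x) (h (h x)) = e := hd _ a1 _ a2 rfl
    rcases deg_or (g := g) Q (g.cl Q x (h x)) with hp | ⟨e', hd'⟩
    · exact (hh.pi hn0 hp (left_mem_cl hx _) (right_mem_cl _ m1) rfl).2.2 e hd
    obtain rfl : e' = e := by
      rw [← he, hh.c hx m1]
      exact (hd' _ (left_mem_cl hx _) _ (right_mem_cl _ m1) rfl).symm
    rcases hn0.witness hd' m2 h0 (right_mem_cl _ m1) he with hp | ⟨-, y, hy, hy1, hy2⟩
    · exact hp _ hd
    · have k1 : g.c (h y) (h x) ≠ e' := by rw [hh.c hy hx]; exact hy1 _ (left_mem_cl hx _)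
      have k2 : g.c (h y) (h (h x)) ≠ e' := by rw [hh.c hy m1]; exact hy1 _ (right_mem_cl _ m1)
      apply k1
      rw [hn.str.mod.eq' a1 a3 (hh.maps hy) (hn.not_mem_of hd a1 a2 rfl k1 k2), hh.c hy m2, hy2]

variable (g) in
/-- No self-embedding climbs or descends in the tree of strong modules. -/
def Stab (Q : Set V) : Prop :=
  ∀ h, g.Emb Q Q h → ∀ x ∈ Q, g.cl Q (h x) (h (h x)) = g.cl Q x (h x)

theorem Stab.s2 (hS : g.Stab Q) (hh : g.Emb Q Q h) (hX : g.Str Q X) (hm : ∀ v ∈ X, h v ∈ X)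
    (hv : v ∈ Q) (hhv : h v ∈ X) : v ∈ X :=
  hX.cl_sub hhv (hm _ hhv) (by rw [hS h hh v hv]; exact left_mem_cl hv _)

theorem Stab.s1 (hF : g.FinP) (hS : g.Stab Q) (hh : g.Emb Q Q h) (hx : x ∈ Q)
    (hv : v ∈ g.cl Q x (h x)) : h v ∈ g.cl Q x (h x) := by
  have m1 := hh.maps hx
  by_cases hne : x = h x
  · rw [← hne, cl_self hx] at hv ⊢
    rw [mem_singleton_iff.1 hv]; exact hne.symm
  set w := g.cl Q x (h x) with hw
  have hn : g.Node Q w := node_cl hx m1 hne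
  have a0 : x ∈ w := left_mem_cl hx _
  have a1 : h x ∈ w := right_mem_cl _ m1
  have a2 : h (h x) ∈ w := by rw [hw, ← hS h hh x hx]; exact right_mem_cl _ (hh.maps m1)
  have hY := (hh.mod_pre hn.str.mod).inter hn.str.mod
  rcases deg_or (g := g) Q w with hp | ⟨e, hd⟩
  · exact (hn.prime_full hp hY inter_subset_right ⟨⟨hx, a1⟩, a0⟩ ⟨⟨m1, a2⟩, a1⟩ rfl hv).1.2
  by_cases h1 : v ∈ g.ch Q w x
  · exact (hn.ch_sub_of hY inter_subset_right ⟨⟨hx, a1⟩, a0⟩ ⟨⟨m1, a2⟩, a1⟩ rfl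
      ⟨⟨hx, a1⟩, a0⟩ h1).1.2
  by_contra h2
  have hvQ := hn.sub hv
  have m2 := hh.maps hvQ
  have he : g.c (h x) (h v) = e := by
    rw [hh.c hx hvQ]; exact hd x a0 v hv ((not_mem_ch hv).1 h1)
  have hu : g.cl Q (h x) (h v) = g.cl Q v (h v) := by
    rw [cl_comm, cl_comm Q v]; exact hn.str.cl_out m2 h2 a1 hv
  have hnu : g.Node Q (g.cl Q v (h v)) := node_cl hvQ m2 (fun h3 => h2 (h3 ▸ hv))
  have b0 := left_mem_cl (g := g) hvQ (h v)
  have b1 := right_mem_cl (g := g) v m2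
  have hwu : w ⊆ g.cl Q v (h v) := by rw [cl_comm]; exact hn.str.sub_cl m2 h2 hv
  rcases hn.witness hd m2 h2 a1 he with hp | ⟨hd', y, hy, hy1, hy2⟩
  · rw [hu] at hp
    obtain ⟨k1, k2, -⟩ := hh.pi hnu hp b0 b1 rfl
    rw [hS h hh v hvQ] at k1 k2
    have := (Emb.pp hF hnu hp k1 k2).2 x (hwu a0) v
      (hnu.sub_ch hn.str hwu (fun h3 => h2 (h3 ▸ b1)) a0 hv)
    exact this.2 hu
  · rw [hu] at hd'
    have k1 : g.c (h y) (h x) ≠ e := by rw [hh.c hy hx]; exact hy1 _ a0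
    have k2 : g.c (h y) (h v) ≠ e := by rw [hh.c hy hvQ]; exact hy1 _ hv
    have b2 : h (h v) ∈ g.cl Q v (h v) := by
      rw [← hS h hh v hvQ]; exact right_mem_cl _ (hh.maps m2)
    apply k2
    rw [hnu.str.mod.eq' b1 b2 (hh.maps hy) (hnu.not_mem_of hd' (hwu a1) b1 hu k1 k2), hh.c hy m2,
      hy2]

theorem Stab.s1_ch (hF : g.FinP) (hS : g.Stab Q) (hh : g.Emb Q Q h) (hx : x ∈ Q) (hne : x ≠ h x)
    (ha : a ∈ g.cl Q x (h x)) (hb : b ∈ g.ch Q (g.cl Q x (h x)) a) :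
    h b ∈ g.ch Q (g.cl Q x (h x)) (h a) := by
  have m1 := hh.maps hx
  have hn : g.Node Q (g.cl Q x (h x)) := node_cl hx m1 hne
  have hm : ∀ v ∈ g.cl Q x (h x), h v ∈ g.cl Q x (h x) := fun v hv => hS.s1 hF hh hx hv
  rcases deg_or (g := g) Q (g.cl Q x (h x)) with hp | ⟨e, hd⟩
  · obtain ⟨-, k2, -⟩ := hh.pi hn hp (left_mem_cl hx _) (right_mem_cl _ m1) rfl
    rw [hS h hh x hx] at k2
    exact (Emb.pp hF hn hp hm k2).2 a ha b hb
  · refine hn.ind_ch hd ha {v | h v ∈ g.ch Q (g.cl Q x (h x)) (h a)} ?_ a (hn.mem_ch ha) b hb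
      (hn.mem_ch (hm a ha))
    intro s hs t ht h1 h2
    rw [← hh.c (hn.sub hs.1) (hn.sub ht.1)]
    exact hd _ (hm s hs.1) _ (hm t ht.1) (hn.cl_of_ch (hm a ha) (hm t ht.1)
      ((not_mem_ch (hm t ht.1)).1 h2) h1 (hn.mem_ch (hm t ht.1)))

theorem Stab.s4 (hF : g.FinP) (hS : g.Stab Q) (hh : g.Emb Q Q h) (hX : g.Str Q X) (hx : x ∈ X)
    (hhx : h x ∈ X) (hv : v ∈ X) : h v ∈ X := by
  by_contra hcon
  have hvQ := hX.sub hv
  have m1 := hh.maps hvQ
  have hne : v ≠ h v := fun h1 => hcon (h1 ▸ hv)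
  have hn : g.Node Q (g.cl Q v (h v)) := node_cl hvQ m1 hne
  have b0 := left_mem_cl (g := g) hvQ (h v)
  have b1 := right_mem_cl (g := g) v m1
  have hsub : X ⊆ g.ch Q (g.cl Q v (h v)) v := hn.sub_ch hX
    (by rw [cl_comm]; exact hX.sub_cl m1 hcon hv) (fun h1 => hcon (h1 ▸ b1)) hv
  have := hS.s1_ch hF hh hvQ hne b0 (hsub hx)
  exact (not_mem_ch b1).2 rfl (hn.ch_trans b0 (hsub hhx) (hn.ch_symm b1 this))

/-- Conjugation of the node moved by a composite. -/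
theorem Stab.conj (hF : g.FinP) (hS : g.Stab Q) (hf : g.Emb Q Q f) (hf' : g.Emb Q Q f')
    (ha : a ∈ Q) (hv : v ∈ g.cl Q a (f' (f a))) : f v ∈ g.cl Q (f a) (f (f' (f a))) := by
  have hH : g.Emb Q Q (f' ∘ f) := hf'.comp hf
  have m0 := hf.maps ha
  have m1 : f' (f a) ∈ Q := hf'.maps m0
  have m2 := hf.maps m1
  by_cases hne : a = f' (f a)
  · rw [← hne, cl_self ha] at hv
    rw [mem_singleton_iff.1 hv]; exact left_mem_cl m0 _
  set w := g.cl Q a (f' (f a)) with hw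
  set w' := g.cl Q (f a) (f (f' (f a))) with hw'
  have hn : g.Node Q w := node_cl ha m1 hne
  have hn' : g.Node Q w' := node_cl m0 m2 (hf.ne ha m1 hne)
  have a0 : a ∈ w := left_mem_cl ha _
  have a1 : f' (f a) ∈ w := right_mem_cl _ m1
  have b0 : f a ∈ w' := left_mem_cl m0 _
  have b1 : f (f' (f a)) ∈ w' := right_mem_cl _ m2
  have hst : g.cl Q (f' (f a)) (f' (f (f' (f a)))) = w := hS _ hH a ha
  have a2 : f' (f (f' (f a))) ∈ w := by rw [← hst]; exact right_mem_cl _ (hf'.maps m2)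
  rcases deg_or (g := g) Q w with hp | ⟨e, hd⟩
  · exact (hf.pi hn hp a0 a1 rfl).1 v hv
  by_cases h1 : v ∈ g.ch Q w a
  · exact (hn.ch_sub_of ((hf.mod_pre hn'.str.mod).inter hn.str.mod) inter_subset_right
      ⟨⟨ha, b0⟩, a0⟩ ⟨⟨m1, b1⟩, a1⟩ rfl ⟨⟨ha, b0⟩, a0⟩ h1).1.2
  by_contra h2
  have hvQ := hn.sub hv
  have m3 := hf.maps hvQ
  have a3 : f' (f v) ∈ w := hS.s1 hF hH ha hv
  rcases deg_or (g := g) Q w' with hp | ⟨e', hd'⟩
  · have := (hf'.pi hn' hp b0 b1 rfl).2.2 e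
    rw [hst] at this
    exact this hd
  obtain rfl : e' = e := by
    rw [← hd' _ b0 _ b1 rfl, hf.c ha m1]; exact hd _ a0 _ a1 rfl
  have he : g.c (f a) (f v) = e' := by
    rw [hf.c ha hvQ]; exact hd a a0 v hv ((not_mem_ch hv).1 h1)
  rcases hn'.witness hd' m3 h2 b0 he with hp | ⟨-, y, hy, hy1, hy2⟩
  · obtain ⟨k1, -, k3⟩ := hf'.pi (node_cl m0 m3 (fun h3 => h2 (h3 ▸ b0))) hp (left_mem_cl m0 _)
      (right_mem_cl _ m3) rfl
    have hsub : w' ⊆ g.cl Q (f a) (f v) := by rw [cl_comm]; exact hn'.str.sub_cl m3 h2 b0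
    have : g.cl Q (f' (f a)) (f' (f v)) = w := by
      refine Subset.antisymm (hn.str.cl_sub a1 a3) ?_
      rw [← hst]
      exact (str_cl _ _ _).cl_sub (k1 _ (hsub b0)) (k1 _ (hsub b1))
    rw [this] at k3
    exact k3 _ hd
  · have k1 : g.c (f' y) (f' (f a)) ≠ e' := by rw [hf'.c hy m0]; exact hy1 _ b0
    have k2 : g.c (f' y) (f' (f (f' (f a)))) ≠ e' := by rw [hf'.c hy m2]; exact hy1 _ b1
    apply k1
    rw [hn.str.mod.eq' a1 a3 (hf'.maps hy) (hn.not_mem_of hd a1 a2 hst k1 k2), hf'.c hy m3, hy2]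

end Gr

end Pool.Agent.MP_2a6d4e_co

end MrgPart4

-- ======== part 5: formerly Pool.Agent.MP_2a6d4e_co.Marker
section MrgPart5

/-! Coding subsets of `ℕ` by markers along a chain of modules. -/

namespace Pool.Agent.MP_2a6d4e_co

open Set Function

namespace Gr

variable {V : Type} {g : Gr V}
variable {Q Q' R A B X Y Z w : Set V} {a b x y v p : V} {e : Bool} {f f' h : V → V}

variable (g) in
/-- A continuum of siblings, pairwise non-isomorphic over a finite list of points. -/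
def Cont (Q : Set V) : Prop := ∃ (F : Set ℕ → Set V) (L : List V), (∀ S, g.Eqv Q (F S)) ∧
  (∀ S, ∀ v ∈ L, v ∈ F S) ∧
  ∀ S S' ψ, g.IsoMap (F S) (F S') ψ → (∀ v ∈ L, ψ v = v) → S = S'

theorem Cont.of_eqv (hQ : g.Eqv Q Q') (h : g.Cont Q') : g.Cont Q := by
  obtain ⟨F, L, h1, h2, h3⟩ := h
  exact ⟨F, L, fun S => hQ.trans (h1 S), h2, h3⟩

theorem cont_of (F : Set ℕ → Set V) (L : List V) (h1 : ∀ S, g.Eqv Q (F S))
    (h2 : ∀ S, ∀ v ∈ L, v ∈ F S)
    (h3 : ∀ S S' n ψ, g.IsoMap (F S) (F S') ψ → (∀ v ∈ L, ψ v = v) →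
      (∀ m < n, m ∈ S ↔ m ∈ S') → n ∈ S → n ∉ S' → False) : g.Cont Q := by
  classical
  refine ⟨F, L, h1, h2, fun S S' ψ hψ hL => ?_⟩
  by_contra hne
  have hex : ∃ n, ¬ (n ∈ S ↔ n ∈ S') := by
    by_contra hcon
    push Not at hcon
    exact hne (Set.ext hcon)
  have hmin : ∀ m < Nat.find hex, m ∈ S ↔ m ∈ S' := fun m hm => not_not.1 (Nat.find_min hex hm)
  have hsp := Nat.find_spec hex
  by_cases hn : Nat.find hex ∈ S
  · exact h3 S S' _ ψ hψ hL hmin hn (fun h => hsp ⟨fun _ => h, fun _ => hn⟩)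
  · obtain ⟨ψ', hψ', k1, -⟩ := hψ.inv
    refine h3 S' S _ ψ' hψ' (fun v hv => ?_) (fun m hm => (hmin m hm).symm) ?_ hn
    · conv_lhs => rw [← hL v hv]
      exact k1 v (h2 S v hv)
    · by_contra h
      exact hsp ⟨fun h' => absurd h' hn, fun h' => absurd h' h⟩

theorem marker {L : Set V} {q z l : V} (hL : g.Mod R L) (hT : g.Mod R (L ∪ Z))
    (hH : g.Mod R (insert p (L ∪ Z))) (hq : q ∈ L) (hqc : ∀ v ∈ L, v ≠ q → g.c q v = true)
    (hl : l ∈ L) (hlq : l ≠ q) (hz : z ∈ Z) (hZ : ∀ s ∈ Z, ∀ v ∈ L ∪ Z, g.c s v = false)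
    (hZL : ∀ s ∈ Z, s ∉ L) (hp : p ∉ L ∪ Z) (hpc : ∀ v ∈ L ∪ Z, g.c p v = true) :
    g.Str R L ∧ g.Str R (L ∪ Z) ∧ (∀ x ∈ R, x ∉ L → (g.Mod R (insert x L) ↔ x ∈ Z)) ∧
      (∀ x ∈ L ∪ Z, (∀ v ∈ L ∪ Z, g.c x v = false) ↔ x ∈ Z) ∧ g.cl R q z = L ∪ Z := by
  have hpR : p ∈ R := hH.sub (mem_insert _ _)
  have hzR : z ∈ R := hT.sub (Or.inr hz)
  have s1 : g.Str R L := by
    by_contra hns
    obtain ⟨Y, hY, u, hu, huY, x, hx, hxY, y, hy, hyL⟩ := (not_str_iff hL).1 hns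
    obtain ⟨o1, o2⟩ := overlap hL hY hu huY hx hxY hy hyL
    have hc : g.c x y = true := by
      by_cases h1 : q ∈ Y
      · rw [← o1 x hx hxY q h1, g.symm]; exact hqc x hx (fun h => hxY (h ▸ h1))
      · rw [← o1 q hq h1 u huY]; exact hqc u hu (fun h => h1 (h ▸ huY))
    have hzY : z ∉ Y := fun h => by
      have := o2 u hu z h (hZL z hz)
      rw [hc, g.symm, hZ z hz u (Or.inl hu)] at this
      exact Bool.false_ne_true this
    have hyT : y ∉ L ∪ Z := by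
      rintro (h | h)
      · exact hyL h
      · rw [g.symm, hZ y h x (Or.inl hx)] at hc; exact Bool.false_ne_true hc
    have k1 := hY.eq huY hy hzR hzY
    rw [g.symm, hZ z hz u (Or.inl hu), g.symm,
      hT.eq (Or.inr hz) (Or.inl hx) (hY.sub hy) hyT, hc] at k1
    exact Bool.false_ne_true k1
  have s2 : g.Str R (L ∪ Z) := by
    by_contra hns
    obtain ⟨Y, hY, u, hu, huY, x, hx, hxY, y, hy, hyL⟩ := (not_str_iff hT).1 hns
    obtain ⟨o1, o2⟩ := overlap hT hY hu huY hx hxY hy hyL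
    have hc : g.c x y = false := by
      by_cases h1 : z ∈ Y
      · rw [← o1 x hx hxY z h1, g.symm]; exact hZ z hz x hx
      · rw [← o1 z (Or.inr hz) h1 u huY]; exact hZ z hz u hu
    have hpY : p ∉ Y := fun h => by
      have := o2 u hu p h hp
      rw [hc, g.symm, hpc u hu] at this
      exact Bool.false_ne_true this.symm
    have hyH : y ∉ insert p (L ∪ Z) := by
      rintro (h | h)
      · exact hpY (h ▸ hy)
      · exact hyL h
    have k1 := hY.eq huY hy hpR hpY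
    rw [g.symm, hpc u hu, g.symm, hH.eq (mem_insert _ _) (mem_insert_of_mem _ hx) (hY.sub hy) hyH,
      hc] at k1
    exact Bool.false_ne_true k1.symm
  refine ⟨s1, s2, fun x hx hxL => ⟨fun hm => ?_, fun hxZ => ?_⟩, fun x hx => ⟨fun h0 => ?_, hZ x⟩, ?_⟩
  · by_contra hxZ
    have hxT : x ∉ L ∪ Z := fun h => h.elim hxL hxZ
    have k1 : g.c x z = false := by
      rw [hm.eq (mem_insert _ _) (mem_insert_of_mem _ hq) hzR
        (by rintro (h | h); exacts [hxZ (h ▸ hz), hZL z hz h]), g.symm]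
      exact hZ z hz q (Or.inl hq)
    have hxp : x ≠ p := fun h => by
      rw [h, hpc z (Or.inr hz)] at k1; exact Bool.false_ne_true k1.symm
    have k2 : g.c x p = true := by
      rw [hm.eq (mem_insert _ _) (mem_insert_of_mem _ hq) hpR
        (by rintro (h | h); exacts [hxp h.symm, hp (Or.inl h)]), g.symm]
      exact hpc q (Or.inl hq)
    rw [hH.eq' (mem_insert _ _) (mem_insert_of_mem _ (Or.inr hz)) hx
      (by rintro (h | h); exacts [hxp h, hxT h]), k1] at k2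
    exact Bool.false_ne_true k2
  · have hsub : insert x L ⊆ L ∪ Z := insert_subset (Or.inr hxZ) subset_union_left
    refine ⟨hsub.trans hT.sub, fun s hs s' hs' t ht ht' => ?_⟩
    by_cases h1 : t ∈ L ∪ Z
    · have h2 : t ∈ Z := h1.resolve_left fun h => ht' (mem_insert_of_mem _ h)
      rw [g.symm, g.symm s', hZ t h2 s (hsub hs), hZ t h2 s' (hsub hs')]
    · exact hT.eq (hsub hs) (hsub hs') ht h1
  · rcases hx with hx | hx
    · exfalso
      by_cases h1 : x = q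
      · have := h0 l (Or.inl hl)
        rw [h1, hqc l hl hlq] at this
        exact Bool.false_ne_true this.symm
      · have := h0 q (Or.inl hq)
        rw [g.symm, hqc x hx h1] at this
        exact Bool.false_ne_true this.symm
    · exact hx
  · refine Subset.antisymm (s2.cl_sub (Or.inl hq) (Or.inr hz)) (union_subset ?_ ?_)
    · rw [cl_comm]; exact s1.sub_cl hzR (hZL z hz) hq
    · have hm : g.Mod R Z := by
        refine ⟨subset_union_right.trans hT.sub, fun s hs s' hs' t ht ht' => ?_⟩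
        by_cases h1 : t ∈ L ∪ Z
        · rw [hZ s hs t h1, hZ s' hs' t h1]
        · exact hT.eq (Or.inr hs) (Or.inr hs') ht h1
      exact (str_cl R q z).sup_of hm (right_mem_cl q hzR) hz (left_mem_cl (hL.sub hq) z)
        (fun h => hZL q h hq)

/-- The colour pattern of the markers. -/
def pat (i : ℕ) : Bool := decide (i % 5 = 0 ∨ i % 5 = 3)

theorem shift_run (hf : g.Emb A A f) {s : Bool → V} (hs : ∀ e, s e ∈ A ∧ s e ∉ f '' A)
    {φ : Bool → Bool → Bool} (hc : ∀ e e' k, g.c (s e) (f^[k + 1] (s e')) = φ e e') :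
    Injective (fun i => f^[i] (s (pat i))) ∧ ∀ i j, i < j →
      g.c (f^[i] (s (pat i))) (f^[j] (s (pat j))) = φ (pat i) (pat j) := by
  have key : ∀ i j, i < j → f^[i] (s (pat i)) ≠ f^[j] (s (pat j)) ∧
      g.c (f^[i] (s (pat i))) (f^[j] (s (pat j))) = φ (pat i) (pat j) := by
    intro i j hij
    obtain ⟨k, rfl⟩ := Nat.exists_eq_add_of_lt hij
    have m1 := (hf.iter (k + 1)).maps (hs (pat (i + k + 1))).1
    rw [add_assoc, iterate_add_apply, ← add_assoc]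
    refine ⟨(hf.iter i).ne (hs _).1 m1 fun h => (hs (pat i)).2 ?_, ?_⟩
    · rw [h, iterate_succ_apply']
      exact mem_image_of_mem f ((hf.iter k).maps (hs _).1)
    · rw [(hf.iter i).c (hs _).1 m1, hc]
  refine ⟨fun i j hij => ?_, fun i j hij => (key i j hij).2⟩
  rcases lt_trichotomy i j with h | h | h
  · exact absurd hij (key i j h).1
  · exact h
  · exact absurd hij.symm (key j i h).1

theorem up_core {L T : Set V} {q : V} (hf : g.Emb L L f) (hs : g.Str L (f '' L))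
    (hne : f '' L ≠ L) (hq : q ∈ T) (hfq : f q = q) (hTL : T ⊆ L) (hT : f '' T = T) :
    ∃ r : ℕ → V, Injective r ∧ (∀ i, r i ∈ L ∧ r i ∉ T ∧ g.c (r i) q = pat i) ∧
      ∀ i j, i < j → g.c (r i) (r j) = pat i := by
  have hqL := hTL hq
  have hq1 : q ∈ f '' L := ⟨q, hqL, hfq⟩
  have hiso := hf.isoMap_image
  obtain ⟨x, hx, hx'⟩ : ∃ x ∈ L, x ∉ f '' L := by
    by_contra hcon
    push Not at hcon
    exact hne (Subset.antisymm hs.sub hcon)
  have key : ∀ e, ∃ v, (v ∈ L ∧ v ∉ f '' L) ∧ g.c v q = e := by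
    intro e
    obtain ⟨v, hv, hv', hvc⟩ := both_types (mod_self L) hs (hs.mod.trans (hiso.mod_image hs.mod))
      hs.sub (image_mono hs.sub) hx hx' (mem_image_of_mem f hx)
      (fun h => hx' ((hiso.mem_image hs.sub hx).1 h)) ⟨q, hq1, hfq⟩ e
    have hvq := hvc q ⟨q, hq1, hfq⟩
    by_cases h1 : v ∈ f '' L
    · obtain ⟨u, hu, rfl⟩ := h1
      refine ⟨u, ⟨hu, fun h => hv' (mem_image_of_mem f h)⟩, ?_⟩
      rw [← hf.c hu hqL, hfq, hvq]
    · exact ⟨v, ⟨hv, h1⟩, hvq⟩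
  choose s hs1 hs2 using key
  obtain ⟨k1, k2⟩ := shift_run hf hs1 (φ := fun e _ => e) (fun e e' k => by
    rw [hs.mod.eq' _ hq1 (hs1 e).1 (hs1 e).2, hs2]
    rw [iterate_succ_apply']
    exact mem_image_of_mem f ((hf.iter k).maps (hs1 e').1))
  refine ⟨_, k1, fun i => ⟨(hf.iter i).maps (hs1 _).1, ?_, ?_⟩, k2⟩
  · have : ∀ n e, f^[n] (s e) ∉ T := by
      intro n e
      induction n with
      | zero => exact fun h => (hs1 e).2 (image_mono hTL (hT.symm.subset h))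
      | succ n ih =>
        rw [iterate_succ_apply', ← hT]
        exact fun h => ih ((hiso.mem_image hTL ((hf.iter n).maps (hs1 e).1)).1 h)
    exact this i _
  · conv_lhs => rw [← iterate_fixed hfq i]
    rw [(hf.iter i).c (hs1 _).1 hqL, hs2]

theorem down_core {R' T T' : Set V} {u : V} (hf : g.IsoMap R R' f) (hTR : T ∪ A ⊆ R)
    (h0 : f '' (T ∪ A) = T' ∪ A) (hA : ∀ v ∈ A, v ∉ T)
    (hm0 : g.Mod R' (T' ∪ A)) (hm : g.Mod R' T') (hX : g.Str R' (f '' T)) (hsub : T' ⊆ f '' T)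
    (hne : f '' T ≠ T') (hu : u ∈ T) (hu' : u ∈ T') :
    ∃ r : ℕ → V, Injective r ∧ (∀ i, r i ∈ A ∧ g.c (r i) u = pat i) ∧
      ∀ i j, i < j → g.c (r i) (r j) = pat j := by
  have hAR : A ⊆ R := subset_union_right.trans hTR
  have hAR' : A ⊆ R' := subset_union_right.trans hm0.sub
  have hTR' : T ⊆ R := subset_union_left.trans hTR
  have k0 : ∀ v ∈ A, f v ∉ f '' T := fun v hv h => hA v hv ((hf.mem_image hTR' (hAR hv)).1 h)
  have k1 : ∀ v ∈ A, f v ∈ A := fun v hv =>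
    (h0 ▸ mem_image_of_mem f (Or.inr hv) : f v ∈ T' ∪ A).resolve_left fun h => k0 v hv (hsub h)
  have hfA : g.Emb A A f := hf.emb.mono hAR k1
  have k2 : ∀ v ∈ T' ∪ A, v ∉ f '' T → v ∈ f '' A := by
    intro v hv hv'
    rw [← h0, image_union] at hv
    exact hv.resolve_left hv'
  have k3 : ∀ v ∈ A, g.c u (f v) = g.c u v := fun v hv => by
    rw [hX.mod.eq (hsub hu') (mem_image_of_mem f hu) (hAR' (k1 v hv)) (k0 v hv),
      hf.emb.c (hTR' hu) (hAR hv)]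
  have hXs : f '' T ⊆ T' ∪ A := h0 ▸ image_mono subset_union_left
  obtain ⟨x, hx, hx'⟩ : ∃ x ∈ f '' T, x ∉ T' := by
    by_contra hcon
    push Not at hcon
    exact hne (Subset.antisymm hcon hsub)
  have hxA : x ∈ A := (hXs hx).resolve_left hx'
  have k4 : ∀ v ∈ f '' T, v ∉ f '' A := by
    rintro v hv ⟨t, ht, rfl⟩
    exact k0 t ht hv
  have key : ∀ e, ∃ v, (v ∈ A ∧ v ∉ f '' A) ∧ g.c u v = e := by
    intro e
    by_contra hcon
    push Not at hcon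
    have hY : g.Mod R' ((T' ∪ A) \ f '' (f '' A)) := by
      refine ⟨sdiff_subset.trans hm0.sub, fun s hs s' hs' t ht ht' => ?_⟩
      by_cases h1 : t ∈ T' ∪ A
      · obtain ⟨_, ⟨t, htA, rfl⟩, rfl⟩ : t ∈ f '' (f '' A) := by_contra fun h => ht' ⟨h1, h⟩
        have key : ∀ s ∈ (T' ∪ A) \ f '' (f '' A), g.c s (f (f t)) = g.c u (f (f t)) := by
          intro s hs
          by_cases h2 : s ∈ f '' T
          · exact hX.mod.eq h2 (hsub hu') ht (k0 _ (k1 t htA))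
          · obtain ⟨s, hsA, rfl⟩ := k2 s hs.1 h2
            have h3 : s ∈ f '' T := by_contra fun h =>
              hs.2 (mem_image_of_mem f (k2 s (Or.inr hsA) h))
            rw [hfA.c hsA (k1 t htA), k3 _ (k1 t htA)]
            exact hX.mod.eq h3 (hsub hu') (hAR' (k1 t htA)) (k0 t htA)
        rw [key s hs, key s' hs']
      · exact hm0.eq hs.1 hs'.1 ht h1
    obtain ⟨y, hy, hy', hyc⟩ := hX.other_type (e := !e) (A := T') (fun s hs t ht h1 h2 => by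
        rw [hm.eq h1 hu' (hX.sub ht) h2]
        exact bool_ne (hcon t ⟨(hXs ht).resolve_left h2, k4 t ht⟩))
      (hsub hu') hu' hx hx' hY
      (fun v hv => ⟨hXs hv, fun h => k4 v hv (image_mono (image_subset_iff.2 k1) h)⟩)
      (x := f x) ⟨Or.inr (k1 x hxA), fun h => k4 x hx
        ((hf.mem_image ((image_subset_iff.2 k1).trans hAR) (hAR hxA)).1 h)⟩ (k0 x hxA)
    obtain ⟨t, ht, rfl⟩ := k2 y hy.1 hy'
    apply hyc u (hsub hu')
    rw [g.symm, k3 t ht]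
    exact bool_ne (hcon t ⟨ht, fun h => hy.2 (mem_image_of_mem f h)⟩)
  choose s hs1 hs2 using key
  have k5 : ∀ n e, g.c u (f^[n] (s e)) = e := by
    intro n e
    induction n with
    | zero => exact hs2 e
    | succ n ih => rw [iterate_succ_apply', k3 _ ((hfA.iter n).maps (hs1 e).1), ih]
  obtain ⟨k6, k7⟩ := shift_run hfA hs1 (φ := fun _ e => e) (fun e e' k => by
    have h1 : s e ∈ f '' T := by_contra fun h => (hs1 e).2 (k2 _ (Or.inr (hs1 e).1) h)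
    rw [hX.mod.eq h1 (hsub hu') (hAR' ((hfA.iter _).maps (hs1 e').1)), k5]
    rw [iterate_succ_apply']
    exact k0 _ ((hfA.iter k).maps (hs1 e').1))
  exact ⟨_, k6, fun i => ⟨(hfA.iter i).maps (hs1 _).1, by rw [g.symm, k5]⟩, k7⟩

end Gr

end Pool.Agent.MP_2a6d4e_co

end MrgPart5

-- ======== part 6: formerly Pool.Agent.MP_2a6d4e_co.h30.Twin
section MrgPart6

/-! Graphs coded by laminar systems have countably many or continuum many siblings. -/

namespace Pool.Agent.MP_2a6d4e_co.h30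

open Set Function

variable {V At Lab P : Type}

def Tw (g : Gr V) (A : Set V) (a b : V) : Prop := ∀ v ∈ A, g.c a v = g.c b v

noncomputable def tc (g : Gr V) (A : Set V) (a : V) : ℕ∞ := {b | b ∈ A ∧ Tw g A a b}.encard

def TF (g : Gr V) (R : Set V) : Prop := ∀ a ∈ R, ∀ b ∈ R, Tw g R a b → a = b

def Cnt (g : Gr V) (R : Set V) : Prop :=
  ∃ d : Set V → ℕ, ∀ A B, A ⊆ R → B ⊆ R → d A = d B → g.Iso A B

def Inf (g : Gr V) (R : Set V) : Prop :=
  ∃ F : ℕ → Set V, (∀ n, g.Eqv R (F n)) ∧ ∀ n m, g.Iso (F n) (F m) → n = m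

variable {g : Gr V} {R A B : Set V} {X : Lam At Lab}

theorem tc_iso {ψ : V → V} (h : g.IsoMap A B ψ) {a : V} (ha : a ∈ A) :
    tc g B (ψ a) = tc g A a := by
  rw [tc, tc, ← (h.1.2.1.mono (sep_subset A (Tw g A a))).encard_image]
  congr 1
  ext b
  constructor
  · rintro ⟨hb, t⟩
    obtain ⟨b, hb', rfl⟩ := h.surj hb
    exact ⟨b, ⟨hb', fun v hv => by rw [← h.1.c ha hv, t _ (h.1.maps hv), h.1.c hb' hv]⟩, rfl⟩
  · rintro ⟨b, ⟨hb, t⟩, rfl⟩
    refine ⟨h.1.maps hb, fun v hv => ?_⟩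
    obtain ⟨v, hv', rfl⟩ := h.surj hv
    rw [h.1.c ha hv', t v hv', h.1.c hb hv']

theorem tw_image {f : V → V} (hT : TF g R) (hf : g.Emb R R f) (hA : f '' R ⊆ A) (a : V) :
    ({b | b ∈ f '' R ∧ Tw g A a b}).encard ≤ 1 := by
  rw [encard_le_one_iff_subsingleton]
  rintro _ ⟨⟨b, hb, rfl⟩, t⟩ _ ⟨⟨b', hb', rfl⟩, t'⟩
  rw [hT b hb b' hb' fun v hv => by
    rw [← hf.c hb hv, ← hf.c hb' hv, ← t _ (hA ⟨v, hv, rfl⟩), t' _ (hA ⟨v, hv, rfl⟩)]]

theorem eqv_of {f : V → V} (hf : g.Emb R R f) (h1 : f '' R ⊆ A) (h2 : A ⊆ R) : g.Eqv R A :=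
  ⟨⟨f, hf.mono subset_rfl fun a ha => h1 ⟨a, ha, rfl⟩⟩, Gr.le_of_sub h2⟩

structure Code (g : Gr V) (R : Set V) (X : Lam At Lab) (P : Type) where
  am : V → At
  ps : V → P
  rep : At → V
  inj : ∀ v ∈ R, ∀ w ∈ R, am v = am w → ps v = ps w → v = w
  ex : ∀ v ∈ R, ∀ b, X.lab b = X.lab (am v) → ∃ w ∈ R, am w = b ∧ ps w = ps v
  rep_mem : ∀ a, rep a ∈ R
  am_rep : ∀ a, am (rep a) = a
  ps_rep : ∀ a b, X.lab a = X.lab b → ps (rep a) = ps (rep b)
  adj : ∀ v ∈ R, ∀ w ∈ R, ∀ v' ∈ R, ∀ w' ∈ R, X.lab (am v) = X.lab (am v') →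
    X.lab (am w) = X.lab (am w') → ps v = ps v' → ps w = ps w' → (am v = am w ↔ am v' = am w') →
    (X.Adj (am v) (am w) ↔ X.Adj (am v') (am w')) → g.c v w = g.c v' w'
  hadj : ∀ a b, g.c (rep a) (rep b) = true ↔ X.Adj a b

namespace Code

variable (D : Code g R X P)

theorem lift {σ : At → At} (h : X.TE univ univ σ) :
    ∃ f, g.Emb R R f ∧ ∀ v ∈ R, D.am (f v) = σ (D.am v) ∧ D.ps (f v) = D.ps v := by
  choose! f f1 f2 using fun v hv => D.ex v hv (σ (D.am v)) (h.lab trivial)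
  refine ⟨f, ⟨f1, fun v hv w hw e => D.inj v hv w hw ?_ ?_, fun v hv w hw => ?_⟩, f2⟩
  · exact h.2.1 trivial trivial (by rw [← (f2 v hv).1, e, (f2 w hw).1])
  · rw [← (f2 v hv).2, e, (f2 w hw).2]
  · refine D.adj _ (f1 v hv) _ (f1 w hw) v hv w hw ?_ ?_ (f2 v hv).2 (f2 w hw).2 ?_ ?_ <;>
      simp only [(f2 v hv).1, (f2 w hw).1]
    exacts [h.lab trivial, h.lab trivial, ⟨h.2.1 trivial trivial, fun e => by rw [e]⟩,
      or_congr (h.m trivial trivial) (h.m trivial trivial)]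

include D in
theorem cnt [Finite P] (h : X.Cl univ) : Cnt g R := by
  obtain ⟨d, hd⟩ := h.cnt (Col := Set P)
  refine ⟨fun A => d fun a => {p | ∃ v ∈ A, D.am v = a ∧ D.ps v = p}, fun A B hA hB e => ?_⟩
  obtain ⟨σ, hσ, k⟩ := hd _ _ e
  obtain ⟨f, hf, f2⟩ := D.lift hσ.1
  refine ⟨f, hf.mono hA fun v hv => ?_, fun w hw => ?_⟩
  · obtain ⟨w, hw, e1, e2⟩ := (k (D.am v) trivial).symm.subset ⟨v, hv, rfl, rfl⟩
    rwa [D.inj _ (hf.maps (hA hv)) w (hB hw) ((f2 v (hA hv)).1.trans e1.symm)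
      ((f2 v (hA hv)).2.trans e2.symm)]
  · obtain ⟨a, -, ha⟩ := hσ.2 (mem_univ (D.am w))
    obtain ⟨v, hv, e1, e2⟩ := (k a trivial).subset ⟨w, hw, ha.symm, rfl⟩
    exact ⟨v, hv, D.inj _ (hf.maps (hA hv)) w (hB hw) (by rw [(f2 v (hA hv)).1, e1, ha])
      ((f2 v (hA hv)).2.trans e2)⟩

theorem rep_inj : Injective D.rep := LeftInverse.injective D.am_rep

theorem tw_rep {z z' : At} (hl : X.lab z = X.lab z') {v : V} (hv : v ∈ R) (h1 : z ≠ D.am v)
    (h2 : z' ≠ D.am v) (h3 : X.Adj z (D.am v) ↔ X.Adj z' (D.am v)) :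
    g.c (D.rep z) v = g.c (D.rep z') v :=
  D.adj _ (D.rep_mem _) v hv _ (D.rep_mem _) v hv (by simpa only [D.am_rep] using hl) rfl
    (D.ps_rep _ _ hl) rfl (by simp only [D.am_rep, h1, h2]) (by simpa only [D.am_rep] using h3)

theorem c_false {z z' : At} (h : ¬ X.Adj z z') : g.c (D.rep z) (D.rep z') = false := by
  rwa [← D.hadj, Bool.not_eq_true] at h

theorem c_same {z z' : At} (hl : X.lab z = X.lab z') : g.c (D.rep z) (D.rep z') = false :=
  D.c_false (not_or.2 ⟨fun m => m.1 ((Lam.pt_iff hl).2 m.2.1),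
    fun m => m.1 ((Lam.pt_iff hl).1 m.2.1)⟩)

include D in
theorem inf [Finite P] (h : X.Cl univ) (hR : R.Infinite) (hT : TF g R) : Inf g R := by
  have : (univ : Set At).Infinite := fun hf => by
    have : Finite At := finite_univ_iff.1 hf
    exact hR (Finite.of_injOn (f := fun v => (D.am v, D.ps v)) (t := univ) (mapsTo_univ _ _)
      (fun v hv w hw e => D.inj v hv w hw (Prod.mk.inj e).1 (Prod.mk.inj e).2) finite_univ)
  obtain ⟨σ, hσ, z, hz, k⟩ := h.inf this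
  obtain ⟨f, hf, f2⟩ := D.lift hσ
  let W : ℕ → Set V := fun n => (D.rep ∘ z) '' Iio (2 * n + 2)
  have hW : ∀ n, (W n).encard = (2 * n + 2 : ℕ) := fun n => by
    rw [(D.rep_inj.comp hz).encard_image, ← Finset.coe_range, encard_coe_eq_coe_finsetCard,
      Finset.card_range]
  have lo : ∀ n, ((2 * n + 2 : ℕ) : ℕ∞) ≤ tc g (f '' R ∪ W n) (D.rep (z 0)) := by
    intro n
    rw [← hW]
    refine encard_le_encard ?_
    rintro _ ⟨i, hi, rfl⟩
    refine ⟨Or.inr ⟨i, hi, rfl⟩, ?_⟩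
    rintro _ (⟨v, hv, rfl⟩ | ⟨j, -, rfl⟩)
    · refine D.tw_rep (k i).2.1.symm (hf.maps hv) ?_ ?_ ?_ <;> rw [(f2 v hv).1]
      exacts [((k 0).2.2 _ trivial).1.symm, ((k i).2.2 _ trivial).1.symm,
        (or_congr ((k i).2.2 _ trivial).2.1 ((k i).2.2 _ trivial).2.2).symm]
    · exact (D.c_same (k j).2.1.symm).trans (D.c_same ((k i).2.1.trans (k j).2.1.symm)).symm
  have hi : ∀ n a, tc g (f '' R ∪ W n) a ≤ (2 * n + 3 : ℕ) := by
    intro n a
    refine (encard_le_encard (t := {b | b ∈ f '' R ∧ Tw g (f '' R ∪ W n) a b} ∪ W n)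
      fun b hb => hb.1.imp_left fun h => ⟨h, hb.2⟩).trans ((encard_union_le _ _).trans ?_)
    rw [hW]
    refine (add_le_add_left (tw_image hT hf subset_union_left a) _).trans (le_of_eq ?_)
    push_cast; ring
  have key : ∀ n m, g.Iso (f '' R ∪ W n) (f '' R ∪ W m) → n ≤ m := by
    rintro n m ⟨ψ, hψ⟩
    have := (lo n).trans ((tc_iso hψ (Or.inr ⟨0, by simp, rfl⟩)).symm.trans_le (hi m _))
    rw [Nat.cast_le] at this
    omega
  refine ⟨fun n => f '' R ∪ W n, fun n => eqv_of hf subset_union_left ?_,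
    fun n m h => le_antisymm (key n m h) (key m n h.symm)⟩
  rintro _ (⟨v, hv, rfl⟩ | ⟨j, -, rfl⟩)
  exacts [hf.maps hv, D.rep_mem _]

include D in
theorem cont (h : X.Out) (hT : TF g R) : g.Cont R := by
  obtain ⟨σ, hσ, A, y, Z, h1, h2, h3, h4⟩ := h
  obtain ⟨f, hf, f2⟩ := D.lift hσ
  let F : Set ℕ → Set V := fun S =>
    f '' R ∪ (fun k => D.rep (y k)) '' S ∪ ⋃ k ∈ S, D.rep '' (Z k : Set At)
  have hF : ∀ S, F S ⊆ R := by
    rintro S v ((⟨v, hv, rfl⟩ | ⟨j, -, rfl⟩) | hv)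
    · exact hf.maps hv
    · exact D.rep_mem _
    · obtain ⟨j, -, z, -, rfl⟩ := mem_iUnion₂.1 hv
      exact D.rep_mem _
  have mz : ∀ S k, k ∈ S → ∀ z ∈ Z k, D.rep z ∈ F S := fun S k hk z hz =>
    Or.inr (mem_iUnion₂.2 ⟨k, hk, z, hz, rfl⟩)
  have my : ∀ S k, k ∈ S → D.rep (y k) ∈ F S := fun S k hk => Or.inl (Or.inr ⟨k, hk, rfl⟩)
  have ct : ∀ k, ∀ z ∈ Z k, g.c (D.rep z) (D.rep (y k)) = true := fun k z hz =>
    (D.hadj _ _).2 ((h1 k).2.2 z hz).2.1.symm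
  have hZ : ∀ k, (D.rep '' (Z k : Set At)).encard = (3 * k + 3 : ℕ) := fun k => by
    rw [D.rep_inj.encard_image, encard_coe_eq_coe_finsetCard, (h1 k).1]
  have ne : ∀ k, ∃ z, z ∈ Z k := fun k => Finset.card_pos.1 (by rw [(h1 k).1]; omega)
  have t1 : ∀ S k, ∀ z ∈ Z k, ∀ z' ∈ Z k, Tw g (F S) (D.rep z) (D.rep z') := by
    intro S k z hz z' hz' v hv
    have b1 := (h1 k).2.2 z hz
    have b2 := (h1 k).2.2 z' hz'
    by_cases hA : D.am v ∈ A k
    · rcases hv with ((⟨v, hv, rfl⟩ | ⟨j, -, rfl⟩) | hv)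
      · exact absurd hA ((f2 v hv).1 ▸ h2 k _)
      · rw [D.am_rep] at hA
        obtain rfl : j = k := by_contra fun e => disjoint_left.1 (h3 j k e) (h1 j).2.1 hA
        exact (ct j z hz).trans (ct j z' hz').symm
      · obtain ⟨j, -, w, hw, rfl⟩ := mem_iUnion₂.1 hv
        rw [D.am_rep] at hA
        obtain rfl : j = k := by_contra fun e => disjoint_left.1 (h3 j k e) ((h1 j).2.2 w hw).1 hA
        rw [D.c_same (b1.2.2 w hw).1, D.c_same (b2.2.2 w hw).1]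
    · exact D.tw_rep (b1.2.2 z' hz').1 (hF S hv) (fun e => hA (e ▸ b1.1)) (fun e => hA (e ▸ b2.1))
        ⟨(b1.2.2 z' hz').2 _ hA, (b2.2.2 z hz).2 _ hA⟩
  have t2 : ∀ S a, (∀ k ∈ S, ∀ z ∈ Z k, Tw g (F S) a (D.rep z) →
      ((3 * k + 3 : ℕ) : ℕ∞) ≤ tc g (F S) a ∧ tc g (F S) a ≤ (3 * k + 5 : ℕ)) ∧
      ((¬ ∃ k ∈ S, ∃ z ∈ Z k, Tw g (F S) a (D.rep z)) → tc g (F S) a ≤ (2 : ℕ)) := by
    intro S a
    have u1 := tw_image hT hf (A := F S) (fun v hv => Or.inl (Or.inl hv)) a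
    have u2 : {b | b ∈ (fun k => D.rep (y k)) '' S ∧ Tw g (F S) a b}.encard ≤ 1 := by
      rw [encard_le_one_iff_subsingleton]
      rintro _ ⟨⟨j, hj, rfl⟩, t⟩ _ ⟨⟨k, hk, rfl⟩, t'⟩
      by_contra e
      have key : ∀ j k, j ∈ S → Tw g (F S) a (D.rep (y j)) → Tw g (F S) a (D.rep (y k)) →
          ¬ ∀ z ∈ Z j, ¬ X.Adj (y k) z := by
        intro j k hj t t' h
        obtain ⟨z, hz⟩ := ne j
        have := D.c_false (h z hz)
        rw [← t' _ (mz S j hj z hz), t _ (mz S j hj z hz), g.symm, ct j z hz] at this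
        exact absurd this (by decide)
      exact (h4 j k fun h => e (by rw [h])).elim (key j k hj t t') (key k j hk t' t)
    have u3 := (encard_union_le _ _).trans (add_le_add u1 u2)
    constructor
    · intro k hk z hz t
      refine ⟨?_, ?_⟩
      · rw [← hZ]
        refine encard_le_encard ?_
        rintro _ ⟨z', hz', rfl⟩
        exact ⟨mz S k hk z' hz', fun v hv => (t v hv).trans (t1 S k z hz z' hz' v hv)⟩
      · refine (encard_le_encard ?_).trans ((encard_union_le _ _).trans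
          ((add_le_add u3 (hZ k).le).trans (le_of_eq (by push_cast; ring))))
        rintro b ⟨(hb | hb) | hb, t'⟩
        · exact Or.inl (Or.inl ⟨hb, t'⟩)
        · exact Or.inl (Or.inr ⟨hb, t'⟩)
        · obtain ⟨j, hj, w, hw, rfl⟩ := mem_iUnion₂.1 hb
          obtain rfl : j = k := by
            by_contra e
            rcases h4 j k e with h | h
            · have := D.c_false (h w hw)
              rw [g.symm, ← t' _ (my S k hk), t _ (my S k hk), ct k z hz] at this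
              exact absurd this (by decide)
            · have := D.c_false (h z hz)
              rw [g.symm, ← t _ (my S j hj), t' _ (my S j hj), ct j w hw] at this
              exact absurd this (by decide)
          exact Or.inr ⟨w, hw, rfl⟩
    · intro hc
      refine (encard_le_encard ?_).trans (u3.trans (le_of_eq (by norm_num)))
      rintro b ⟨(hb | hb) | hb, t'⟩
      · exact Or.inl ⟨hb, t'⟩
      · exact Or.inr ⟨hb, t'⟩
      · obtain ⟨j, hj, w, hw, rfl⟩ := mem_iUnion₂.1 hb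
        exact absurd ⟨j, hj, w, hw, t'⟩ hc
  have t3 : ∀ S S', g.Iso (F S) (F S') → S ⊆ S' := by
    rintro S S' ⟨ψ, hψ⟩ k hk
    obtain ⟨z, hz⟩ := ne k
    have e := tc_iso hψ (mz S k hk z hz)
    obtain ⟨l1, l2⟩ := (t2 S _).1 k hk z hz fun _ _ => rfl
    rw [← e] at l1 l2
    by_cases hc : ∃ j ∈ S', ∃ w ∈ Z j, Tw g (F S') (ψ (D.rep z)) (D.rep w)
    · obtain ⟨j, hj, w, hw, t⟩ := hc
      obtain ⟨l3, l4⟩ := (t2 S' _).1 j hj w hw t
      have l5 := l1.trans l4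
      have l6 := l3.trans l2
      rw [Nat.cast_le] at l5 l6
      rwa [show k = j by omega]
    · have l5 := l1.trans ((t2 S' _).2 hc)
      rw [Nat.cast_le] at l5
      omega
  exact ⟨F, [], fun S => eqv_of hf (fun v hv => Or.inl (Or.inl hv)) (hF S), by simp,
    fun S S' ψ hψ _ => Subset.antisymm (t3 _ _ ⟨ψ, hψ⟩) (t3 _ _ (Gr.Iso.symm ⟨ψ, hψ⟩))⟩

include D in
theorem tri [Finite P] [Finite Lab] [Countable At] (hR : R.Infinite) (hT : TF g R) :
    g.Cont R ∨ Cnt g R ∧ Inf g R :=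
  X.dich.symm.imp (fun h => D.cont h hT) fun h => ⟨D.cnt h, D.inf h hR hT⟩

end Code

end Pool.Agent.MP_2a6d4e_co.h30

end MrgPart6

-- marker of a merged file
example : 731051 + 652635 = 731051 + 652635 := rfl
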